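import Pool.Agent.Helper35.PM.St

/-!
# Module CUTV: a face which visits a vertex twice
-/

set_option autoImplicit false

namespace Pool.Agent.Helper35.PM.M_CUTV

open Equiv Equiv.Perm

theorem main : StCutV := by
  classical
  intro V D _ M d d' hdd htd hf
  set a : D := M.r.symm d with hadef
  set b : D := M.r.symm d' with hbdef
  have hra : M.r a = d := M.r.apply_symm_apply d
  have hrb : M.r b = d' := M.r.apply_symm_apply d'
  have hab : a ≠ b := fun h => hdd (by rw [← hra, ← hrb, h])
  have hta : M.t a = M.t d := by rw [← hra, M.t_r]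
  have htb : M.t b = M.t d := by rw [htd, ← hrb, M.t_r]
  have hφa : M.φ (M.ι a) = d := by rw [PMap.φ_apply, M.inv, hra]
  have hφb : M.φ (M.ι b) = d' := by rw [PMap.φ_apply, M.inv, hrb]
  have hf' : M.φ.SameCycle (M.ι a) (M.ι b) := by
    rw [← hφa, ← hφb, sameCycle_apply_left, sameCycle_apply_right] at hf
    exact hf
  have hne : M.ι a ≠ M.ι b := fun h => hab (M.inv.injective h)
  obtain ⟨s, hs1, hsa, hsb⟩ := exists_sep M.φ hne hf'
  have ha : (M.r * swap a b) a = M.r b := by rw [Perm.mul_apply, swap_apply_left]
  have hb : (M.r * swap a b) b = M.r a := by rw [Perm.mul_apply, swap_apply_right]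
  have ho : ∀ e, e ≠ a → e ≠ b → (M.r * swap a b) e = M.r e := fun e h1 h2 => by
    rw [Perm.mul_apply, swap_apply_of_ne_of_ne h1 h2]
  have hs2 : ∀ e, s ((M.r * swap a b) e) = s (M.ι e) := by
    intro e
    rw [← hs1 (M.ι e)]
    congr 1
    by_cases h1 : e = a
    · rw [h1, ha, Perm.mul_apply, swap_apply_left, hφb, hrb]
    · by_cases h2 : e = b
      · rw [h2, hb, Perm.mul_apply, swap_apply_right, hφa, hra]
      · rw [ho e h1 h2, Perm.mul_apply, swap_apply_of_ne_of_ne
          (fun h => h1 (M.inv.injective h)) (fun h => h2 (M.inv.injective h)),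
          PMap.φ_apply, M.inv]
  obtain ⟨g, hg1, hga, hgb⟩ := exists_sep M.r hab (M.trans _ _ (by rw [hta, htb]))
  have hsra : s (M.r a) = 0 := by rw [← hb, hs2, hsb]
  have hsrb : s (M.r b) = 1 := by rw [← ha, hs2, hsa]
  have hgra : g (M.r a) = 0 := by rw [← hb, hg1, hgb]
  have hgrb : g (M.r b) = 1 := by rw [← ha, hg1, hga]
  obtain ⟨y, hy1, hy2⟩ := M.pl (fun e => s e + s (M.ι e)) (fun e => s e + g e)
    (fun e => by
      show s (M.ι e) + s (M.ι (M.ι e)) = s e + s (M.ι e)
      rw [M.inv, add_comm])
    (fun e => by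
      show s (M.r e) + g (M.r e) = s e + g e + (s e + s (M.ι e))
      have h0 : s e + g e + (s e + s (M.ι e)) = s (M.ι e) + g e := by
        generalize s e = p
        generalize g e = q
        generalize s (M.ι e) = w
        revert p q w
        decide
      rw [h0]
      by_cases h1 : e = a
      · rw [h1, hsra, hgra, hsa, hga]
        decide
      · by_cases h2 : e = b
        · rw [h2, hsrb, hgrb, hsb, hgb]
          decide
        · rw [← ho e h1 h2, hs2, hg1])
  have hyφ : ∀ e, y (M.φ e) = y e := by
    intro e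
    rw [PMap.φ_apply, hy1, hy2, M.inv]
    generalize s e = p
    generalize y e = q
    generalize s (M.ι e) = w
    revert p q w
    decide
  have hyc : ∀ e e', M.φ.SameCycle e e' → y e = y e' := by
    intro e e' h
    obtain ⟨k, hk⟩ := h.exists_nat_pow_eq
    rw [← hk]
    clear hk
    induction k with
    | zero => simp
    | succ k ih => rw [pow_succ', Perm.mul_apply, hyφ, ih]
  refine ⟨fun e => y e + s e, ?_, ?_, ?_⟩
  · intro e
    show y (M.ι e) + s (M.ι e) = y e + s e
    rw [hy2]
    generalize s e = p
    generalize y e = q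
    generalize s (M.ι e) = w
    revert p q w
    decide
  · intro e he
    have h1 : e ≠ a := fun h => he (by rw [h, hta])
    have h2 : e ≠ b := fun h => he (by rw [h, htb])
    show y (M.r e) + s (M.r e) = y e + s e
    rw [hy1, ← ho e h1 h2, hs2]
    generalize s e = p
    generalize y e = q
    generalize s (M.ι e) = w
    revert p q w
    decide
  · show y d + s d ≠ y d' + s d'
    have e1 : y d = y d' := hyc d d' hf
    rw [e1, ← hra, ← hrb, hsra, hsrb]
    generalize y (M.r b) = q
    revert q
    decide

end Pool.Agent.Helper35.PM.M_CUTV
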