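import Pool.Agent.Helper35.PM.St2

/-!
# Module CONN: a minimal counterexample is connected
-/

set_option autoImplicit false

namespace Pool.Agent.Helper35.PM.D_CONN

open Pool.Agent.Helper35.PM

/-- the leaf of a part of `T` is a leaf of `T` -/
theorem leaf_part {V : Type} (G : SimpleGraph V) (S : Set V)
    (hS : ∀ x y, G.Adj x y → x ∈ S → y ∈ S) (I1 : Set S) (hF : Forest (G.induce S) I1ᶜ)
    (I : Set V) (hI : ∀ x : S, x ∈ I1 → x.1 ∈ I) (T : Set V) (hT : T ⊆ Iᶜ) (t : V) (ht : t ∈ T)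
    (htS : t ∈ S) : ∃ a ∈ T, ∀ b ∈ T, ∀ c ∈ T, G.Adj a b → G.Adj a c → b = c := by
  obtain ⟨a, ha, hab⟩ := hF {x : S | x.1 ∈ T} (by
    intro x hx hx1
    exact hT hx (hI x hx1)) ⟨⟨t, htS⟩, ht⟩
  refine ⟨a.1, ha, ?_⟩
  intro b hb c hc h1 h2
  have hbS := hS a.1 b h1 a.2
  have hcS := hS a.1 c h2 a.2
  have := hab ⟨b, hbS⟩ hb ⟨c, hcS⟩ hc h1 h2
  exact congrArg Subtype.val this

/-- gluing partitions of the two parts -/
theorem glue {V : Type} (G : SimpleGraph V) (S : Set V)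
    (hS : ∀ x y, G.Adj x y → x ∈ S → y ∈ S) (h1 : NB (G.induce S)) (h2 : NB (G.induce Sᶜ)) :
    NB G := by
  obtain ⟨I1, hI1, hF1⟩ := h1
  obtain ⟨I2, hI2, hF2⟩ := h2
  have hS' : ∀ x y, G.Adj x y → x ∈ Sᶜ → y ∈ Sᶜ := by
    intro x y hxy hx hy
    exact hx (hS y x hxy.symm hy)
  refine ⟨{x | (∃ h : x ∈ S, (⟨x, h⟩ : S) ∈ I1) ∨ (∃ h : x ∈ Sᶜ, (⟨x, h⟩ : ↥Sᶜ) ∈ I2)}, ?_, ?_⟩
  · rintro a (⟨ha, ha1⟩ | ⟨ha, ha1⟩) b (⟨hb, hb1⟩ | ⟨hb, hb1⟩) hab
    · exact hI1 _ ha1 _ hb1 hab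
    · exact hb (hS a b hab ha)
    · exact ha (hS b a hab.symm hb)
    · exact hI2 _ ha1 _ hb1 hab
  · intro T hT hTn
    obtain ⟨t, ht⟩ := hTn
    by_cases htS : t ∈ S
    · exact leaf_part G S hS I1 hF1 _ (fun x hx => Or.inl ⟨x.2, hx⟩) T hT t ht htS
    · exact leaf_part G Sᶜ hS' I2 hF2 _ (fun x hx => Or.inr ⟨x.2, hx⟩) T hT t ht htS

theorem main : StConn := by
  classical
  intro V _ G hG
  have hne : Nonempty V := by
    by_contra hne
    rw [not_nonempty_iff] at hne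
    apply hG.nnb
    refine ⟨∅, fun a => hne.elim a, ?_⟩
    intro S _ hSn
    obtain ⟨a, _⟩ := hSn
    exact hne.elim a
  refine @SimpleGraph.Connected.mk V G ?_ hne
  intro a b
  by_contra hab
  apply hG.nnb
  let S : Set V := {x | G.Reachable a x}
  have hS : ∀ x y, G.Adj x y → x ∈ S → y ∈ S := by
    intro x y hxy hx
    exact SimpleGraph.Reachable.trans hx hxy.reachable
  have haS : a ∈ S := SimpleGraph.Reachable.refl a
  have hbS : b ∉ S := hab
  apply glue G S hS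
  · apply hG.small
    · exact Fintype.card_subtype_lt (x := b) hbS
    · exact hG.planar.sub Subtype.val Subtype.val_injective (fun x y h => h)
    · intro x y z h1 h2 h3
      exact hG.tf x.1 y.1 z.1 h1 h2 h3
  · apply hG.small
    · exact Fintype.card_subtype_lt (x := a) (fun h => h haS)
    · exact hG.planar.sub Subtype.val Subtype.val_injective (fun x y h => h)
    · intro x y z h1 h2 h3
      exact hG.tf x.1 y.1 z.1 h1 h2 h3

end Pool.Agent.Helper35.PM.D_CONN
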