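import Pool.Agent.Helper35.PM.St2

/-!
# Module COR: short cycles through a vertex inside the innermost short cycle
-/

set_option autoImplicit false

namespace Pool.Agent.Helper35.PM.D_COR

open Equiv Equiv.Perm

variable {V : Type} {G : SimpleGraph V} {R : Rot G} {m : ℕ} {v : ZMod m → V}
  {y : G.Dart → ZMod 2}

theorem z2 (z : ZMod 2) : z = 0 ∨ z = 1 := by
  fin_cases z
  · exact Or.inl rfl
  · exact Or.inr rfl

theorem range_not_int (hs : Side R m v y) (hc : Cyc G m v) (j : ZMod m) : ¬ Int y (v j) := by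
  intro h
  have h1 := hs.on0 ⟨(v j, v (j + 1)), hc.adj j⟩ j rfl
  have h2 := h ⟨(v j, v (j + 1)), hc.adj j⟩ rfl
  rw [h1] at h2
  exact zero_ne_one h2

theorem range_not_out (hs : Side R m v y) (hc : Cyc G m v) (j : ZMod m) : ¬ Out y (v j) := by
  intro h
  have e : v (j - 1 + 1) = v j := by rw [sub_add_cancel]
  have h1 := hs.on1 ⟨(v (j - 1 + 1), v (j - 1)), (hc.adj (j - 1)).symm⟩ (j - 1) rfl
  have h2 := h ⟨(v (j - 1 + 1), v (j - 1)), (hc.adj (j - 1)).symm⟩ e
  rw [h1] at h2
  exact one_ne_zero h2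

theorem off_of (hs : Side R m v y) (d : G.Dart)
    (h : d.fst ∉ Set.range v ∨ d.snd ∉ Set.range v) : y d.symm = y d := by
  refine (hs.off d fun j => ⟨fun h1 => ?_, fun h1 => ?_⟩).1
  · have e1 : d.fst = v j := congrArg Prod.fst h1
    have e2 : d.snd = v (j + 1) := congrArg Prod.snd h1
    rcases h with h | h
    · exact h ⟨j, e1.symm⟩
    · exact h ⟨j + 1, e2.symm⟩
  · have e1 : d.fst = v (j + 1) := congrArg Prod.fst h1
    have e2 : d.snd = v j := congrArg Prod.snd h1
    rcases h with h | h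
    · exact h ⟨j + 1, e1.symm⟩
    · exact h ⟨j, e2.symm⟩

/-- a vertex with darts of both sides is on the cycle -/
theorem mem_of_both [Finite V] (hOffV : StOffV) (hs : Side R m v y) {w : V} {d d' : G.Dart}
    (hd : d.fst = w) (hd' : d'.fst = w) (h0 : y d = 0) (h1 : y d' ≠ 0) : w ∈ Set.range v := by
  by_contra hw
  have h := hOffV V G R m v y hs w hw d d' hd hd'
  rw [h0] at h
  exact h1 h.symm

theorem not_out {w : V} (h : ¬ Out y w) : ∃ d : G.Dart, d.fst = w ∧ y d ≠ 0 := by
  unfold Out at h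
  push Not at h
  exact h

/-- neighbours of a vertex inside are not outside -/
theorem nout_of_adj (hs : Side R m v y) (hc : Cyc G m v) {a b : V} (hb : Int y b)
    (hab : G.Adj a b) : y ⟨(a, b), hab⟩ = 1 := by
  have hbv : b ∉ Set.range v := by
    rintro ⟨j, rfl⟩
    exact range_not_int hs hc j hb
  have h1 := off_of hs ⟨(b, a), hab.symm⟩ (Or.inl hbv)
  have h2 : y ⟨(b, a), hab.symm⟩ = 1 := hb _ rfl
  exact h1.trans h2

/-- edges between vertices which are not outside lie in the disc -/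
theorem edge [Finite V] (hOffV : StOffV) (hChord : StChord) (hG : TF G) (hD : Disc0 R m v y)
    {p q : V} (hp : ¬ Out y p) (hq : ¬ Out y q) (d : G.Dart) (hd : d.toProd = (p, q)) :
    y d = 1 ∨ y d.symm = 1 := by
  have e1 : d.fst = p := congrArg Prod.fst hd
  have e2 : d.symm.fst = q := congrArg Prod.snd hd
  rcases z2 (y d) with h1 | h1
  swap
  · exact Or.inl h1
  rcases z2 (y d.symm) with h2 | h2
  swap
  · exact Or.inr h2
  obtain ⟨d1, hd1, hy1⟩ := not_out hp
  obtain ⟨d2, hd2, hy2⟩ := not_out hq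
  obtain ⟨i, hi⟩ := mem_of_both hOffV hD.side e1 hd1 h1 hy1
  obtain ⟨j, hj⟩ := mem_of_both hOffV hD.side e2 hd2 h2 hy2
  have hadj : G.Adj (v i) (v j) := by
    rw [hi, hj, ← e1, ← e2]
    exact d.adj
  rcases hChord V G m v hG hD.len hD.cyc i j hadj with h | h
  · right
    refine hD.side.on1 d.symm i ?_
    rw [← h, hi, hj, SimpleGraph.Dart.symm_toProd, hd]
    rfl
  · left
    refine hD.side.on1 d j ?_
    rw [← h, hi, hj, hd]

theorem facial [Finite V] (hOffV : StOffV) (hChord : StChord) (hG : TF G) (hD : Disc0 R m v y)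
    (m' : ℕ) (v' : ZMod m' → V) (hm : m' = 4 ∨ m' = 5) (hc : Cyc G m' v')
    (hno : ∀ j, ¬ Out y (v' j)) (k : ZMod m') (hk : Int y (v' k)) : FacialIn R y m' v' := by
  rcases hD.short m' v' hm hc (fun d j hd => edge hOffV hChord hG hD (hno j) (hno (j + 1)) d hd)
    with h | h
  · exfalso
    have h1 : v' k ∈ Set.range v := by
      rw [← h]
      exact ⟨k, rfl⟩
    obtain ⟨j, hj⟩ := h1
    rw [← hj] at hk
    exact range_not_int hD.side hD.cyc j hk
  · exact h

theorem face4_of (R : Rot G) (u : ZMod 4 → V) (ha : G.Adj (u 0) (u 1))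
    (h : ∀ (d : G.Dart) (j : ZMod 4), d.toProd = (u j, u (j + 1)) →
      (R.φ d).toProd = (u (j + 1), u (j + 1 + 1))) : Face4 R (u 0) (u 1) (u 2) (u 3) := by
  have h1 := h ⟨(u 0, u 1), ha⟩ 0 rfl
  have h2 := h _ _ h1
  have h3 := h _ _ h2
  have h4 := h _ _ h3
  exact ⟨⟨(u 0, u 1), ha⟩, rfl, h1, h2, h3, SimpleGraph.Dart.ext _ _ h4⟩

theorem face5_of (R : Rot G) (u : ZMod 5 → V) (ha : G.Adj (u 0) (u 1))
    (h : ∀ (d : G.Dart) (j : ZMod 5), d.toProd = (u j, u (j + 1)) →
      (R.φ d).toProd = (u (j + 1), u (j + 1 + 1))) :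
    Face5 R (u 0) (u 1) (u 2) (u 3) (u 4) := by
  have h1 := h ⟨(u 0, u 1), ha⟩ 0 rfl
  have h2 := h _ _ h1
  have h3 := h _ _ h2
  have h4 := h _ _ h3
  have h5 := h _ _ h4
  exact ⟨⟨(u 0, u 1), ha⟩, rfl, h1, h2, h3, h4, SimpleGraph.Dart.ext _ _ h5⟩

/-- the second alternative of `FacialIn` for the reversed cycle -/
theorem rev_of {m' : ℕ} (v' : ZMod m' → V)
    (h : ∀ (d : G.Dart) (j : ZMod m'), d.toProd = (v' (j + 1), v' j) →
      y d = 1 ∧ (R.φ d).toProd = (v' j, v' (j - 1))) :
    ∀ (d : G.Dart) (j : ZMod m'), d.toProd = (v' (2 - j), v' (2 - (j + 1))) →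
      (R.φ d).toProd = (v' (2 - (j + 1)), v' (2 - (j + 1 + 1))) := by
  intro d j hd
  have e1 : (2 : ZMod m') - j = 1 - j + 1 := by ring
  have e2 : (2 : ZMod m') - (j + 1) = 1 - j := by ring
  have e3 : (2 : ZMod m') - (j + 1 + 1) = 1 - j - 1 := by ring
  rw [e1, e2] at hd
  rw [e2, e3]
  exact (h d (1 - j) hd).2

theorem main (hOne : StOne) (hChord : StChord) (hOffV : StOffV) : StCor4 := by
  intro V _ G hM R m v y hD a b c e hb hab hbc hce hea hac hbe
  have ya := nout_of_adj hD.side hD.cyc hb hab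
  have yc := nout_of_adj hD.side hD.cyc hb hbc.symm
  have hna : ¬ Out y a := fun h => by
    have := h _ (rfl : (⟨(a, b), hab⟩ : G.Dart).fst = a)
    rw [ya] at this
    exact one_ne_zero this
  have hnc : ¬ Out y c := fun h => by
    have := h _ (rfl : (⟨(c, b), hbc.symm⟩ : G.Dart).fst = c)
    rw [yc] at this
    exact one_ne_zero this
  have hnb : ¬ Out y b := fun h => by
    have h1 := h _ (rfl : (⟨(b, a), hab.symm⟩ : G.Dart).fst = b)
    have h2 := hb _ (rfl : (⟨(b, a), hab.symm⟩ : G.Dart).fst = b)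
    rw [h1] at h2
    exact zero_ne_one h2
  have hne : ¬ Out y e := by
    intro h
    apply hac
    have hev : e ∉ Set.range v := by
      rintro ⟨j, rfl⟩
      exact range_not_out hD.side hD.cyc j h
    have h1 : y ⟨(a, e), hea.symm⟩ = 0 := by
      have h1 := off_of hD.side ⟨(e, a), hea⟩ (Or.inl hev)
      exact h1.trans (h _ rfl)
    have h2 : y ⟨(c, e), hce⟩ = 0 := by
      have h1 := off_of hD.side ⟨(e, c), hce.symm⟩ (Or.inl hev)
      exact h1.trans (h _ rfl)
    have h3 : a ∈ Set.range v := mem_of_both hOffV hD.side (d := ⟨(a, e), hea.symm⟩)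
      (d' := ⟨(a, b), hab⟩) rfl rfl h1 (by rw [ya]; exact one_ne_zero)
    have h4 : c ∈ Set.range v := mem_of_both hOffV hD.side (d := ⟨(c, e), hce⟩)
      (d' := ⟨(c, b), hbc.symm⟩) rfl rfl h2 (by rw [yc]; exact one_ne_zero)
    exact hOne V G hM R m v y hD b hb a h3 c h4 hab.symm hbc
  let v' : ZMod 4 → V := ![a, b, c, e]
  have hcyc : Cyc G 4 v' := by
    refine ⟨?_, ?_⟩
    · have h1 := hab.ne
      have h2 := hbc.ne
      have h3 := hce.ne
      have h4 := hea.ne
      intro i j hij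
      change Fin 4 at i j
      fin_cases i <;> fin_cases j <;> first | rfl | (exfalso; simp [v'] at hij; tauto)
    · intro j
      change Fin 4 at j
      fin_cases j
      · exact hab
      · exact hbc
      · exact hce
      · exact hea
  have hno : ∀ j, ¬ Out y (v' j) := by
    intro j
    change Fin 4 at j
    fin_cases j
    · exact hna
    · exact hnb
    · exact hnc
    · exact hne
  rcases facial hOffV hChord hM.tf hD 4 v' (Or.inl rfl) hcyc hno 1 hb with h | h
  · left
    exact face4_of R v' hab (fun d j hd => (h d j hd).2)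
  · right
    have e0 : (2 : ZMod 4) - 0 = 2 := by decide
    have e1 : (2 : ZMod 4) - 1 = 1 := by decide
    have e2 : (2 : ZMod 4) - 2 = 0 := by decide
    have e3 : (2 : ZMod 4) - 3 = 3 := by decide
    have h1 := face4_of R (fun j => v' (2 - j)) (by
      simp only [e0, e1]
      exact hbc.symm) (rev_of v' h)
    simp only [e0, e1, e2, e3] at h1
    exact h1

/-- the closed walk `a b c e f` of length five through `b` inside, with no vertex outside -/
theorem core5 [Finite V] (hChord : StChord) (hOffV : StOffV) (hG : TF G) (hD : Disc0 R m v y)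
    {a b c e f : V} (hb : Int y b) (hab : G.Adj a b) (hbc : G.Adj b c) (hce : G.Adj c e)
    (hef : G.Adj e f) (hfa : G.Adj f a) (hna : ¬ Out y a) (hnb : ¬ Out y b) (hnc : ¬ Out y c)
    (hne : ¬ Out y e) (hnf : ¬ Out y f) : Face5 R a b c e f ∨ Face5 R c b a f e := by
  let v' : ZMod 5 → V := ![a, b, c, e, f]
  have hcyc : Cyc G 5 v' := by
    refine ⟨?_, ?_⟩
    · have h1 := hab.ne
      have h2 := hbc.ne
      have h3 := hce.ne
      have h4 := hef.ne
      have h5 := hfa.ne
      have h6 : a ≠ c := by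
        rintro rfl
        exact hG _ _ _ hce hef hfa.symm
      have h7 : a ≠ e := by
        rintro rfl
        exact hG _ _ _ hab hbc hce.symm
      have h8 : b ≠ e := by
        rintro rfl
        exact hG _ _ _ hef hfa hab.symm
      have h9 : b ≠ f := by
        rintro rfl
        exact hG _ _ _ hbc hce hef.symm
      have h10 : c ≠ f := by
        rintro rfl
        exact hG _ _ _ hfa hab hbc.symm
      intro i j hij
      change Fin 5 at i j
      fin_cases i <;> fin_cases j <;> first | rfl | (exfalso; simp [v'] at hij; tauto)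
    · intro j
      change Fin 5 at j
      fin_cases j
      · exact hab
      · exact hbc
      · exact hce
      · exact hef
      · exact hfa
  have hno : ∀ j, ¬ Out y (v' j) := by
    intro j
    change Fin 5 at j
    fin_cases j
    · exact hna
    · exact hnb
    · exact hnc
    · exact hne
    · exact hnf
  rcases facial hOffV hChord hG hD 5 v' (Or.inr rfl) hcyc hno 1 hb with h | h
  · left
    exact face5_of R v' hab (fun d j hd => (h d j hd).2)
  · right
    have e0 : (2 : ZMod 5) - 0 = 2 := by decide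
    have e1 : (2 : ZMod 5) - 1 = 1 := by decide
    have e2 : (2 : ZMod 5) - 2 = 0 := by decide
    have e3 : (2 : ZMod 5) - 3 = 4 := by decide
    have e4 : (2 : ZMod 5) - 4 = 3 := by decide
    have h1 := face5_of R (fun j => v' (2 - j)) (by
      simp only [e0, e1]
      exact hbc.symm) (rev_of v' h)
    simp only [e0, e1, e2, e3, e4] at h1
    exact h1

/-- two different non-adjacent vertices of a short cycle have a common neighbour on it -/
theorem between (hm : m = 4 ∨ m = 5) (hc : Cyc G m v) {i j : ZMod m} (hij : v i ≠ v j)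
    (hadj : ¬ G.Adj (v i) (v j)) : ∃ k, G.Adj (v i) (v k) ∧ G.Adj (v k) (v j) := by
  have h1 : i ≠ j := fun h => hij (by rw [h])
  have h2 : j ≠ i + 1 := fun h => hadj (by rw [h]; exact hc.adj i)
  have h3 : i ≠ j + 1 := fun h => hadj (by rw [h]; exact (hc.adj j).symm)
  have h4 : j = i + 1 + 1 ∨ i = j + 1 + 1 := by
    clear hij hadj hc
    rcases hm with rfl | rfl
    · revert h1 h2 h3
      revert i j
      decide
    · revert h1 h2 h3
      revert i j
      decide
  rcases h4 with h4 | h4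
  · refine ⟨i + 1, hc.adj i, ?_⟩
    rw [h4]
    exact hc.adj (i + 1)
  · refine ⟨j + 1, ?_, (hc.adj j).symm⟩
    rw [h4]
    exact (hc.adj (j + 1)).symm

theorem out_case (hOne : StOne) (hChord : StChord) (hOffV : StOffV) {V : Type} [Fintype V]
    {G : SimpleGraph V} (hM : MinC G) {R : Rot G} {m : ℕ} {v : ZMod m → V}
    {y : G.Dart → ZMod 2} (hD : Disc0 R m v y) {a b c e f : V} (hb : Int y b)
    (hab : G.Adj a b) (hbc : G.Adj b c) (hce : G.Adj c e) (hef : G.Adj e f) (hfa : G.Adj f a)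
    (hac : a ≠ c) (he : Out y e) :
    ∃ e' ∈ Set.range v, Face5 R a b c e' f ∨ Face5 R c b a f e' := by
  have ya := nout_of_adj hD.side hD.cyc hb hab
  have yc := nout_of_adj hD.side hD.cyc hb hbc.symm
  have hna : ¬ Out y a := fun h => by
    have := h _ (rfl : (⟨(a, b), hab⟩ : G.Dart).fst = a)
    rw [ya] at this
    exact one_ne_zero this
  have hnc : ¬ Out y c := fun h => by
    have := h _ (rfl : (⟨(c, b), hbc.symm⟩ : G.Dart).fst = c)
    rw [yc] at this
    exact one_ne_zero this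
  have hnb : ¬ Out y b := fun h => by
    have h1 := h _ (rfl : (⟨(b, a), hab.symm⟩ : G.Dart).fst = b)
    have h2 := hb _ (rfl : (⟨(b, a), hab.symm⟩ : G.Dart).fst = b)
    rw [h1] at h2
    exact zero_ne_one h2
  have hout : ∀ {p q : V} (hpq : G.Adj p q), Out y q → y ⟨(p, q), hpq⟩ = 0 := by
    intro p q hpq hq
    have hqv : q ∉ Set.range v := by
      rintro ⟨j, rfl⟩
      exact range_not_out hD.side hD.cyc j hq
    have h1 := off_of hD.side ⟨(q, p), hpq.symm⟩ (Or.inl hqv)
    exact h1.trans (hq _ rfl)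
  have hcv : c ∈ Set.range v := mem_of_both hOffV hD.side (d := ⟨(c, e), hce⟩)
    (d' := ⟨(c, b), hbc.symm⟩) rfl rfl (hout hce he) (by rw [yc]; exact one_ne_zero)
  have hnf : ¬ Out y f := by
    intro h
    apply hac
    have h3 : a ∈ Set.range v := mem_of_both hOffV hD.side (d := ⟨(a, f), hfa.symm⟩)
      (d' := ⟨(a, b), hab⟩) rfl rfl (hout hfa.symm h) (by rw [ya]; exact one_ne_zero)
    exact hOne V G hM R m v y hD b hb a h3 c hcv hab.symm hbc
  obtain ⟨d1, hd1, hy1⟩ := not_out hnf
  have hfv : f ∈ Set.range v := mem_of_both hOffV hD.side (d := ⟨(f, e), hef.symm⟩) rfl hd1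
    (hout hef.symm he) hy1
  obtain ⟨i, rfl⟩ := hcv
  obtain ⟨j, rfl⟩ := hfv
  have hij : v i ≠ v j := by
    intro h
    rw [h] at hbc
    exact hM.tf _ _ _ hfa hab hbc.symm
  obtain ⟨k, hk1, hk2⟩ := between hD.len hD.cyc hij (fun h => hM.tf _ _ _ hce hef h)
  exact ⟨v k, ⟨k, rfl⟩, core5 hChord hOffV hM.tf hD hb hab hbc hk1 hk2 hfa hna hnb hnc
    (range_not_out hD.side hD.cyc k) hnf⟩

theorem main5 (hOne : StOne) (hChord : StChord) (hOffV : StOffV) : StCor5 := by
  intro V _ G hM R m v y hD a b c e f hb hab hbc hce hef hfa hac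
  by_cases he : Out y e
  · obtain ⟨e', h1, h2⟩ := out_case hOne hChord hOffV hM hD hb hab hbc hce hef hfa hac he
    exact ⟨e', f, Or.inr ⟨he, h1⟩, Or.inl rfl, Or.inr rfl, h2⟩
  by_cases hf : Out y f
  · obtain ⟨f', h1, h2⟩ := out_case hOne hChord hOffV hM hD hb hbc.symm hab.symm hfa.symm
      hef.symm hce.symm hac.symm hf
    exact ⟨e, f', Or.inl rfl, Or.inr ⟨hf, h1⟩, Or.inl rfl, h2.symm⟩
  have ya := nout_of_adj hD.side hD.cyc hb hab
  have yc := nout_of_adj hD.side hD.cyc hb hbc.symm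
  have hna : ¬ Out y a := fun h => by
    have := h _ (rfl : (⟨(a, b), hab⟩ : G.Dart).fst = a)
    rw [ya] at this
    exact one_ne_zero this
  have hnc : ¬ Out y c := fun h => by
    have := h _ (rfl : (⟨(c, b), hbc.symm⟩ : G.Dart).fst = c)
    rw [yc] at this
    exact one_ne_zero this
  have hnb : ¬ Out y b := fun h => by
    have h1 := h _ (rfl : (⟨(b, a), hab.symm⟩ : G.Dart).fst = b)
    have h2 := hb _ (rfl : (⟨(b, a), hab.symm⟩ : G.Dart).fst = b)
    rw [h1] at h2
    exact zero_ne_one h2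
  exact ⟨e, f, Or.inl rfl, Or.inl rfl, Or.inl rfl,
    core5 hChord hOffV hM.tf hD hb hab hbc hce hef hfa hna hnb hnc he hf⟩

end Pool.Agent.Helper35.PM.D_COR
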