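import Pool.Agent.Helper35.PM.St2

set_option autoImplicit false

namespace Pool.Agent.Helper35.PM.D_DEG

theorem lift_forest {V : Type} (G : SimpleGraph V) (v : V) (I' : Set {w : V // w ≠ v})
    (hF : Forest (G.induce {w : V | w ≠ v}) I'ᶜ) (S : Set V) (hvS : v ∉ S)
    (hS : ∀ w ∈ S, ∀ h : w ≠ v, (⟨w, h⟩ : {w : V // w ≠ v}) ∉ I') (hne : S.Nonempty) :
    ∃ a ∈ S, ∀ b ∈ S, ∀ c ∈ S, G.Adj a b → G.Adj a c → b = c := by
  obtain ⟨x, hx⟩ := hne
  have hn : ∀ w ∈ S, w ≠ v := fun w hw h => hvS (h ▸ hw)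
  obtain ⟨a, ha, hab⟩ := hF {w | w.1 ∈ S} (fun w hw => hS w.1 hw w.2) ⟨⟨x, hn x hx⟩, hx⟩
  refine ⟨a.1, ha, fun b hb c hc h1 h2 => ?_⟩
  have := hab ⟨b, hn b hb⟩ hb ⟨c, hn c hc⟩ hc h1 h2
  exact congrArg Subtype.val this

theorem main : StDeg := by
  classical
  intro V _ G hG v a b
  by_contra hcon
  push Not at hcon
  have hcard : Fintype.card {w : V // w ≠ v} < Fintype.card V :=
    Fintype.card_subtype_lt (x := v) (by simp)
  have hpl : Planar (G.induce {w : V | w ≠ v}) :=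
    hG.planar.sub Subtype.val Subtype.val_injective (fun _ _ h => h)
  have htf : TF (G.induce {w : V | w ≠ v}) := fun x y z h1 h2 h3 => hG.tf x.1 y.1 z.1 h1 h2 h3
  obtain ⟨I', hI', hF⟩ := hG.small {w : V // w ≠ v} (G.induce {w : V | w ≠ v}) hcard hpl htf
  apply hG.nnb
  have hmem : ∀ w ∈ Subtype.val '' I', w ≠ v := by
    rintro w ⟨x, -, rfl⟩
    exact x.2
  have hnot : ∀ w, w ∉ Subtype.val '' I' → ∀ h : w ≠ v, (⟨w, h⟩ : {w : V // w ≠ v}) ∉ I' :=
    fun w hw h hw' => hw ⟨_, hw', rfl⟩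
  have hind : ∀ x ∈ Subtype.val '' I', ∀ y ∈ Subtype.val '' I', ¬ G.Adj x y := by
    rintro _ ⟨x, hx, rfl⟩ _ ⟨y, hy, rfl⟩ h
    exact hI' x hx y hy h
  by_cases hv : ∃ x ∈ Subtype.val '' I', G.Adj v x
  · obtain ⟨x, hx, hvx⟩ := hv
    refine ⟨Subtype.val '' I', hind, ?_⟩
    intro S hS hne
    by_cases hvS : v ∈ S
    · refine ⟨v, hvS, fun b' hb' c' hc' h1 h2 => ?_⟩
      have hb'x : b' ≠ x := fun h => hS hb' (h ▸ hx)
      have hc'x : c' ≠ x := fun h => hS hc' (h ▸ hx)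
      by_cases hxa : x = a
      · rw [hcon b' h1 (fun h => hb'x (h.trans hxa.symm)),
          hcon c' h2 (fun h => hc'x (h.trans hxa.symm))]
      · have hxb := hcon x hvx hxa
        have h3 : b' = a := by
          by_contra h
          exact hb'x ((hcon b' h1 h).trans hxb.symm)
        have h4 : c' = a := by
          by_contra h
          exact hc'x ((hcon c' h2 h).trans hxb.symm)
        rw [h3, h4]
    · exact lift_forest G v I' hF S hvS (fun w hw h => hnot w (hS hw) h) hne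
  · push Not at hv
    refine ⟨insert v (Subtype.val '' I'), ?_, ?_⟩
    · rintro x (rfl | hx) y (rfl | hy) h
      · exact h.ne rfl
      · exact hv y hy h
      · exact hv x hx h.symm
      · exact hind x hx y hy h
    · intro S hS hne
      exact lift_forest G v I' hF S (fun h => hS h (Or.inl rfl))
        (fun w hw h => hnot w (fun hw' => hS hw (Or.inr hw')) h) hne

end Pool.Agent.Helper35.PM.D_DEG
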