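import Pool.Agent.Helper35.PM.St2

/-!
# Module EMPTY: a side of a short cycle without vertices is a face
-/

set_option autoImplicit false

namespace Pool.Agent.Helper35.PM.D_EMPTY

open Equiv Equiv.Perm

theorem main (hChord : StChord) (hOffV : StOffV) : StEmpty := by
  intro V _ G R m v y htf hm hc hs hno
  have hmem : ∀ d : G.Dart, y d = 1 → d.fst ∈ Set.range v := by
    intro d hd
    by_contra hnot
    apply hno d.fst
    intro e he
    rw [hOffV V G R m v y hs d.fst hnot e d he rfl]
    exact hd
  have h1 : ∀ d : G.Dart, y d = 1 → ∃ j, d.toProd = (v (j + 1), v j) := by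
    intro d hd
    by_contra hcon
    push Not at hcon
    have hoff : ∀ j, d.toProd ≠ (v j, v (j + 1)) ∧ d.toProd ≠ (v (j + 1), v j) := by
      intro j
      refine ⟨?_, hcon j⟩
      intro h
      have := hs.on0 d j h
      rw [hd] at this
      exact absurd this (by decide)
    have h2 := (hs.off d hoff).1
    obtain ⟨i, hi⟩ := hmem d hd
    obtain ⟨j, hj⟩ := hmem d.symm (by rw [h2]; exact hd)
    have hj' : v j = d.snd := hj
    have hadj : G.Adj (v i) (v j) := by
      rw [hi, hj']
      exact d.adj
    have hprod : d.toProd = (v i, v j) := by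
      rw [hi, hj']
    rcases hChord V G m v htf hm hc i j hadj with h | h
    · rw [h] at hprod
      exact (hoff i).1 hprod
    · rw [h] at hprod
      exact (hoff j).2 hprod
  refine ⟨h1, ?_⟩
  intro d j hd
  have h2 : y (R.φ d) = 1 := by
    rw [hs.face]
    exact hs.on1 d j hd
  obtain ⟨i, hi⟩ := h1 (R.φ d) h2
  have h3 : (R.φ d).fst = d.snd := R.φ_fst d
  have h4 : (R.φ d).fst = v (i + 1) := by rw [show (R.φ d).fst = (R.φ d).toProd.1 from rfl, hi]
  have h5 : d.snd = v j := by rw [show d.snd = d.toProd.2 from rfl, hd]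
  have h6 : i + 1 = j := hc.inj (by rw [← h4, h3, h5])
  rw [hi, ← h6, add_sub_cancel_right]

end Pool.Agent.Helper35.PM.D_EMPTY
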