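import Pool.Agent.Helper35.PM.St2

set_option autoImplicit false

namespace Pool.Agent.Helper35.PM.D_FIN

theorem ext_col {V : Type} (G : SimpleGraph V) (F : Set V) (hF : Forest G F)
    (L : V → Finset ℕ) (hL : ∀ v, (L v).card = 2) :
    ∀ (n : ℕ) (S : Finset V), S.card = n → (S : Set V) ⊆ F →
      ∃ c : V → ℕ, (∀ v ∈ S, c v ∈ L v) ∧ ∀ u ∈ S, ∀ v ∈ S, G.Adj u v → c u ≠ c v := by
  classical
  intro n
  induction n with
  | zero =>
    intro S hS _
    rw [Finset.card_eq_zero] at hS
    subst hS
    exact ⟨fun _ => 0, by simp, by simp⟩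
  | succ n ih =>
    intro S hS hSF
    have hne : (S : Set V).Nonempty := by
      rw [Finset.coe_nonempty, ← Finset.card_pos, hS]
      omega
    obtain ⟨a, haS, ha⟩ := hF S hSF hne
    have haS' : a ∈ S := haS
    obtain ⟨c, hc1, hc2⟩ := ih (S.erase a) (by rw [Finset.card_erase_of_mem haS', hS]; rfl)
      (fun x hx => hSF (Finset.mem_of_mem_erase (Finset.mem_coe.1 hx)))
    -- the colour to avoid
    obtain ⟨k, hk⟩ : ∃ k : ℕ, ∀ b ∈ S, G.Adj a b → c b = k := by
      by_cases h : ∃ b ∈ S, G.Adj a b
      · obtain ⟨b, hb, hab⟩ := h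
        refine ⟨c b, fun b' hb' hab' => ?_⟩
        rw [ha b' hb' b hb hab' hab]
      · push Not at h
        exact ⟨0, fun b hb hab => absurd hab (h b hb)⟩
    obtain ⟨x, hx⟩ : ((L a).erase k).Nonempty := by
      rw [← Finset.card_pos]
      have := Finset.pred_card_le_card_erase (s := L a) (a := k)
      rw [hL a] at this
      omega
    rw [Finset.mem_erase] at hx
    refine ⟨fun v => if v = a then x else c v, ?_, ?_⟩
    · intro v hv
      by_cases hva : v = a
      · simp only [hva, if_true]
        exact hx.2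
      · simp only [hva, if_false]
        exact hc1 v (Finset.mem_erase.2 ⟨hva, hv⟩)
    · intro u hu v hv huv
      by_cases hua : u = a
      · have hva : v ≠ a := fun h => huv.ne (hua.trans h.symm)
        simp only [hua, hva, if_true, if_false]
        rw [hk v hv (hua ▸ huv)]
        exact hx.1
      · by_cases hva : v = a
        · simp only [hua, hva, if_true, if_false]
          rw [hk u hu (hva ▸ huv.symm)]
          exact fun h => hx.1 h.symm
        · simp only [hua, hva, if_false]
          exact hc2 u (Finset.mem_erase.2 ⟨hua, hu⟩) v (Finset.mem_erase.2 ⟨hva, hv⟩) huv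

theorem main : StFin := by
  classical
  rintro V _ G ⟨I, hI, hF⟩ L A hL
  obtain ⟨c, hc1, hc2⟩ := ext_col G Iᶜ hF (fun v => L v \ A) (fun v => (hL v).2)
    (Finset.univ.filter fun v => v ∉ I).card (Finset.univ.filter fun v => v ∉ I) rfl
    (fun v hv => by simpa using hv)
  have hc1' : ∀ v, v ∉ I → c v ∈ L v \ A := fun v hv => hc1 v (by simpa using hv)
  have hc2' : ∀ u v, u ∉ I → v ∉ I → G.Adj u v → c u ≠ c v := fun u v hu hv =>
    hc2 u (by simpa using hu) v (by simpa using hv)
  have hx : ∀ v, ∃ x, x ∈ L v ∩ A := fun v => by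
    have : 0 < (L v ∩ A).card := by rw [(hL v).1]; exact one_pos
    exact Finset.card_pos.1 this
  choose x hx using hx
  refine ⟨fun v => if v ∈ I then x v else c v, ?_, ?_⟩
  · intro v
    by_cases hv : v ∈ I
    · simp only [hv, if_true]
      exact (Finset.mem_inter.1 (hx v)).1
    · simp only [hv, if_false]
      exact (Finset.mem_sdiff.1 (hc1' v hv)).1
  · intro u v huv
    by_cases hu : u ∈ I
    · by_cases hv : v ∈ I
      · exact absurd huv (hI u hu v hv)
      · simp only [hu, hv, if_true, if_false]
        intro h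
        exact (Finset.mem_sdiff.1 (hc1' v hv)).2 (h ▸ (Finset.mem_inter.1 (hx u)).2)
    · by_cases hv : v ∈ I
      · simp only [hu, hv, if_true, if_false]
        intro h
        exact (Finset.mem_sdiff.1 (hc1' u hu)).2 (h ▸ (Finset.mem_inter.1 (hx v)).2)
      · simp only [hu, hv, if_false]
        exact hc2' u v hu hv huv

end Pool.Agent.Helper35.PM.D_FIN
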