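import Pool.Agent.Helper35.PM.St2
import Pool.Agent.Helper35.PM.M_CUTV

/-!
# Minimal counterexamples: a face visits every vertex at most once
-/

set_option autoImplicit false

namespace Pool.Agent.Helper35.PM.D_FINJ

open Equiv Equiv.Perm

theorem main (hDeg : StDeg) (hNoCut : StNoCut) : StFaceInj := by
  classical
  have _ := hDeg
  intro V _ G hG R d d' hf hv
  by_contra hne
  obtain ⟨c, hc1, hc2, hc3⟩ := M_CUTV.main V G.Dart R.map d d' hne hv hf
  -- the colouring is constant around the vertices different from `d.fst`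
  have key : ∀ e f : G.Dart, e.fst = f.fst → e.fst ≠ d.fst → c e = c f := by
    intro e f hef he
    obtain ⟨k, hk⟩ := (R.trans e f hef).exists_nat_pow_eq
    have h1 : ∀ n : ℕ, ((R.r ^ n) e).fst = e.fst ∧ c ((R.r ^ n) e) = c e := by
      intro n
      induction n with
      | zero => exact ⟨rfl, rfl⟩
      | succ n ih =>
        rw [pow_succ', Perm.mul_apply]
        refine ⟨by rw [R.fst_r, ih.1], ?_⟩
        have h2 : c (R.map.r ((R.r ^ n) e)) = c ((R.r ^ n) e) := by
          apply hc2
          rw [Rot.map_t, Rot.map_t, ih.1]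
          exact he
        rw [Rot.map_r] at h2
        rw [h2, ih.2]
    rw [← hk, (h1 k).2]
  have hsymm : ∀ e : G.Dart, c e.symm = c e := fun e => hc1 e
  have hd : d.snd ≠ d.fst := d.adj.ne'
  have hd' : d'.snd ≠ d.fst := by
    rw [hv]
    exact d'.adj.ne'
  have h := hNoCut V G hG d.fst {w | w ≠ d.fst ∧ ∃ e : G.Dart, e.fst = w ∧ c e = c d}
    (fun h => h.1 rfl) (by
      rintro a b ⟨ha, e, he, hce⟩ hb hab
      by_contra hbv
      apply hb
      refine ⟨hbv, (⟨(a, b), hab⟩ : G.Dart).symm, rfl, ?_⟩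
      rw [hsymm, ← hce]
      refine key _ _ ?_ ha
      exact he.symm)
    ⟨d.snd, hd, d.symm, rfl, hsymm d⟩ d'.snd hd'
  obtain ⟨_, e, he, hce⟩ := h
  apply hc3
  rw [← hce, ← hsymm d']
  refine key _ _ he ?_
  rw [he]
  exact hd'

end Pool.Agent.Helper35.PM.D_FINJ
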