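import Pool.Agent.Helper35.PM.St2

/-!
# Minimal counterexamples: there is a short cycle with a vertex inside
-/

set_option autoImplicit false

namespace Pool.Agent.Helper35.PM.D_FIRST

open Equiv Equiv.Perm

theorem main (hShort : StShortFace) (hFinj : StFaceInj) (hFlen : StFaceLen) (hDeg : StDeg)
    (hChord : StChord) : StFirst := by
  classical
  intro V _ G hG R
  obtain ⟨d0, hd0⟩ := hShort V G hG R
  have hd4 := hFlen V G hG R d0
  obtain ⟨m, hm⟩ : ∃ m, Function.minimalPeriod R.φ d0 = m := ⟨_, rfl⟩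
  have hm45 : m = 4 ∨ m = 5 := by omega
  have hNZ : NeZero m := ⟨by omega⟩
  obtain ⟨k, hkdef⟩ : ∃ k : ZMod m → G.Dart, ∀ j, k j = (R.φ ^ j.val) d0 := ⟨_, fun _ => rfl⟩
  have hkn : ∀ n : ℕ, k (n : ZMod m) = (R.φ ^ n) d0 := by
    intro n
    rw [hkdef, ZMod.val_natCast, ← Equiv.Perm.iterate_eq_pow, ← Equiv.Perm.iterate_eq_pow, ← hm]
    exact Function.iterate_mod_minimalPeriod_eq
  have hk : ∀ j, R.φ (k j) = k (j + 1) := by
    intro j
    have h1 : j + 1 = ((j.val + 1 : ℕ) : ZMod m) := by
      rw [Nat.cast_add, ZMod.natCast_zmod_val, Nat.cast_one]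
    rw [h1, hkn, pow_succ', Perm.mul_apply, hkdef]
  have hks : ∀ j, (k j).snd = (k (j + 1)).fst := by
    intro j
    rw [← hk, R.φ_fst]
  have hcyc : ∀ j, R.φ.SameCycle d0 (k j) := by
    intro j
    rw [hkdef]
    exact ⟨(j.val : ℤ), by rw [zpow_natCast]⟩
  have hex : ∀ d, R.φ.SameCycle d0 d → ∃ j, d = k j := by
    intro d hd
    obtain ⟨n, hn⟩ := hd.exists_nat_pow_eq
    exact ⟨(n : ZMod m), by rw [hkn, hn]⟩
  have hkinj : ∀ i j, k i = k j → i = j := by
    intro i j hij
    rw [hkdef, hkdef, ← Equiv.Perm.iterate_eq_pow, ← Equiv.Perm.iterate_eq_pow] at hij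
    have hi : i.val < Function.minimalPeriod R.φ d0 := by rw [hm]; exact ZMod.val_lt i
    have hj : j.val < Function.minimalPeriod R.φ d0 := by rw [hm]; exact ZMod.val_lt j
    have h1 := (Function.iterate_eq_iterate_iff_of_lt_minimalPeriod hi hj).1 hij
    exact ZMod.val_injective m h1
  have hvinj : ∀ i j, (k i).fst = (k j).fst → i = j := by
    intro i j hij
    exact hkinj i j (hFinj V G hG R (k i) (k j) ((hcyc i).symm.trans (hcyc j)) hij)
  have hprod : ∀ j, (k j).toProd = ((k j).fst, (k (j + 1)).fst) := by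
    intro j
    rw [← hks]
  have htwo : ∀ j : ZMod m, j + 1 + 1 ≠ j := by
    intro j h
    have h2 : (2 : ZMod m) = 0 := by
      have : j + 2 = j + 0 := by rw [add_zero]; rw [← one_add_one_eq_two, ← add_assoc]; exact h
      exact add_left_cancel this
    rcases hm45 with rfl | rfl
    · revert h2; decide
    · revert h2; decide
  have hC : Cyc G m (fun j => (k j).fst) := by
    refine ⟨fun i j hij => hvinj i j hij, fun j => ?_⟩
    have h1 := (k j).adj
    rw [hks] at h1
    exact h1
  have hoff : ∀ (d : G.Dart), (∀ j : ZMod m, d.toProd ≠ ((k j).fst, (k (j + 1)).fst)) →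
      ¬ R.φ.SameCycle d0 d := by
    intro d hd hs
    obtain ⟨j, rfl⟩ := hex d hs
    exact hd j (hprod j)
  refine ⟨m, fun j => (k j).fst, fun d => if R.φ.SameCycle d0 d then 0 else 1, hm45, hC, ?_, ?_⟩
  · refine ⟨?_, ?_, ?_, ?_⟩
    · intro d
      simp only [Equiv.Perm.sameCycle_apply_right]
    · intro d hd
      have h1 : ¬ R.φ.SameCycle d0 d := hoff d (fun j => (hd j).1)
      have h2 : ¬ R.φ.SameCycle d0 d.symm := by
        apply hoff
        intro j h
        apply (hd j).2
        have h3 : d.symm.toProd.swap = ((k j).fst, (k (j + 1)).fst).swap := by rw [h]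
        exact h3
      have h3 : ¬ R.φ.SameCycle d0 (R.r d) := by
        have h4 : R.r d = R.φ d.symm := by
          rw [R.φ_apply, SimpleGraph.Dart.symm_symm]
        rw [h4, Equiv.Perm.sameCycle_apply_right]
        exact h2
      simp only [if_neg h1, if_neg h2, if_neg h3, and_self]
    · intro d j hd
      have h1 : d = k j := SimpleGraph.Dart.ext _ _ (by rw [hd, hprod])
      have h2 : R.φ.SameCycle d0 d := by rw [h1]; exact hcyc j
      simp only [if_pos h2]
    · intro d j hd
      have h2 : ¬ R.φ.SameCycle d0 d := by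
        intro hs
        obtain ⟨i, rfl⟩ := hex d hs
        rw [hprod] at hd
        have h3 : i = j + 1 := hvinj _ _ (Prod.mk.inj hd).1
        have h4 : i + 1 = j := hvinj _ _ (Prod.mk.inj hd).2
        rw [h3] at h4
        exact htwo j h4
      simp only [if_neg h2]
  · obtain ⟨c, hc1, hc2, hc3⟩ := hDeg V G hG (k 0).fst (k 1).fst (k (-1)).fst
    refine ⟨c, ?_⟩
    intro d hd
    have h2 : ¬ R.φ.SameCycle d0 d := by
      intro hs
      obtain ⟨i, rfl⟩ := hex d hs
      subst hd
      rcases hChord V G m (fun j => (k j).fst) hG.tf hm45 hC 0 i hc1 with h | h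
      · rw [zero_add] at h
        subst h
        exact hc2 rfl
      · have : i = -1 := by
          rw [eq_neg_iff_add_eq_zero]
          exact h.symm
        subst this
        exact hc3 rfl
    simp only [if_neg h2]

end Pool.Agent.Helper35.PM.D_FIRST
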