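import Pool.Agent.Helper35.PM.St2

set_option autoImplicit false

namespace Pool.Agent.Helper35.PM.D_FLEN

open Equiv Equiv.Perm

theorem main (hDeg : StDeg) : StFaceLen := by
  classical
  intro V _ G hG R d
  have hpos : 0 < Function.minimalPeriod R.φ d :=
    Function.minimalPeriod_pos_of_mem_periodicPts (R.φ.injective.mem_periodicPts d)
  have hper := Function.isPeriodicPt_minimalPeriod R.φ d
  by_contra hlt
  push Not at hlt
  generalize Function.minimalPeriod R.φ d = p at hpos hper hlt
  interval_cases p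
  · have h : R.φ d = d := hper
    have h1 := R.φ_fst d
    rw [h] at h1
    exact d.adj.ne h1
  · have h : R.φ (R.φ d) = d := hper
    have h1 := R.φ_fst d
    have h2 := R.φ_fst (R.φ d)
    rw [h] at h2
    have h3 : R.φ d = d.symm := SimpleGraph.Dart.ext _ _ (Prod.ext h1 h2.symm)
    have h4 : R.r d.symm = d.symm := by rw [← R.φ_apply, h3]
    obtain ⟨c, hc, hc1, -⟩ := hDeg V G hG d.snd d.fst d.fst
    obtain ⟨k, hk⟩ := R.trans d.symm ⟨(d.snd, c), hc⟩ rfl
    rw [zpow_apply_eq_self_of_apply_eq_self h4] at hk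
    exact hc1 (congrArg (fun e : G.Dart => e.snd) hk).symm
  · have h : R.φ (R.φ (R.φ d)) = d := hper
    have h1 := R.φ_fst d
    have h2 := R.φ_fst (R.φ d)
    have h3 := R.φ_fst (R.φ (R.φ d))
    rw [h] at h3
    refine hG.tf d.fst d.snd (R.φ d).snd d.adj ?_ ?_
    · have := (R.φ d).adj
      rwa [h1] at this
    · have := (R.φ (R.φ d)).adj
      rw [h2, ← h3] at this
      exact this.symm

end Pool.Agent.Helper35.PM.D_FLEN
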