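import Pool.Agent.Helper35.PM.St2

set_option autoImplicit false

namespace Pool.Agent.Helper35.PM.D_IDENT

open Equiv Equiv.Perm

theorem main (hMin : StMin) : StIdent := by
  classical
  intro V W _ G R d d' π H hne hsc hπ hadj
  have := Fintype.ofFinite V
  set a := R.r.symm d with ha
  set b := R.r.symm d' with hb
  have hra : R.r a = d := by rw [ha, Equiv.apply_symm_apply]
  have hrb : R.r b = d' := by rw [hb, Equiv.apply_symm_apply]
  have hta : R.map.t a = d.fst := by rw [Rot.map_t, ← R.fst_r, hra]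
  have htb : R.map.t b = d'.fst := by rw [Rot.map_t, ← R.fst_r, hrb]
  have hab : R.map.t a ≠ R.map.t b := by rw [hta, htb]; exact hne
  have h1 : R.map.φ (R.map.ι a) = d := by rw [PMap.φ_apply, R.map.inv, Rot.map_r, hra]
  have h2 : R.map.φ (R.map.ι b) = d' := by rw [PMap.φ_apply, R.map.inv, Rot.map_r, hrb]
  have hf : R.map.φ.SameCycle (R.map.ι a) (R.map.ι b) := by
    rw [← sameCycle_apply_left, ← sameCycle_apply_right, h1, h2]
    exact hsc
  have hπ' : ∀ v w, π v = π w ↔ v = w ∨
      ((v = R.map.t a ∨ v = R.map.t b) ∧ (w = R.map.t a ∨ w = R.map.t b)) := by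
    intro v w
    rw [hta, htb]
    exact hπ v w
  refine hMin _ W W G.Dart (R.map.merge a b hab hf π hπ') H (fun w => {w}) le_rfl
    (fun w => Set.singleton_nonempty w) ?_ ?_ ?_
  · intro w w' hww
    exact Set.disjoint_singleton.2 hww
  · intro w x hx y hy
    rw [Set.mem_singleton_iff.1 hx, Set.mem_singleton_iff.1 hy]
  · intro x y hxy
    obtain ⟨p, q, hp, hq, hpq⟩ := hadj x y hxy
    exact ⟨⟨(p, q), hpq⟩, hp, hq⟩

end Pool.Agent.Helper35.PM.D_IDENT
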