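import Pool.Agent.Helper35.PM.St2

/-!
# Minimal counterexamples: there is an innermost short cycle
-/

set_option autoImplicit false

namespace Pool.Agent.Helper35.PM.D_INNER

open Equiv Equiv.Perm

theorem no45 : ∀ a b c d : ZMod 5, (b = a + 1 ∨ a = b + 1) → (c = b + 1 ∨ b = c + 1) →
    (d = c + 1 ∨ c = d + 1) → (a = d + 1 ∨ d = a + 1) → a ≠ c → b ≠ d → False := by
  decide

/-- the comparison of two short cycles, one side inside the other -/
theorem core {V : Type} [Fintype V] {G : SimpleGraph V} (hG : MinC G) (R : Rot G)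
    (hEmpty : StEmpty) (hOffV : StOffV) (hChord : StChord)
    {m : ℕ} {v : ZMod m → V} {y : G.Dart → ZMod 2} (hm : m = 4 ∨ m = 5) (hC : Cyc G m v)
    (hS : Side R m v y)
    {m' : ℕ} {v' : ZMod m' → V} {y' : G.Dart → ZMod 2} (hm' : m' = 4 ∨ m' = 5)
    (hC' : Cyc G m' v') (hS' : Side R m' v' y')
    (hmin : (∃ w, Int y' w) → Nat.card {w // Int y w} ≤ Nat.card {w // Int y' w})
    (hD : InDisc y m' v') (hsub : ∀ d, y' d = 1 → y d = 1) :
    Set.range v' = Set.range v ∨ ∀ (d : G.Dart) (j : ZMod m'), d.toProd = (v' (j + 1), v' j) →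
      y d = 1 ∧ (R.φ d).toProd = (v' j, v' (j - 1)) := by
  classical
  by_cases hex : ∃ w, Int y' w
  · left
    have hmin' := hmin hex
    have hss : {w | Int y' w} ⊆ {w | Int y w} := fun w hw d hd => hsub d (hw d hd)
    have heq : {w | Int y' w} = {w | Int y w} := by
      apply Set.eq_of_subset_of_ncard_le hss
      rw [← Nat.card_coe_set_eq, ← Nat.card_coe_set_eq]
      exact hmin'
    have hnot : ∀ j, ¬ Int y (v' j) := by
      intro j h
      have h1 : Int y' (v' j) := by
        have : v' j ∈ {w | Int y w} := h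
        rw [← heq] at this
        exact this
      have h2 := h1 ⟨(v' j, v' (j + 1)), hC'.adj j⟩ rfl
      rw [hS'.on0 _ j rfl] at h2
      exact absurd h2 (by decide)
    have hrange : ∀ j, v' j ∈ Set.range v := by
      intro j
      by_contra hj
      apply hnot j
      have hoff := hS.off ⟨(v' j, v' (j + 1)), hC'.adj j⟩ (by
        intro i
        refine ⟨fun h => hj ⟨i, ?_⟩, fun h => hj ⟨i + 1, ?_⟩⟩
        · exact ((Prod.mk.inj h).1).symm
        · exact ((Prod.mk.inj h).1).symm)
      have h1 : y ⟨(v' j, v' (j + 1)), hC'.adj j⟩ = 1 := by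
        rcases hD ⟨(v' j, v' (j + 1)), hC'.adj j⟩ j rfl with h | h
        · exact h
        · rw [← hoff.1]; exact h
      intro d hd
      rw [hOffV V G R m v y hS (v' j) hj d ⟨(v' j, v' (j + 1)), hC'.adj j⟩ hd rfl]
      exact h1
    have hsubr : Set.range v' ⊆ Set.range v := by
      rintro _ ⟨j, rfl⟩
      exact hrange j
    have hNZ : NeZero m := ⟨by omega⟩
    have hNZ' : NeZero m' := ⟨by omega⟩
    have hc : (Set.range v).ncard = m := by
      rw [Set.ncard_range_of_injective hC.inj, Nat.card_zmod]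
    have hc' : (Set.range v').ncard = m' := by
      rw [Set.ncard_range_of_injective hC'.inj, Nat.card_zmod]
    have hle : m' ≤ m := by
      rw [← hc, ← hc']
      exact Set.ncard_le_ncard hsubr (Set.toFinite _)
    rcases Nat.lt_or_ge m' m with hlt | hge
    · exfalso
      have h4 : m' = 4 := by omega
      have h5 : m = 5 := by omega
      subst h4
      subst h5
      choose f hf using hrange
      have hfi : ∀ i j, f i = f j → i = j := by
        intro i j hij
        apply hC'.inj
        rw [← hf, ← hf, hij]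
      have hadj : ∀ i, f (i + 1) = f i + 1 ∨ f i = f (i + 1) + 1 := by
        intro i
        apply hChord V G 5 v hG.tf (Or.inr rfl) hC
        rw [hf, hf]
        exact hC'.adj i
      have e0 := hadj 0
      have e1 := hadj 1
      have e2 := hadj 2
      have e3 := hadj 3
      have i1 : (0 : ZMod 4) + 1 = 1 := by decide
      have i2 : (1 : ZMod 4) + 1 = 2 := by decide
      have i3 : (2 : ZMod 4) + 1 = 3 := by decide
      have i4 : (3 : ZMod 4) + 1 = 0 := by decide
      rw [i1] at e0
      rw [i2] at e1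
      rw [i3] at e2
      rw [i4] at e3
      exact no45 (f 0) (f 1) (f 2) (f 3) e0 e1 e2 e3
        (fun h => absurd (hfi _ _ h) (by decide)) (fun h => absurd (hfi _ _ h) (by decide))
    · apply Set.eq_of_subset_of_ncard_le hsubr
      rw [hc, hc']
      exact hge
  · right
    have h := hEmpty V G R m' v' y' hG.tf hm' hC' hS' (fun w hw => hex ⟨w, hw⟩)
    intro d j hd
    exact ⟨hsub d (hS'.on1 d j hd), h.2 d j hd⟩

theorem main (hFirst : StFirst) (hSide : StSide) (hRev : StRev) (hNest : StNest)
    (hEmpty : StEmpty) (hOffV : StOffV) (hChord : StChord) (hConn : StConn) : StInner := by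
  classical
  intro V _ G hG R
  have hP : ∃ n : ℕ, ∃ (m : ℕ) (v : ZMod m → V) (y : G.Dart → ZMod 2), (m = 4 ∨ m = 5) ∧
      Cyc G m v ∧ Side R m v y ∧ (∃ w, Int y w) ∧ Nat.card {w // Int y w} = n := by
    obtain ⟨m, v, y, h1, h2, h3, h4⟩ := hFirst V G hG R
    exact ⟨_, m, v, y, h1, h2, h3, h4, rfl⟩
  obtain ⟨m, v, y, hm, hC, hS, hI, hcard⟩ := Nat.find_spec hP
  have hmin : ∀ (m' : ℕ) (v' : ZMod m' → V) (y' : G.Dart → ZMod 2), (m' = 4 ∨ m' = 5) →
      Cyc G m' v' → Side R m' v' y' → (∃ w, Int y' w) →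
      Nat.card {w // Int y w} ≤ Nat.card {w // Int y' w} := by
    intro m' v' y' h1 h2 h3 h4
    rw [hcard]
    exact Nat.find_min' hP ⟨m', v', y', h1, h2, h3, h4, rfl⟩
  refine ⟨m, v, y, hm, hC, hS, hI, ?_⟩
  intro m' v' hm' hC' hD
  obtain ⟨y', hS'⟩ := hSide V G R m' v' (by omega) hC'
  rcases hNest V G R m m' v v' y y' (hConn V G hG) (by omega) (by omega) hC hC' hS hS' hD with h | h
  · rcases core hG R hEmpty hOffV hChord hm hC hS hm' hC' hS' (hmin m' v' y' hm' hC' hS') hD h
      with h1 | h1
    · exact Or.inl h1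
    · exact Or.inr (Or.inr h1)
  · obtain ⟨r1, r2⟩ := hRev V G R m' v' y'
    have hC'' := r1 hC'
    have hS'' := r2 hS'
    have hD'' : InDisc y m' (fun j => v' (-j)) := by
      intro d j hd
      have h1 : d.symm.toProd = (v' (-j - 1), v' (-j - 1 + 1)) := by
        have h2 : d.symm.toProd = d.toProd.swap := rfl
        rw [h2, hd]
        show (v' (-(j + 1)), v' (-j)) = _
        rw [sub_add_cancel, neg_add, sub_eq_add_neg]
      rcases hD d.symm (-j - 1) h1 with h3 | h3
      · exact Or.inr h3
      · rw [SimpleGraph.Dart.symm_symm] at h3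
        exact Or.inl h3
    have hsub : ∀ d, (fun d => y' d + 1) d = 1 → y d = 1 := by
      intro d hd
      apply h
      have h1 : y' d + 1 = 1 := hd
      have h2 : ∀ z : ZMod 2, z + 1 = 1 → z = 0 := by decide
      exact h2 _ h1
    have hr : Set.range (fun j : ZMod m' => v' (-j)) = Set.range v' := by
      ext w
      constructor
      · rintro ⟨j, rfl⟩
        exact ⟨-j, rfl⟩
      · rintro ⟨j, rfl⟩
        exact ⟨-j, by simp only [neg_neg]⟩
    rcases core hG R hEmpty hOffV hChord hm hC hS hm' hC'' hS''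
      (hmin m' (fun j => v' (-j)) (fun d => y' d + 1) hm' hC'' hS'') hD'' hsub with h1 | h1
    · rw [hr] at h1
      exact Or.inl h1
    · right
      left
      intro d j hd
      have h2 := h1 d (-j - 1) (by
        rw [hd]
        show (v' j, v' (j + 1)) = (v' (-(-j - 1 + 1)), v' (-(-j - 1)))
        have e1 : -(-j - 1 + 1) = j := by ring
        have e2 : -(-j - 1) = j + 1 := by ring
        rw [e1, e2])
      refine ⟨h2.1, ?_⟩
      rw [h2.2]
      show (v' (-(-j - 1)), v' (-(-j - 1 - 1))) = _
      have e2 : -(-j - 1) = j + 1 := by ring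
      have e3 : -(-j - 1 - 1) = j + 1 + 1 := by ring
      rw [e2, e3]

end Pool.Agent.Helper35.PM.D_INNER
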