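import Pool.Agent.Helper35.PM.St2

set_option autoImplicit false

namespace Pool.Agent.Helper35.PM.D_LEAF

theorem main : StLeaf := by
  intro V _ G F
  constructor
  · intro h v p hp
    set S : Set V := Subtype.val '' {x : F | x ∈ p.support} with hS
    have hSF : S ⊆ F := by
      rintro _ ⟨x, -, rfl⟩
      exact x.2
    obtain ⟨a, ⟨x, hx, rfl⟩, ha⟩ := h S hSF ⟨v.1, v, p.start_mem_support, rfl⟩
    have h2 := hp.ncard_neighborSet_toSubgraph_eq_two hx
    obtain ⟨y, z, hyz, hyz2⟩ := Set.ncard_eq_two.1 h2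
    have key : ∀ w, w ∈ ({y, z} : Set F) → w.1 ∈ S ∧ G.Adj x.1 w.1 := by
      intro w hw
      rw [← hyz2] at hw
      have hadj : p.toSubgraph.Adj x w := hw
      refine ⟨⟨w, ?_, rfl⟩, ?_⟩
      · have := p.toSubgraph.edge_vert hadj.symm
        exact (p.mem_verts_toSubgraph).1 this
      · exact p.toSubgraph.adj_sub hadj
    have hy := key y (Or.inl rfl)
    have hz := key z (Or.inr rfl)
    exact hyz (Subtype.ext (ha y.1 hy.1 z.1 hz.1 hy.2 hz.2))
  · intro h S hSF hSne
    have hS : (G.induce S).IsAcyclic :=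
      h.comap ⟨fun x => ⟨x.1, hSF x.2⟩, fun {a b} hab => hab⟩ (by
        intro a b hab
        exact Subtype.ext (congrArg (fun x : F => x.1) hab))
    have : Nonempty S := hSne.to_subtype
    obtain ⟨u, v, p, hp, hmax⟩ := SimpleGraph.Walk.exists_isPath_forall_isPath_length_le_length (G.induce S)
    refine ⟨u.1, u.2, fun b hb c hc hub huc => ?_⟩
    have key : ∀ w : S, (G.induce S).Adj u w → w = p.snd := by
      intro w hw
      refine hS.eq_snd_of_adj_start hp hw ?_
      by_contra hns
      have := hmax w v (SimpleGraph.Walk.cons hw.symm p) (hp.cons hns)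
      rw [SimpleGraph.Walk.length_cons] at this
      omega
    have h1 := key ⟨b, hb⟩ hub
    have h2 := key ⟨c, hc⟩ huc
    exact congrArg Subtype.val (h1.trans h2.symm)

end Pool.Agent.Helper35.PM.D_LEAF
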