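import Pool.Agent.Helper35.PM.St2

/-!
# Plane maps, module LONG: the faces inside an innermost short cycle have length at most five
-/

set_option autoImplicit false

namespace Pool.Agent.Helper35.PM.D_LONG

open Equiv Equiv.Perm
open Pool.Agent.Helper35.PM

/-- a vertex whose rotation has at most two darts contradicts the degree condition -/
theorem deg_contra {V : Type} {G : SimpleGraph V} (R : Rot G) {a b : G.Dart}
    (hab : R.r a = b) (hba : R.r b = a)
    (hdeg : ∀ w a b : V, ∃ c, G.Adj w c ∧ c ≠ a ∧ c ≠ b) : False := by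
  have key : ∀ k : ℤ, (R.r ^ k) a = a ∨ (R.r ^ k) a = b := by
    intro k
    induction k using Int.induction_on with
    | zero => left; simp
    | succ i ih =>
      have e : (R.r ^ ((i : ℤ) + 1)) a = R.r ((R.r ^ (i : ℤ)) a) := by
        rw [add_comm, zpow_add, zpow_one, Perm.mul_apply]
      rcases ih with h | h
      · right; rw [e, h, hab]
      · left; rw [e, h, hba]
    | pred i ih =>
      have e : (R.r ^ (-(i : ℤ) - 1)) a = R.r⁻¹ ((R.r ^ (-(i : ℤ))) a) := by
        rw [sub_eq_add_neg, add_comm, zpow_add, zpow_neg_one, Perm.mul_apply]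
      rcases ih with h | h
      · right; rw [e, h, ← hba]; simp
      · left; rw [e, h, ← hab]; simp
  obtain ⟨c, hc, hc1, hc2⟩ := hdeg a.fst a.snd b.snd
  let e : G.Dart := ⟨(a.fst, c), hc⟩
  obtain ⟨k, hk⟩ := R.trans a e rfl
  rcases key k with h | h
  · apply hc1
    rw [h] at hk
    rw [hk]
  · apply hc2
    rw [h] at hk
    rw [hk]

theorem main (hDeg : StDeg) (hFinj : StFaceInj) (hQuo : StQuo) (hIdent : StIdent)
    (hOffV : StOffV) (hCor4 : StCor4) (hCor5 : StCor5) : StLong := by
  classical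
  intro V _ G hM R m v y hD d0 hd0
  by_contra hlong
  have hp6 : 6 ≤ Function.minimalPeriod R.φ d0 := by omega
  have hdeg := hDeg V G hM
  have hfinj := hFinj V G hM R
  -- a dart of the face ending at an interior vertex
  have hyall : ∀ i : ℕ, y ((⇑R.φ)^[i] d0) = 1 := by
    intro i
    induction i with
    | zero => exact hd0
    | succ i ih => rw [Function.iterate_succ_apply', hD.side.face, ih]
  have hsame : ∀ i : ℕ, R.φ.SameCycle d0 ((⇑R.φ)^[i] d0) := by
    intro i
    refine ⟨(i : ℤ), ?_⟩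
    rw [zpow_natCast]
    exact (Equiv.Perm.iterate_eq_pow _ _ ▸ rfl)
  have hex : ∃ i : ℕ, Int y ((⇑R.φ)^[i] d0).fst := by
    by_contra hno
    push Not at hno
    have hran : ∀ i : ℕ, ((⇑R.φ)^[i] d0).fst ∈ Set.range v := by
      intro i
      by_contra hi
      apply hno i
      intro e he
      rw [hOffV V G R m v y hD.side _ hi e ((⇑R.φ)^[i] d0) he rfl]
      exact hyall i
    choose g hg using hran
    have hginj : Set.InjOn g (Set.Iio (Function.minimalPeriod R.φ d0)) := by
      intro i hi j hj hij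
      have h1 : ((⇑R.φ)^[i] d0).fst = ((⇑R.φ)^[j] d0).fst := by
        rw [← hg i, ← hg j, hij]
      have h2 := hfinj _ _ ((hsame i).symm.trans (hsame j)) h1
      exact Function.iterate_injOn_Iio_minimalPeriod hi hj h2
    have hm : m = 4 ∨ m = 5 := hD.len
    have : NeZero m := ⟨by omega⟩
    have hcard : (Finset.range (Function.minimalPeriod R.φ d0)).card ≤
        (Finset.univ : Finset (ZMod m)).card := by
      apply Finset.card_le_card_of_injOn g (fun _ _ => Finset.mem_coe.2 (Finset.mem_univ _))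
      intro i hi j hj hij
      exact hginj (by simpa using hi) (by simpa using hj) hij
    rw [Finset.card_range, Finset.card_univ, ZMod.card] at hcard
    omega
  obtain ⟨i0, hi0⟩ := hex
  -- the dart `d` with `d.snd` interior
  obtain ⟨d, hd⟩ : ∃ d, R.φ d = (⇑R.φ)^[i0] d0 := ⟨R.φ.symm ((⇑R.φ)^[i0] d0), by simp⟩
  have hdint : Int y d.snd := by
    rw [← R.φ_fst d, hd]
    exact hi0
  have hper : ∀ n : ℕ, 0 < n → n < 6 → (⇑R.φ)^[n] d ≠ d := by
    intro n hn hn6 h
    -- then `d0` has period `n`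
    have h1 : (⇑R.φ)^[n] (R.φ d) = R.φ d := by
      rw [← Function.iterate_succ_apply, Function.iterate_succ_apply', h]
    rw [hd] at h1
    have h2 : (⇑R.φ)^[i0] ((⇑R.φ)^[n] d0) = (⇑R.φ)^[i0] d0 := by
      rw [← Function.iterate_add_apply, add_comm, Function.iterate_add_apply]
      exact h1
    have h3 : (⇑R.φ)^[n] d0 = d0 := (R.φ.injective.iterate i0) h2
    have h4 : Function.minimalPeriod R.φ d0 ≤ n := Function.IsPeriodicPt.minimalPeriod_le hn h3
    omega
  have hydd : y d = 1 := by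
    rw [← hD.side.face, hd]
    exact hyall i0
  have he2f : (R.φ d).fst = d.snd := R.φ_fst d
  have hr1 : R.r d.symm = R.φ d := rfl
  obtain ⟨x1, hx1⟩ : ∃ x, x = d.fst := ⟨_, rfl⟩
  obtain ⟨x2, hx2⟩ : ∃ x, x = d.snd := ⟨_, rfl⟩
  obtain ⟨x3, hx3⟩ : ∃ x, x = (R.φ d).snd := ⟨_, rfl⟩
  have hint : Int y x2 := by rw [hx2]; exact hdint
  have h12 : G.Adj x1 x2 := by rw [hx1, hx2]; exact d.adj
  have h23 : G.Adj x2 x3 := by
    have := (R.φ d).adj
    rw [he2f] at this
    rw [hx2, hx3]
    exact this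
  -- the rotation at `x2` does not consist of two darts
  have hrot : ¬ (R.r (R.φ d) = d.symm) := fun h => deg_contra R hr1 h hdeg
  have hprodd : d.toProd = (x1, x2) := by rw [hx1, hx2]
  have hprode : (R.φ d).toProd = (x2, x3) := by
    rw [hx2, hx3, ← he2f]
  have h13 : x1 ≠ x3 := by
    intro h
    apply hrot
    have h1 : R.φ d = d.symm := by
      apply SimpleGraph.Dart.ext
      rw [hprode, SimpleGraph.Dart.symm_toProd, hprodd, h]
      rfl
    have h2 : R.r d.symm = d.symm := h1
    rw [h1, h2]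
  have hdart : ∀ d' : G.Dart, d'.toProd = (x1, x2) → d' = d := fun d' h =>
    SimpleGraph.Dart.ext _ _ (h.trans hprodd.symm)
  have hback : ∀ d' : G.Dart, d'.toProd = (x3, x2) → (R.φ d').toProd = (x2, x1) → False := by
    intro d' h1 h2
    apply hrot
    have h3 : d'.symm = R.φ d := by
      apply SimpleGraph.Dart.ext
      rw [SimpleGraph.Dart.symm_toProd, h1, hprode]
      rfl
    rw [← h3]
    apply SimpleGraph.Dart.ext
    have h4 : R.φ d' = R.r d'.symm := rfl
    rw [← h4, h2, SimpleGraph.Dart.symm_toProd, hprodd]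
    rfl
  -- no other common neighbour
  have K1 : ∀ c, G.Adj x1 c → G.Adj x3 c → c = x2 := by
    intro c hc1 hc3
    by_contra hc
    rcases hCor4 V G hM R m v y hD x1 x2 x3 c hint h12 h23 hc3 hc1.symm h13 (Ne.symm hc) with h | h
    · obtain ⟨d', h1, -, -, -, h5⟩ := h
      rw [hdart d' h1] at h5
      exact hper 4 (by norm_num) (by norm_num) h5
    · obtain ⟨d', h1, h2, -⟩ := h
      exact hback d' h1 h2
  -- no path of length three
  have K2 : ∀ a b, G.Adj x1 a → G.Adj a b → G.Adj b x3 → False := by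
    intro a b h1a hab hb3
    obtain ⟨e', f', -, -, -, h⟩ := hCor5 V G hM R m v y hD x1 x2 x3 b a hint h12 h23 hb3.symm
      hab.symm h1a.symm h13
    rcases h with h | h
    · obtain ⟨d', h1, -, -, -, -, h5⟩ := h
      rw [hdart d' h1] at h5
      exact hper 5 (by norm_num) (by norm_num) h5
    · obtain ⟨d', h1, h2, -⟩ := h
      exact hback d' h1 h2
  have hn13 : ¬ G.Adj x1 x3 := fun h => hM.tf x1 x2 x3 h12 h23 h
  -- identification of `x1` and `x3`
  let W : Type := {w : V // w ≠ x3}
  let π : V → W := fun a => if h : a = x3 then ⟨x1, h13⟩ else ⟨a, h⟩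
  have hπ3 : π x3 = ⟨x1, h13⟩ := dif_pos rfl
  have hπn : ∀ a, (h : a ≠ x3) → π a = ⟨a, h⟩ := fun a h => dif_neg h
  have hπeq : ∀ a b, π a = π b → a = b ∨ (a = x1 ∧ b = x3) ∨ (a = x3 ∧ b = x1) := by
    intro a b h
    by_cases ha : a = x3
    · by_cases hb : b = x3
      · left; rw [ha, hb]
      · rw [ha, hπ3, hπn b hb] at h
        have := congrArg Subtype.val h
        right; right; exact ⟨ha, this.symm⟩
    · by_cases hb : b = x3
      · rw [hb, hπ3, hπn a ha] at h
        have := congrArg Subtype.val h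
        right; left; exact ⟨this, hb⟩
      · rw [hπn a ha, hπn b hb] at h
        left; exact congrArg Subtype.val h
  have hπ13 : π x1 = π x3 := by rw [hπ3, hπn x1 h13]
  let H : SimpleGraph W :=
    { Adj := fun x z => ∃ a b, π a = x ∧ π b = z ∧ G.Adj a b
      symm := ⟨by
        rintro x z ⟨a, b, h1, h2, h3⟩
        exact ⟨b, a, h2, h1, h3.symm⟩⟩
      loopless := ⟨by
        rintro x ⟨a, b, h1, h2, h3⟩
        rcases hπeq a b (h1.trans h2.symm) with h | ⟨h, h'⟩ | ⟨h, h'⟩
        · rw [h] at h3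
          exact G.loopless.irrefl _ h3
        · rw [h, h'] at h3
          exact hn13 h3
        · rw [h, h'] at h3
          exact hn13 h3.symm⟩ }
  have hHpl : Planar H := by
    have hfst : (R.φ (R.φ d)).fst = x3 := by rw [R.φ_fst, hx3]
    apply hIdent V W G R d (R.φ (R.φ d)) π H
    · rw [hfst, ← hx1]; exact h13
    · exact ⟨2, by rw [zpow_ofNat, pow_two, Perm.mul_apply]⟩
    · intro a b
      rw [hfst, ← hx1]
      constructor
      · intro h
        rcases hπeq a b h with h | ⟨h, h'⟩ | ⟨h, h'⟩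
        · left; exact h
        · right; exact ⟨Or.inl h, Or.inr h'⟩
        · right; exact ⟨Or.inr h, Or.inl h'⟩
      · rintro (h | ⟨h | h, h' | h'⟩)
        · rw [h]
        · rw [h, h']
        · rw [h, h']; exact hπ13
        · rw [h, h']; exact hπ13.symm
        · rw [h, h']
    · rintro x z ⟨a, b, h1, h2, h3⟩
      exact ⟨a, b, h1, h2, h3⟩
  have hHtf : TF H := by
    rintro x z w ⟨a1, b1, ha1, hb1, h1⟩ ⟨b2, c2, hb2, hc2, h2⟩ ⟨a3, c3, ha3, hc3, h3⟩
    have ha := hπeq a1 a3 (ha1.trans ha3.symm)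
    have hb := hπeq b1 b2 (hb1.trans hb2.symm)
    have hc := hπeq c2 c3 (hc2.trans hc3.symm)
    clear ha1 ha3 hb1 hb2 hc2 hc3
    have hirr : ∀ a, ¬ G.Adj a a := fun a h => G.loopless.irrefl a h
    rcases ha with ha | ⟨ha, ha'⟩ | ⟨ha, ha'⟩ <;> rcases hb with hb | ⟨hb, hb'⟩ | ⟨hb, hb'⟩ <;>
      rcases hc with hc | ⟨hc, hc'⟩ | ⟨hc, hc'⟩ <;> subst_vars <;>
      first
      | exact hM.tf _ _ _ h1 h2 h3
      | exact hirr _ h1
      | exact hirr _ h2
      | exact hirr _ h3
      | exact hn13 h1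
      | exact hn13 h2
      | exact hn13 h3
      | exact hn13 h1.symm
      | exact hn13 h2.symm
      | exact hn13 h3.symm
      | exact K2 _ _ h1 h2 h3.symm
      | exact K2 _ _ h3 h2.symm h1.symm
      | exact K2 _ _ h2 h3.symm h1
      | exact K2 _ _ h1.symm h3 h2.symm
      | exact K2 _ _ h2.symm h1.symm h3
      | exact K2 _ _ h3.symm h1 h2
  have hcard : Fintype.card W < Fintype.card V :=
    Fintype.card_subtype_lt (p := fun w => w ≠ x3) (x := x3) (fun h => h rfl)
  have hNB : NB H := hM.small W H hcard hHpl hHtf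
  apply hM.nnb
  apply hQuo V W G H π x1 x3 (fun a b hab => ⟨a, b, rfl, rfl, hab⟩) hπeq _ hNB
  intro c e h1 h2 h3 h4
  rw [K1 c h1 h2, K1 e h3 h4]

end Pool.Agent.Helper35.PM.D_LONG
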