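import Pool.Agent.Helper35.PM.St2

/-!
# Module NEST: a cycle in the closed disc has one side inside the disc
-/

set_option autoImplicit false

namespace Pool.Agent.Helper35.PM.D_NEST

open Equiv Equiv.Perm

theorem main : StNest := by
  intro V _ G R m m' v v' y y' hconn hm hm' hC hC' hS hS' hin
  classical
  have := Fintype.ofFinite V
  have hne : NeZero m := ⟨by omega⟩
  let k : ZMod m → G.Dart := fun j => ⟨(v j, v (j + 1)), hC.adj j⟩
  have hk0 : ∀ j, y (k j) = 0 := fun j => hS.on0 _ j rfl
  have hk1 : ∀ j, y (k j).symm = 1 := fun j => hS.on1 _ j rfl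
  obtain ⟨c, hc⟩ : ∃ c, c = y' (k 0) := ⟨_, rfl⟩
  let z : G.Dart → ZMod 2 := fun d => (1 + y d) * (y' d + c)
  have hzφ : ∀ d, z (R.φ d) = z d := fun d => by
    show (1 + y (R.φ d)) * (y' (R.φ d) + c) = _
    rw [hS.face, hS'.face]
  let x : G.Dart → ZMod 2 := fun d => z d + z d.symm
  have hxs : ∀ d, x d.symm = x d := fun d => by
    show z d.symm + z d.symm.symm = z d + z d.symm
    rw [SimpleGraph.Dart.symm_symm, add_comm]
  have hzr : ∀ d, z (R.r d) = z d + x d := fun d => by
    have h1 : R.r d = R.φ d.symm := by
      rw [R.φ_apply, SimpleGraph.Dart.symm_symm]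
    rw [h1, hzφ]
    show _ = z d + (z d + z d.symm)
    rw [← add_assoc, zadd_self, zero_add]
  -- off the cycle
  have hxoff : ∀ d : G.Dart,
      (∀ j, d.toProd ≠ (v j, v (j + 1)) ∧ d.toProd ≠ (v (j + 1), v j)) → x d = 0 := by
    intro d hd
    have h1 := (hS.off d hd).1
    show (1 + y d) * (y' d + c) + (1 + y d.symm) * (y' d.symm + c) = 0
    rw [h1]
    by_cases h2 : ∀ j, d.toProd ≠ (v' j, v' (j + 1)) ∧ d.toProd ≠ (v' (j + 1), v' j)
    · rw [(hS'.off d h2).1]
      exact zadd_self _
    · have h3 : y d = 1 := by
        push Not at h2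
        obtain ⟨j, hj⟩ := h2
        by_cases h4 : d.toProd = (v' j, v' (j + 1))
        · rcases hin d j h4 with h5 | h5
          · exact h5
          · rwa [h1] at h5
        · have h6 := hj h4
          have h7 : d.symm.toProd = (v' j, v' (j + 1)) := by
            show d.toProd.swap = _
            rw [h6]; rfl
          rcases hin d.symm j h7 with h5 | h5
          · rwa [h1] at h5
          · rwa [SimpleGraph.Dart.symm_symm] at h5
      rw [h3]
      have : (1 + 1 : ZMod 2) = 0 := by decide
      rw [this, zero_mul, zero_mul, add_zero]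
  -- sums around a vertex
  have hsum : ∀ w, ∑ d ∈ Finset.univ.filter (fun d : G.Dart => d.fst = w), x d = 0 := by
    intro w
    have h1 : ∑ d ∈ Finset.univ.filter (fun d : G.Dart => d.fst = w), z (R.r d) =
        ∑ d ∈ Finset.univ.filter (fun d : G.Dart => d.fst = w), z d := by
      apply Finset.sum_equiv R.r
      · intro d
        simp only [Finset.mem_filter, Finset.mem_univ, true_and]
        rw [R.fst_r]
      · intro d _
        rfl
    have h2 : ∑ d ∈ Finset.univ.filter (fun d : G.Dart => d.fst = w), z (R.r d) =
        ∑ d ∈ Finset.univ.filter (fun d : G.Dart => d.fst = w), z d +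
        ∑ d ∈ Finset.univ.filter (fun d : G.Dart => d.fst = w), x d := by
      rw [← Finset.sum_add_distrib]
      exact Finset.sum_congr rfl (fun d _ => hzr d)
    rw [h1] at h2
    exact eq_zero_of_eq_add h2
  have hv2 : ∀ j : ZMod m, v (j + 1 + 1) ≠ v j := by
    intro j h
    have h1 := hC.inj h
    have h2 : (2 : ZMod m) = 0 := by
      have : j + 2 = j + 0 := by
        rw [add_zero]
        calc j + 2 = j + 1 + 1 := by ring
          _ = j := h1
      exact add_left_cancel this
    have h3 : ((2 : ℕ) : ZMod m) = 0 := by exact_mod_cast h2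
    rw [ZMod.natCast_eq_zero_iff] at h3
    exact absurd (Nat.le_of_dvd (by norm_num) h3) (by omega)
  have hstep : ∀ j, x (k (j + 1)) = x (k j) := by
    intro j
    have h1 := hsum (v (j + 1))
    have hne2 : k (j + 1) ≠ (k j).symm := by
      intro h
      have h2 := congrArg (fun d : G.Dart => d.snd) h
      exact hv2 j h2
    have h2 : ∑ d ∈ Finset.univ.filter (fun d : G.Dart => d.fst = v (j + 1)), x d =
        ∑ d ∈ ({k (j + 1), (k j).symm} : Finset G.Dart), x d := by
      symm
      apply Finset.sum_subset
      · intro d hd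
        rw [Finset.mem_insert, Finset.mem_singleton] at hd
        rw [Finset.mem_filter]
        refine ⟨Finset.mem_univ _, ?_⟩
        rcases hd with rfl | rfl <;> rfl
      · intro d hd hd2
        rw [Finset.mem_filter] at hd
        rw [Finset.mem_insert, Finset.mem_singleton, not_or] at hd2
        apply hxoff
        intro i
        constructor
        · intro h3
          have h4 : v i = v (j + 1) := by
            rw [← hd.2]
            exact (congrArg Prod.fst h3).symm
          have h5 := hC.inj h4
          subst h5
          exact hd2.1 (SimpleGraph.Dart.ext _ _ h3)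
        · intro h3
          have h4 : v (i + 1) = v (j + 1) := by
            rw [← hd.2]
            exact (congrArg Prod.fst h3).symm
          have h5 := add_right_cancel (hC.inj h4)
          subst h5
          exact hd2.2 (SimpleGraph.Dart.ext _ _ h3)
    rw [h2, Finset.sum_pair hne2, hxs] at h1
    have h3 := zadd_self (x (k j))
    have h4 : x (k (j + 1)) + x (k j) = x (k j) + x (k j) := by rw [h1, h3]
    exact add_right_cancel h4
  have hx0 : x (k 0) = 0 := by
    show (1 + y (k 0)) * (y' (k 0) + c) + (1 + y (k 0).symm) * (y' (k 0).symm + c) = 0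
    rw [hk1, ← hc, zadd_self c]
    have : (1 + 1 : ZMod 2) = 0 := by decide
    rw [this, zero_mul, mul_zero, add_zero]
  have hxn : ∀ n : ℕ, x (k (n : ZMod m)) = 0 := by
    intro n
    induction n with
    | zero => rw [Nat.cast_zero]; exact hx0
    | succ n ih => rw [Nat.cast_succ, hstep]; exact ih
  have hxk : ∀ j, x (k j) = 0 := by
    intro j
    have := hxn j.val
    rwa [ZMod.natCast_zmod_val] at this
  have hx : ∀ d, x d = 0 := by
    intro d
    by_cases h : ∀ j, d.toProd ≠ (v j, v (j + 1)) ∧ d.toProd ≠ (v (j + 1), v j)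
    · exact hxoff d h
    · push Not at h
      obtain ⟨j, hj⟩ := h
      by_cases h4 : d.toProd = (v j, v (j + 1))
      · have : d = k j := SimpleGraph.Dart.ext _ _ h4
        rw [this]; exact hxk j
      · have : d = (k j).symm := SimpleGraph.Dart.ext _ _ (hj h4)
        rw [this, hxs]; exact hxk j
  have hzs : ∀ d, z d.symm = z d := by
    intro d
    have h1 : z d + z d.symm = 0 := hx d
    have h2 := zadd_self (z d)
    have h3 : z d + z d.symm = z d + z d := by rw [h1, h2]
    exact add_left_cancel h3
  have hzr2 : ∀ d, z (R.r d) = z d := fun d => by rw [hzr, hx, add_zero]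
  have hzf : ∀ d d' : G.Dart, d.fst = d'.fst → z d' = z d := by
    intro d d' h
    obtain ⟨n, hn⟩ := (R.trans d d' h).exists_nat_pow_eq
    rw [← hn]
    clear hn
    induction n with
    | zero => simp
    | succ n ih => rw [pow_succ', Perm.mul_apply, hzr2, ih]
  have hz0 : z (k 0) = 0 := by
    show (1 + y (k 0)) * (y' (k 0) + c) = 0
    rw [← hc, zadd_self c, mul_zero]
  -- every vertex reached from `v 0`
  have hwalk : ∀ (a w : V), G.Walk a w → (∀ d : G.Dart, d.fst = a → z d = 0) →
      ∀ d : G.Dart, d.fst = w → z d = 0 := by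
    intro a w p
    induction p with
    | nil => exact fun h => h
    | cons hadj p ih =>
      intro h
      apply ih
      intro d hd
      let e : G.Dart := ⟨(_, _), hadj⟩
      have h1 : z e = 0 := h e rfl
      rw [hzf e.symm d hd.symm, hzs, h1]
  have hz : ∀ d, z d = 0 := by
    intro d
    obtain ⟨p⟩ := hconn.preconnected (v 0) d.fst
    refine hwalk _ _ p ?_ d rfl
    intro d' hd'
    rw [hzf (k 0) d' hd'.symm]
    exact hz0
  have hfin : ∀ d, y d = 0 → y' d = c := by
    intro d hd
    have h1 : (1 + y d) * (y' d + c) = 0 := hz d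
    rw [hd, add_zero, one_mul] at h1
    have h2 : y' d + c = c + c := by rw [h1, zadd_self]
    exact add_right_cancel h2
  have hval : ∀ a : ZMod 2, a = 0 ∨ a = 1 := by decide
  rcases hval c with h0 | h1
  · left
    intro d hd
    rcases hval (y d) with h2 | h2
    · exfalso
      have h3 := hfin d h2
      rw [hd, h0] at h3
      exact absurd h3 (by decide)
    · exact h2
  · right
    intro d hd
    rcases hval (y d) with h2 | h2
    · exfalso
      have h3 := hfin d h2
      rw [hd, h1] at h3
      exact absurd h3 (by decide)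
    · exact h2

end Pool.Agent.Helper35.PM.D_NEST
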