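import Pool.Agent.Helper35.PM.St2

/-!
# Module NOCUT: a minimal counterexample has no cut vertex
-/

set_option autoImplicit false

namespace Pool.Agent.Helper35.PM.D_NOCUT

open Equiv Equiv.Perm

/-- a walk which leaves a set -/
theorem exit_edge {V : Type} {G : SimpleGraph V} (S : Set V) {x y : V} (p : G.Walk x y)
    (hx : x ∈ S) (hy : y ∉ S) : ∃ a b, a ∈ S ∧ b ∉ S ∧ G.Adj a b := by
  induction p with
  | nil => exact absurd hx hy
  | @cons u w z h p ih =>
    by_cases hw : w ∈ S
    · exact ih hw hy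
    · exact ⟨u, w, hx, hw, h⟩

/-- first switch along the powers of a permutation -/
theorem switch {D : Type} (r : Perm D) (P : D → Prop) (d : D) (h : P d) :
    ∀ n : ℕ, ¬ P ((r ^ n) d) → ∃ k, P ((r ^ k) d) ∧ ¬ P ((r ^ (k + 1)) d) := by
  intro n
  induction n with
  | zero => intro hn; exact absurd h hn
  | succ n ih =>
    intro hn
    by_cases hP : P ((r ^ n) d)
    · exact ⟨n, hP, hn⟩
    · exact ih hP

theorem main (hConn : StConn) (_hDeg : StDeg) (hQuo : StQuo) (hIdent : StIdent) : StNoCut := by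
  classical
  intro V _ G hM v A hvA hcut hne b0 hb0v
  by_contra hb0A
  obtain ⟨a0, ha0⟩ := hne
  have hconn := hConn V G hM
  obtain ⟨R⟩ := hM.planar
  -- neighbours of `v` in `A` and outside
  obtain ⟨a1, ha1, hva1⟩ : ∃ a1, a1 ∈ A ∧ G.Adj v a1 := by
    obtain ⟨p⟩ := hconn.preconnected a0 b0
    obtain ⟨x, y, hx, hy, hxy⟩ := exit_edge A p ha0 hb0A
    have := hcut x y hx hy hxy
    subst this
    exact ⟨x, hx, hxy.symm⟩
  obtain ⟨b1, hb1, hvb1⟩ : ∃ b1, b1 ∉ A ∧ G.Adj v b1 := by
    obtain ⟨p⟩ := hconn.preconnected b0 a0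
    obtain ⟨x, y, hx, hy, hxy⟩ := exit_edge {w | w ∉ A ∧ w ≠ v} p ⟨hb0A, hb0v⟩
      (fun h => h.1 ha0)
    have hyv : y = v := by
      by_contra hyv
      have hyA : y ∈ A := by
        by_contra hyA
        exact hy ⟨hyA, hyv⟩
      exact hx.2 (hcut y x hyA hx.1 hxy.symm)
    subst hyv
    exact ⟨x, hx.1, hxy.symm⟩
  -- two consecutive darts at `v`
  let da : G.Dart := ⟨(v, a1), hva1⟩
  let db : G.Dart := ⟨(v, b1), hvb1⟩
  obtain ⟨n, hn⟩ : ∃ n : ℕ, (R.r ^ n) da = db := by
    obtain ⟨n, -, hn⟩ := (R.trans da db rfl).exists_pow_eq'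
    exact ⟨n, hn⟩
  have hfst : ∀ k : ℕ, ((R.r ^ k) da).fst = v := by
    intro k
    induction k with
    | zero => rfl
    | succ k ih =>
      rw [pow_succ', Perm.mul_apply, R.fst_r]
      exact ih
  obtain ⟨k, hk1, hk2⟩ := switch R.r (fun d => d.snd ∈ A) da ha1 n (by rw [hn]; exact hb1)
  set d : G.Dart := (R.r ^ k) da with hd
  have hrd : (R.r ^ (k + 1)) da = R.r d := by rw [pow_succ', Perm.mul_apply]
  rw [hrd] at hk2
  have hdv : d.fst = v := hfst k
  have hrdv : (R.r d).fst = v := by rw [R.fst_r]; exact hdv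
  obtain ⟨a, ha⟩ : ∃ a, a = d.snd := ⟨_, rfl⟩
  obtain ⟨b, hb⟩ : ∃ b, b = (R.r d).snd := ⟨_, rfl⟩
  have haA : a ∈ A := by rw [ha]; exact hk1
  have hbA : b ∉ A := by rw [hb]; exact hk2
  have hva : G.Adj v a := by
    have := d.adj
    rw [hdv, ← ha] at this
    exact this
  have hvb : G.Adj v b := by
    have := (R.r d).adj
    rw [hrdv, ← hb] at this
    exact this
  have hbv : b ≠ v := hvb.ne'
  have hab : a ≠ b := fun h => hbA (h ▸ haA)
  have hnab : ¬ G.Adj a b := fun h => hbv (hcut a b haA hbA h)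
  -- adjacency between `A` and the rest
  have hAB : ∀ x y, x ∈ A → y ∉ A → G.Adj x y → y = v := hcut
  -- no triangle after the identification
  have key : ∀ y z, G.Adj y z → (G.Adj a y ∨ G.Adj b y) → (G.Adj a z ∨ G.Adj b z) → False := by
    have key1 : ∀ y z, G.Adj y z → G.Adj a y → G.Adj b z → False := by
      intro y z hyz hay hbz
      by_cases hyA : y ∈ A
      · have hzA : z ∉ A := fun hzA => hbv (hcut z b hzA hbA hbz.symm)
        have := hcut y z hyA hzA hyz
        subst this
        exact hM.tf a y z hay hyz hva.symm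
      · have := hcut a y haA hyA hay
        subst this
        exact hM.tf b z y hbz hyz.symm hvb.symm
    intro y z hyz hy hz
    rcases hy with hy | hy <;> rcases hz with hz | hz
    · exact hM.tf a y z hy hyz hz
    · exact key1 y z hyz hy hz
    · exact key1 z y hyz.symm hz hy
    · exact hM.tf b y z hy hyz hz
  -- the quotient
  let W := {w : V // w ≠ b}
  let π : V → W := fun w => if h : w = b then ⟨a, hab⟩ else ⟨w, h⟩
  have hπb : π b = ⟨a, hab⟩ := dif_pos rfl
  have hπ : ∀ w, w ≠ b → (π w).1 = w := by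
    intro w hw
    have : π w = ⟨w, hw⟩ := dif_neg hw
    rw [this]
  have hππ : ∀ x y, π x = π y ↔ x = y ∨ ((x = a ∨ x = b) ∧ (y = a ∨ y = b)) := by
    intro x y
    by_cases hx : x = b
    · subst hx
      by_cases hy : y = x
      · subst hy
        simp
      · have h2 := hπ y hy
        constructor
        · intro h
          rw [hπb] at h
          rw [← h] at h2
          exact Or.inr ⟨Or.inr rfl, Or.inl h2.symm⟩
        · rintro (h | ⟨-, h | h⟩)
          · exact absurd h.symm hy
          · rw [hπb]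
            apply Subtype.ext
            rw [h2, h]
          · exact absurd h hy
    · have h1 := hπ x hx
      by_cases hy : y = b
      · subst hy
        constructor
        · intro h
          rw [hπb] at h
          rw [h] at h1
          exact Or.inr ⟨Or.inl h1.symm, Or.inr rfl⟩
        · rintro (h | ⟨h | h, -⟩)
          · exact absurd h hx
          · rw [hπb]
            apply Subtype.ext
            rw [h1, h]
          · exact absurd h hx
      · have h2 := hπ y hy
        constructor
        · intro h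
          left
          rw [← h1, ← h2, h]
        · rintro (h | ⟨h | h, h' | h'⟩)
          · rw [h]
          · rw [h, h']
          · exact absurd h' hy
          · exact absurd h hx
          · exact absurd h hx
  have hnadj : ∀ x y, G.Adj x y → π x ≠ π y := by
    intro x y hxy h
    rcases (hππ x y).1 h with h | ⟨h | h, h' | h'⟩
    · exact hxy.ne h
    · exact hxy.ne (h.trans h'.symm)
    · rw [h, h'] at hxy
      exact hnab hxy
    · rw [h, h'] at hxy
      exact hnab hxy.symm
    · exact hxy.ne (h.trans h'.symm)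
  let H : SimpleGraph W :=
    { Adj := fun x y => ∃ s t, π s = x ∧ π t = y ∧ G.Adj s t
      symm := ⟨by
        rintro x y ⟨s, t, hs, ht, hst⟩
        exact ⟨t, s, ht, hs, hst.symm⟩⟩
      loopless := ⟨by
        rintro x ⟨s, t, hs, ht, hst⟩
        exact hnadj s t hst (hs.trans ht.symm)⟩ }
  have hHadj : ∀ x y, H.Adj x y ↔ ∃ s t, π s = x ∧ π t = y ∧ G.Adj s t := fun _ _ => Iff.rfl
  have hplan : Planar H := by
    refine hIdent V W G R d.symm (R.φ (R.r d)) π H ?_ ?_ ?_ ?_
    · rw [R.φ_fst, ← hb]
      show d.snd ≠ b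
      rw [← ha]
      exact hab
    · refine ⟨2, ?_⟩
      have h1 : R.φ d.symm = R.r d := by rw [R.φ_apply, SimpleGraph.Dart.symm_symm]
      show (R.φ ^ (2 : ℤ)) d.symm = R.φ (R.r d)
      rw [← h1]
      rfl
    · have e1 : (d.symm).fst = a := by
        show d.snd = a
        exact ha.symm
      have e2 : (R.φ (R.r d)).fst = b := by rw [R.φ_fst, ← hb]
      rw [e1, e2]
      exact hππ
    · intro x y h
      exact h
  -- lifts
  have hlift : ∀ x : W, ∀ s, π s = x → s = x.1 ∨ (x.1 = a ∧ s = b) := by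
    intro x s hs
    by_cases hsb : s = b
    · right
      subst hsb
      rw [hπb] at hs
      exact ⟨by rw [← hs], rfl⟩
    · left
      rw [← hs, hπ s hsb]
  have hHa : ∀ x y : W, H.Adj x y → x.1 ≠ a → y.1 ≠ a → G.Adj x.1 y.1 := by
    rintro x y ⟨s, t, hs, ht, hst⟩ hx hy
    rcases hlift x s hs with h | h
    · rcases hlift y t ht with h' | h'
      · rw [← h, ← h']
        exact hst
      · exact absurd h'.1 hy
    · exact absurd h.1 hx
  have hHb : ∀ x y : W, H.Adj x y → x.1 = a → y.1 ≠ a → G.Adj a y.1 ∨ G.Adj b y.1 := by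
    rintro x y ⟨s, t, hs, ht, hst⟩ hx hy
    rcases hlift y t ht with h' | h'
    · rcases hlift x s hs with h | h
      · left
        rw [← h', ← hx, ← h]
        exact hst
      · right
        rw [← h', ← h.2]
        exact hst
    · exact absurd h'.1 hy
  have hne' : ∀ x y : W, H.Adj x y → x.1 = a → y.1 ≠ a := by
    intro x y h hx hy
    exact h.ne (Subtype.ext (hx.trans hy.symm))
  have htri : ∀ x y z : W, H.Adj x y → H.Adj x z → H.Adj y z → x.1 = a → False := by
    intro x y z hxy hxz hyz hx
    have hy := hne' x y hxy hx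
    have hz := hne' x z hxz hx
    exact key y.1 z.1 (hHa y z hyz hy hz) (hHb x y hxy hx hy) (hHb x z hxz hx hz)
  have htf : TF H := by
    intro x y z hxy hyz hxz
    by_cases hx : x.1 = a
    · exact htri x y z hxy hxz hyz hx
    by_cases hy : y.1 = a
    · exact htri y x z hxy.symm hyz hxz hy
    by_cases hz : z.1 = a
    · exact htri z x y hxz.symm hyz.symm hxy hz
    exact hM.tf x.1 y.1 z.1 (hHa x y hxy hx hy) (hHa y z hyz hy hz) (hHa x z hxz hx hz)
  have hcard : Fintype.card W < Fintype.card V := by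
    apply Fintype.card_lt_of_injective_not_surjective (fun w : W => w.1) Subtype.val_injective
    intro h
    obtain ⟨w, hw⟩ := h b
    exact w.2 hw
  have hNB : NB H := hM.small W H hcard hplan htf
  apply hM.nnb
  refine hQuo V W G H π a b ?_ ?_ ?_ hNB
  · intro x y hxy
    exact ⟨x, y, rfl, rfl, hxy⟩
  · intro x y h
    rcases (hππ x y).1 h with h | ⟨h | h, h' | h'⟩
    · exact Or.inl h
    · exact Or.inl (h.trans h'.symm)
    · exact Or.inr (Or.inl ⟨h, h'⟩)
    · exact Or.inr (Or.inr ⟨h, h'⟩)
    · exact Or.inl (h.trans h'.symm)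
  · have hcom : ∀ c, G.Adj a c → G.Adj b c → c = v := by
      intro c hac hbc
      by_cases hcA : c ∈ A
      · exact absurd (hcut c b hcA hbA hbc.symm) hbv
      · exact hcut a c haA hcA hac
    intro c e hac hbc hae hbe
    rw [hcom c hac hbc, hcom e hae hbe]

end Pool.Agent.Helper35.PM.D_NOCUT
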