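import Pool.Agent.Helper35.PM.St2

/-!
# Minimal counterexamples: at most one neighbour on the innermost short cycle
-/

set_option autoImplicit false

namespace Pool.Agent.Helper35.PM.D_ONE

open Equiv Equiv.Perm

section

variable {V : Type} {G : SimpleGraph V} {R : Rot G} {y : G.Dart → ZMod 2} {a w b c e : V}

theorem kind4 (haw : G.Adj a w) (hwb : G.Adj w b)
    (h : FacialIn R y 4 (![a, w, b, c] : Fin 4 → V)) :
    ((R.φ ⟨(a, w), haw⟩).toProd = (w, b) ∧ (R.φ ⟨(w, b), hwb⟩).toProd = (b, c)) ∨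
    ((R.φ ⟨(b, w), hwb.symm⟩).toProd = (w, a) ∧ (R.φ ⟨(w, a), haw.symm⟩).toProd = (a, c)) := by
  rcases h with h | h
  · exact Or.inl ⟨(h ⟨(a, w), haw⟩ (0 : Fin 4) rfl).2, (h ⟨(w, b), hwb⟩ (1 : Fin 4) rfl).2⟩
  · exact Or.inr ⟨(h ⟨(b, w), hwb.symm⟩ (1 : Fin 4) rfl).2,
      (h ⟨(w, a), haw.symm⟩ (0 : Fin 4) rfl).2⟩

theorem kind5 (haw : G.Adj a w) (hwb : G.Adj w b)
    (h : FacialIn R y 5 (![a, w, b, c, e] : Fin 5 → V)) :
    ((R.φ ⟨(a, w), haw⟩).toProd = (w, b) ∧ (R.φ ⟨(w, b), hwb⟩).toProd = (b, c)) ∨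
    ((R.φ ⟨(b, w), hwb.symm⟩).toProd = (w, a) ∧ (R.φ ⟨(w, a), haw.symm⟩).toProd = (a, e)) := by
  rcases h with h | h
  · exact Or.inl ⟨(h ⟨(a, w), haw⟩ (0 : Fin 5) rfl).2, (h ⟨(w, b), hwb⟩ (1 : Fin 5) rfl).2⟩
  · exact Or.inr ⟨(h ⟨(b, w), hwb.symm⟩ (1 : Fin 5) rfl).2,
      (h ⟨(w, a), haw.symm⟩ (0 : Fin 5) rfl).2⟩

theorem cyc4 (haw : G.Adj a w) (hwb : G.Adj w b) (hbc : G.Adj b c) (hca : G.Adj c a)
    (hab : a ≠ b) (hwc : w ≠ c) : Cyc G 4 (![a, w, b, c] : Fin 4 → V) := by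
  constructor
  · intro p q hpq
    change Fin 4 at p q
    have h1 := haw.ne
    have h2 := hwb.ne
    have h3 := hbc.ne
    have h4 := hca.ne
    fin_cases p <;> fin_cases q <;> first
      | rfl
      | exact absurd hpq hab
      | exact absurd hpq hab.symm
      | exact absurd hpq hwc
      | exact absurd hpq hwc.symm
      | exact absurd hpq h1
      | exact absurd hpq h1.symm
      | exact absurd hpq h2
      | exact absurd hpq h2.symm
      | exact absurd hpq h3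
      | exact absurd hpq h3.symm
      | exact absurd hpq h4
      | exact absurd hpq h4.symm
  · intro j
    change Fin 4 at j
    fin_cases j
    · exact haw
    · exact hwb
    · exact hbc
    · exact hca

theorem cyc5 (haw : G.Adj a w) (hwb : G.Adj w b) (hbc : G.Adj b c) (hce : G.Adj c e)
    (hea : G.Adj e a) (hab : a ≠ b) (hac : a ≠ c) (hwc : w ≠ c) (hwe : w ≠ e) (hbe : b ≠ e) :
    Cyc G 5 (![a, w, b, c, e] : Fin 5 → V) := by
  constructor
  · intro p q hpq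
    change Fin 5 at p q
    have h1 := haw.ne
    have h2 := hwb.ne
    have h3 := hbc.ne
    have h4 := hce.ne
    have h5 := hea.ne
    fin_cases p <;> fin_cases q <;> first
      | rfl
      | exact absurd hpq hab
      | exact absurd hpq hab.symm
      | exact absurd hpq hac
      | exact absurd hpq hac.symm
      | exact absurd hpq hwc
      | exact absurd hpq hwc.symm
      | exact absurd hpq hwe
      | exact absurd hpq hwe.symm
      | exact absurd hpq hbe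
      | exact absurd hpq hbe.symm
      | exact absurd hpq h1
      | exact absurd hpq h1.symm
      | exact absurd hpq h2
      | exact absurd hpq h2.symm
      | exact absurd hpq h3
      | exact absurd hpq h3.symm
      | exact absurd hpq h4
      | exact absurd hpq h4.symm
      | exact absurd hpq h5
      | exact absurd hpq h5.symm
  · intro j
    change Fin 5 at j
    fin_cases j
    · exact haw
    · exact hwb
    · exact hbc
    · exact hce
    · exact hea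

/-- The darts of the edge `xz` have side `1` in one direction. -/
def E1 (y : G.Dart → ZMod 2) (x z : V) : Prop :=
  ∀ d : G.Dart, d.toProd = (x, z) → y d = 1 ∨ y d.symm = 1

theorem inDisc4 (h1 : E1 y a w) (h2 : E1 y w b) (h3 : E1 y b c) (h4 : E1 y c a) :
    InDisc y 4 (![a, w, b, c] : Fin 4 → V) := by
  intro d j hd
  change Fin 4 at j
  fin_cases j
  · exact h1 d hd
  · exact h2 d hd
  · exact h3 d hd
  · exact h4 d hd

theorem inDisc5 (h1 : E1 y a w) (h2 : E1 y w b) (h3 : E1 y b c) (h4 : E1 y c e)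
    (h5 : E1 y e a) : InDisc y 5 (![a, w, b, c, e] : Fin 5 → V) := by
  intro d j hd
  change Fin 5 at j
  fin_cases j
  · exact h1 d hd
  · exact h2 d hd
  · exact h3 d hd
  · exact h4 d hd
  · exact h5 d hd

theorem e1_left (hw : Int y w) (x : V) : E1 y w x := by
  intro d hd
  exact Or.inl (hw d (congrArg Prod.fst hd))

theorem e1_right (hw : Int y w) (x : V) : E1 y x w := by
  intro d hd
  refine Or.inr (hw d.symm ?_)
  exact congrArg Prod.snd hd

theorem e1_cyc {m : ℕ} {v : ZMod m → V} (hS : Side R m v y) (j : ZMod m) :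
    E1 y (v j) (v (j + 1)) := by
  intro d hd
  refine Or.inr (hS.on1 d.symm j ?_)
  have h1 : d.symm.toProd = d.toProd.swap := rfl
  rw [h1, hd]
  rfl

theorem e1_cyc' {m : ℕ} {v : ZMod m → V} (hS : Side R m v y) (j : ZMod m) :
    E1 y (v (j + 1)) (v j) := fun d hd => Or.inl (hS.on1 d j hd)

theorem not_range {m : ℕ} {v : ZMod m → V} (hC : Cyc G m v) (hS : Side R m v y)
    (hw : Int y w) (j : ZMod m) : w ≠ v j := by
  intro h
  have h1 := hS.on0 ⟨(v j, v (j + 1)), hC.adj j⟩ j rfl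
  have h2 := hw ⟨(v j, v (j + 1)), hC.adj j⟩ h.symm
  rw [h1] at h2
  exact absurd h2 (by decide)

/-- The end of the argument. -/
theorem fin [Finite V] {c₁ e₁ c₂ e₂ : V} (hdeg : ∃ z, G.Adj w z ∧ z ≠ a ∧ z ≠ b)
    (haw : G.Adj a w) (hwb : G.Adj w b)
    (h1 : ((R.φ ⟨(a, w), haw⟩).toProd = (w, b) ∧ (R.φ ⟨(w, b), hwb⟩).toProd = (b, c₁)) ∨
    ((R.φ ⟨(b, w), hwb.symm⟩).toProd = (w, a) ∧ (R.φ ⟨(w, a), haw.symm⟩).toProd = (a, e₁)))
    (h2 : ((R.φ ⟨(a, w), haw⟩).toProd = (w, b) ∧ (R.φ ⟨(w, b), hwb⟩).toProd = (b, c₂)) ∨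
    ((R.φ ⟨(b, w), hwb.symm⟩).toProd = (w, a) ∧ (R.φ ⟨(w, a), haw.symm⟩).toProd = (a, e₂)))
    (hc : c₁ ≠ c₂) (he : e₁ ≠ e₂) : False := by
  have : Finite G.Dart :=
    Finite.of_injective (fun d : G.Dart => d.toProd) (fun _ _ h => SimpleGraph.Dart.ext _ _ h)
  have key : (R.φ ⟨(a, w), haw⟩).toProd = (w, b) → (R.φ ⟨(b, w), hwb.symm⟩).toProd = (w, a) →
      False := by
    intro g1 g2
    obtain ⟨z, hz, hza, hzb⟩ := hdeg
    have g3 : R.r ⟨(w, a), haw.symm⟩ = ⟨(w, b), hwb⟩ := SimpleGraph.Dart.ext _ _ g1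
    have g4 : R.r ⟨(w, b), hwb⟩ = ⟨(w, a), haw.symm⟩ := SimpleGraph.Dart.ext _ _ g2
    obtain ⟨k, hk⟩ := (R.trans ⟨(w, a), haw.symm⟩ ⟨(w, z), hz⟩ rfl).exists_nat_pow_eq
    have g5 : ∀ n : ℕ, (R.r ^ n) ⟨(w, a), haw.symm⟩ = ⟨(w, a), haw.symm⟩ ∨
        (R.r ^ n) ⟨(w, a), haw.symm⟩ = ⟨(w, b), hwb⟩ := by
      intro n
      induction n with
      | zero => exact Or.inl rfl
      | succ n ih =>
        rw [pow_succ', Perm.mul_apply]
        rcases ih with ih | ih
        · rw [ih, g3]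
          exact Or.inr rfl
        · rw [ih, g4]
          exact Or.inl rfl
    rcases g5 k with g6 | g6
    · rw [hk] at g6
      have g7 := congrArg (fun d : G.Dart => d.snd) g6
      exact hza g7
    · rw [hk] at g6
      have g7 := congrArg (fun d : G.Dart => d.snd) g6
      exact hzb g7
  rcases h1 with ⟨p1, p2⟩ | ⟨p1, p2⟩ <;> rcases h2 with ⟨q1, q2⟩ | ⟨q1, q2⟩
  · rw [p2] at q2
    exact hc (congrArg Prod.snd q2)
  · exact key p1 q1
  · exact key q1 p1
  · rw [p2] at q2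
    exact he (congrArg Prod.snd q2)

theorem one4 [Finite V] {v : ZMod 4 → V} (hD : Disc0 R 4 v y) (hw : Int y w) (i : ZMod 4)
    (hdeg : ∀ a b : V, ∃ z, G.Adj w z ∧ z ≠ a ∧ z ≠ b) (hwa : G.Adj w (v i))
    (hwb : G.Adj w (v (i + 2))) : False := by
  have hS := hD.side
  have hC := hD.cyc
  have hnr : ∀ k, w ≠ v k := not_range hC hS hw
  have e1 : i + 1 + 1 = i + 2 := by ring
  have e2 : i + 2 + 1 = i + 3 := by ring
  have e3 : i + 3 + 1 = i := (by decide : ∀ i : ZMod 4, i + 3 + 1 = i) i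
  have n1 : i ≠ i + 2 := (by decide : ∀ i : ZMod 4, i ≠ i + 2) i
  have n2 : i + 1 ≠ i + 3 := (by decide : ∀ i : ZMod 4, i + 1 ≠ i + 3) i
  have a1 : G.Adj (v (i + 2)) (v (i + 1)) := by
    rw [← e1]
    exact (hC.adj (i + 1)).symm
  have a2 : G.Adj (v (i + 1)) (v i) := (hC.adj i).symm
  have a3 : G.Adj (v (i + 2)) (v (i + 3)) := by
    rw [← e2]
    exact hC.adj (i + 2)
  have a4 : G.Adj (v (i + 3)) (v i) := by
    have h := hC.adj (i + 3)
    rw [e3] at h
    exact h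
  have b1 : E1 y (v (i + 2)) (v (i + 1)) := by
    rw [← e1]
    exact e1_cyc' hS (i + 1)
  have b2 : E1 y (v (i + 1)) (v i) := e1_cyc' hS i
  have b3 : E1 y (v (i + 2)) (v (i + 3)) := by
    rw [← e2]
    exact e1_cyc hS (i + 2)
  have b4 : E1 y (v (i + 3)) (v i) := by
    have h := e1_cyc hS (i + 3)
    rw [e3] at h
    exact h
  have hab : v i ≠ v (i + 2) := fun h => n1 (hC.inj h)
  have hrange : ∀ v' : ZMod 4 → V, v' (1 : Fin 4) = w → Set.range v' ≠ Set.range v := by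
    intro v' hk h
    have h1 : w ∈ Set.range v := by
      rw [← h]
      exact ⟨_, hk⟩
    obtain ⟨l, hl⟩ := h1
    exact hnr l hl.symm
  have k1 := (hD.short 4 _ (Or.inl rfl)
    (cyc4 hwa.symm hwb a1 a2 hab (hnr _))
    (inDisc4 (e1_right hw _) (e1_left hw _) b1 b2)).resolve_left (hrange _ rfl)
  have k2 := (hD.short 4 _ (Or.inl rfl)
    (cyc4 hwa.symm hwb a3 a4 hab (hnr _))
    (inDisc4 (e1_right hw _) (e1_left hw _) b3 b4)).resolve_left (hrange _ rfl)
  exact fin (hdeg _ _) hwa.symm hwb (kind4 _ _ k1) (kind4 _ _ k2)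
    (fun h => n2 (hC.inj h)) (fun h => n2 (hC.inj h))

theorem one5 [Finite V] {v : ZMod 5 → V} (hD : Disc0 R 5 v y) (hw : Int y w) (i : ZMod 5)
    (hdeg : ∀ a b : V, ∃ z, G.Adj w z ∧ z ≠ a ∧ z ≠ b) (hwa : G.Adj w (v i))
    (hwb : G.Adj w (v (i + 2))) : False := by
  have hS := hD.side
  have hC := hD.cyc
  have hnr : ∀ k, w ≠ v k := not_range hC hS hw
  have e1 : i + 1 + 1 = i + 2 := by ring
  have e2 : i + 2 + 1 = i + 3 := by ring
  have e3 : i + 3 + 1 = i + 4 := by ring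
  have e4 : i + 4 + 1 = i := (by decide : ∀ i : ZMod 5, i + 4 + 1 = i) i
  have n1 : i ≠ i + 2 := (by decide : ∀ i : ZMod 5, i ≠ i + 2) i
  have n2 : i + 1 ≠ i + 3 := (by decide : ∀ i : ZMod 5, i + 1 ≠ i + 3) i
  have n3 : i + 1 ≠ i + 4 := (by decide : ∀ i : ZMod 5, i + 1 ≠ i + 4) i
  have n4 : i ≠ i + 3 := (by decide : ∀ i : ZMod 5, i ≠ i + 3) i
  have n5 : i + 2 ≠ i + 4 := (by decide : ∀ i : ZMod 5, i + 2 ≠ i + 4) i
  have a1 : G.Adj (v (i + 2)) (v (i + 1)) := by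
    rw [← e1]
    exact (hC.adj (i + 1)).symm
  have a2 : G.Adj (v (i + 1)) (v i) := (hC.adj i).symm
  have a3 : G.Adj (v (i + 2)) (v (i + 3)) := by
    rw [← e2]
    exact hC.adj (i + 2)
  have a4 : G.Adj (v (i + 3)) (v (i + 4)) := by
    rw [← e3]
    exact hC.adj (i + 3)
  have a5 : G.Adj (v (i + 4)) (v i) := by
    have h := hC.adj (i + 4)
    rw [e4] at h
    exact h
  have b1 : E1 y (v (i + 2)) (v (i + 1)) := by
    rw [← e1]
    exact e1_cyc' hS (i + 1)
  have b2 : E1 y (v (i + 1)) (v i) := e1_cyc' hS i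
  have b3 : E1 y (v (i + 2)) (v (i + 3)) := by
    rw [← e2]
    exact e1_cyc hS (i + 2)
  have b4 : E1 y (v (i + 3)) (v (i + 4)) := by
    rw [← e3]
    exact e1_cyc hS (i + 3)
  have b5 : E1 y (v (i + 4)) (v i) := by
    have h := e1_cyc hS (i + 4)
    rw [e4] at h
    exact h
  have hab : v i ≠ v (i + 2) := fun h => n1 (hC.inj h)
  have hrange4 : ∀ v' : ZMod 4 → V, v' (1 : Fin 4) = w → Set.range v' ≠ Set.range v := by
    intro v' hk h
    have h1 : w ∈ Set.range v := by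
      rw [← h]
      exact ⟨_, hk⟩
    obtain ⟨l, hl⟩ := h1
    exact hnr l hl.symm
  have hrange5 : ∀ v' : ZMod 5 → V, v' (1 : Fin 5) = w → Set.range v' ≠ Set.range v := by
    intro v' hk h
    have h1 : w ∈ Set.range v := by
      rw [← h]
      exact ⟨_, hk⟩
    obtain ⟨l, hl⟩ := h1
    exact hnr l hl.symm
  have k1 := (hD.short 4 _ (Or.inl rfl)
    (cyc4 hwa.symm hwb a1 a2 hab (hnr _))
    (inDisc4 (e1_right hw _) (e1_left hw _) b1 b2)).resolve_left (hrange4 _ rfl)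
  have k2 := (hD.short 5 _ (Or.inr rfl)
    (cyc5 hwa.symm hwb a3 a4 a5 hab (fun h => n4 (hC.inj h)) (hnr _) (hnr _)
      (fun h => n5 (hC.inj h)))
    (inDisc5 (e1_right hw _) (e1_left hw _) b3 b4 b5)).resolve_left (hrange5 _ rfl)
  exact fin (hdeg _ _) hwa.symm hwb (kind4 _ _ k1) (kind5 _ _ k2)
    (fun h => n2 (hC.inj h)) (fun h => n3 (hC.inj h))

end

theorem main (hDeg : StDeg) (hChord : StChord) : StOne := by
  have _ := hChord
  intro V _ G hG R m v y hD w hw a' ha' b' hb' hwa hwb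
  by_contra hne
  obtain ⟨i, rfl⟩ := ha'
  obtain ⟨j, rfl⟩ := hb'
  have hC := hD.cyc
  have htf := hG.tf
  have hdeg : ∀ a b : V, ∃ z, G.Adj w z ∧ z ≠ a ∧ z ≠ b := hDeg V G hG w
  have hij1 : j ≠ i + 1 := by
    rintro rfl
    exact htf w (v i) (v (i + 1)) hwa (hC.adj i) hwb
  have hij2 : i ≠ j + 1 := by
    rintro rfl
    exact htf w (v j) (v (j + 1)) hwb (hC.adj j) hwa
  have hij0 : i ≠ j := fun h => hne (by rw [h])
  rcases hD.len with rfl | rfl
  · have key : ∀ i j : ZMod 4, i ≠ j → j ≠ i + 1 → i ≠ j + 1 → j = i + 2 := by decide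
    have hj := key i j hij0 hij1 hij2
    subst hj
    exact one4 hD hw i hdeg hwa hwb
  · have key : ∀ i j : ZMod 5, i ≠ j → j ≠ i + 1 → i ≠ j + 1 → j = i + 2 ∨ i = j + 2 := by
      decide
    rcases key i j hij0 hij1 hij2 with hj | hj
    · subst hj
      exact one5 hD hw i hdeg hwa hwb
    · subst hj
      exact one5 hD hw j hdeg hwb hwa

end Pool.Agent.Helper35.PM.D_ONE
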