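import Pool.Agent.Helper35.PM.St2

/-!
# Plane maps: module QUO
-/

set_option autoImplicit false

namespace Pool.Agent.Helper35.PM.D_QUO

open Pool.Agent.Helper35.PM

theorem main : StQuo := by
  classical
  rintro V W G H π p q hπ hinj hcom ⟨I', hI', hF'⟩
  refine ⟨π ⁻¹' I', fun a ha b hb hab => hI' _ ha _ hb (hπ _ _ hab), ?_⟩
  intro S hS hSne
  by_contra hcon
  push Not at hcon
  -- a subset `T` with two neighbours with different images is impossible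
  have key : ∀ T : Set V, T ⊆ S → T.Nonempty →
      (∀ x ∈ T, ∃ x' b c, π x' = π x ∧ b ∈ T ∧ c ∈ T ∧ H.Adj (π x') (π b) ∧
        H.Adj (π x') (π c) ∧ π b ≠ π c) → False := by
    intro T hTS hTne hT
    obtain ⟨a, ⟨x, hx, rfl⟩, ha⟩ := hF' (π '' T)
      (by rintro _ ⟨x, hx, rfl⟩; exact hS (hTS hx)) (hTne.image π)
    obtain ⟨x', b, c, h1, h2, h3, h4, h5, h6⟩ := hT x hx
    rw [h1] at h4 h5
    exact h6 (ha _ ⟨b, h2, rfl⟩ _ ⟨c, h3, rfl⟩ h4 h5)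
  by_cases hinS : Set.InjOn π S
  · refine key S subset_rfl hSne ?_
    intro x hx
    obtain ⟨b, hb, c, hc, hab, hac, hbc⟩ := hcon x hx
    exact ⟨x, b, c, rfl, hb, hc, hπ _ _ hab, hπ _ _ hac, fun h => hbc (hinS hb hc h)⟩
  · -- `p` and `q` are different elements of `S` with the same image
    have hpq : p ≠ q ∧ p ∈ S ∧ q ∈ S ∧ π p = π q := by
      unfold Set.InjOn at hinS
      push Not at hinS
      obtain ⟨a, ha, b, hb, hab, hne⟩ := hinS
      rcases hinj a b hab with h | ⟨rfl, rfl⟩ | ⟨rfl, rfl⟩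
      · exact absurd h hne
      · exact ⟨hne, ha, hb, hab⟩
      · exact ⟨hne.symm, hb, ha, hab.symm⟩
    obtain ⟨hne, hpS, hqS, hpqπ⟩ := hpq
    have hnadj : ¬ G.Adj p q := fun h => by
      have := hπ _ _ h
      rw [hpqπ] at this
      exact H.loopless.irrefl _ this
    -- images of vertices different from `p` and `q`
    have hdist : ∀ x y, x ≠ p → x ≠ q → x ≠ y → π x ≠ π y := by
      intro x y h1 h2 h3 h
      rcases hinj x y h with h4 | ⟨h4, _⟩ | ⟨h4, _⟩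
      · exact h3 h4
      · exact h1 h4
      · exact h2 h4
    let Dp : V → Prop := fun x => G.Adj p x ∧ G.Adj q x ∧ ∀ y ∈ S, G.Adj x y → y = p ∨ y = q
    let T : Set V := {x | x ∈ S ∧ ¬ Dp x}
    have hpT : p ∈ T := ⟨hpS, fun h => G.loopless.irrefl _ h.1⟩
    have hqT : q ∈ T := ⟨hqS, fun h => G.loopless.irrefl _ h.2.1⟩
    -- neighbours of `p`
    have hw : ∃ b c, b ∈ T ∧ c ∈ T ∧ H.Adj (π p) (π b) ∧ H.Adj (π p) (π c) ∧ π b ≠ π c := by
      obtain ⟨b1, hb1, c1, hc1, hpb, hpc, hbc1⟩ := hcon p hpS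
      obtain ⟨b2, hb2, c2, hc2, hqb, hqc, hbc2⟩ := hcon q hqS
      have hnp : ∀ x, G.Adj p x → x ≠ p ∧ x ≠ q := by
        intro x hx
        refine ⟨?_, ?_⟩
        · rintro rfl; exact G.loopless.irrefl _ hx
        · rintro rfl; exact hnadj hx
      have hnq : ∀ x, G.Adj q x → x ≠ p ∧ x ≠ q := by
        intro x hx
        refine ⟨?_, ?_⟩
        · rintro rfl; exact hnadj hx.symm
        · rintro rfl; exact G.loopless.irrefl _ hx
      by_cases h1 : ∃ x1, x1 ∈ T ∧ G.Adj p x1 ∧ ∃ x2, x2 ∈ T ∧ G.Adj p x2 ∧ x1 ≠ x2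
      · obtain ⟨x1, h1T, h1a, x2, h2T, h2a, h12⟩ := h1
        exact ⟨x1, x2, h1T, h2T, hπ _ _ h1a, hπ _ _ h2a,
          hdist _ _ (hnp _ h1a).1 (hnp _ h1a).2 h12⟩
      by_cases h2 : ∃ x1, x1 ∈ T ∧ G.Adj q x1 ∧ ∃ x2, x2 ∈ T ∧ G.Adj q x2 ∧ x1 ≠ x2
      · obtain ⟨x1, h1T, h1a, x2, h2T, h2a, h12⟩ := h2
        rw [hpqπ]
        exact ⟨x1, x2, h1T, h2T, hπ _ _ h1a, hπ _ _ h2a,
          hdist _ _ (hnq _ h1a).1 (hnq _ h1a).2 h12⟩
      -- an element of `Dp` and another neighbour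
      have e1 : ∃ c0 x1, Dp c0 ∧ x1 ∈ S ∧ G.Adj p x1 ∧ x1 ≠ c0 := by
        by_cases hb : Dp b1
        · exact ⟨b1, c1, hb, hc1, hpc, hbc1.symm⟩
        · by_cases hc : Dp c1
          · exact ⟨c1, b1, hc, hb1, hpb, hbc1⟩
          · exact absurd ⟨b1, ⟨hb1, hb⟩, hpb, c1, ⟨hc1, hc⟩, hpc, hbc1⟩ h1
      have e2 : ∃ c0 x1, Dp c0 ∧ x1 ∈ S ∧ G.Adj q x1 ∧ x1 ≠ c0 := by
        by_cases hb : Dp b2
        · exact ⟨b2, c2, hb, hc2, hqc, hbc2.symm⟩
        · by_cases hc : Dp c2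
          · exact ⟨c2, b2, hc, hb2, hqb, hbc2⟩
          · exact absurd ⟨b2, ⟨hb2, hb⟩, hqb, c2, ⟨hc2, hc⟩, hqc, hbc2⟩ h2
      obtain ⟨c0, x1, hc0, hx1, hpx1, hx1c⟩ := e1
      obtain ⟨c0', x2, hc0', hx2, hqx2, hx2c⟩ := e2
      have hcc : c0' = c0 := hcom _ _ hc0'.1 hc0'.2.1 hc0.1 hc0.2.1
      subst hcc
      have hx1T : x1 ∈ T := ⟨hx1, fun h => hx1c (hcom _ _ h.1 h.2.1 hc0.1 hc0.2.1)⟩
      have hx2T : x2 ∈ T := ⟨hx2, fun h => hx2c (hcom _ _ h.1 h.2.1 hc0.1 hc0.2.1)⟩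
      have hx12 : x1 ≠ x2 := by
        rintro rfl
        exact hx1c (hcom _ _ hpx1 hqx2 hc0.1 hc0.2.1)
      refine ⟨x1, x2, hx1T, hx2T, hπ _ _ hpx1, ?_, hdist _ _ (hnp _ hpx1).1 (hnp _ hpx1).2 hx12⟩
      rw [hpqπ]
      exact hπ _ _ hqx2
    refine key T (fun x hx => hx.1) ⟨p, hpT⟩ ?_
    rintro x ⟨hxS, hxD⟩
    by_cases hxp : π x = π p
    · obtain ⟨b, c, h1, h2, h3, h4, h5⟩ := hw
      exact ⟨p, b, c, hxp.symm, h1, h2, h3, h4, h5⟩
    · have hxp' : x ≠ p := fun h => hxp (by rw [h])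
      have hxq' : x ≠ q := fun h => hxp (by rw [h, hpqπ])
      have hnT : ∀ y ∈ S, G.Adj x y → y ∈ T := by
        intro y hy hxy
        refine ⟨hy, fun h => ?_⟩
        rcases h.2.2 x hxS hxy.symm with h | h
        · exact hxp' h
        · exact hxq' h
      obtain ⟨b, hb, c, hc, hab, hac, hbc⟩ := hcon x hxS
      by_cases himg : π b = π c
      · have hadj : G.Adj x p ∧ G.Adj x q := by
          rcases hinj b c himg with h | ⟨rfl, rfl⟩ | ⟨rfl, rfl⟩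
          · exact absurd h hbc
          · exact ⟨hab, hac⟩
          · exact ⟨hac, hab⟩
        have hy : ∃ y ∈ S, G.Adj x y ∧ y ≠ p ∧ y ≠ q := by
          by_contra hno
          push Not at hno
          apply hxD
          refine ⟨hadj.1.symm, hadj.2.symm, fun y hy hxy => ?_⟩
          by_cases h : y = p
          · exact Or.inl h
          · exact Or.inr (hno y hy hxy h)
        obtain ⟨y, hyS, hxy, hyp, hyq⟩ := hy
        exact ⟨x, y, p, rfl, hnT y hyS hxy, hpT, hπ _ _ hxy, hπ _ _ hadj.1,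
          hdist _ _ hyp hyq hyp⟩
      · exact ⟨x, b, c, rfl, hnT b hb hab, hnT c hc hac, hπ _ _ hab, hπ _ _ hac, himg⟩

end Pool.Agent.Helper35.PM.D_QUO
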