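import Pool.Agent.Helper35.PM.St2

/-!
# Reversing a cycle, chords of short cycles, vertices off a cycle
-/

set_option autoImplicit false

namespace Pool.Agent.Helper35.PM.D_REV

open Equiv Equiv.Perm

theorem main : StRev := by
  intro V G R m v y
  have h11 : ∀ z : ZMod 2, z = 1 → z + 1 = 0 := by decide
  have h00 : ∀ z : ZMod 2, z = 0 → z + 1 = 1 := by decide
  have hi : ∀ i : ZMod m, -(-i - 1) = i + 1 := fun i => by ring
  have hi' : ∀ i : ZMod m, -(-i - 1 + 1) = i := fun i => by ring
  have hj : ∀ j : ZMod m, -(j + 1) + 1 = -j := fun j => by ring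
  constructor
  · intro h
    refine ⟨?_, ?_⟩
    · intro i j hij
      exact neg_injective (h.inj hij)
    · intro j
      have h1 := (h.adj (-(j + 1))).symm
      rw [hj] at h1
      exact h1
  · intro h
    refine ⟨?_, ?_, ?_, ?_⟩
    · intro d
      show y (R.φ d) + 1 = y d + 1
      rw [h.face]
    · intro d hd
      have h1 := h.off d (fun i => by
        have h2 := hd (-i - 1)
        simp only [hi, hi'] at h2
        exact ⟨h2.2, h2.1⟩)
      show y d.symm + 1 = y d + 1 ∧ y (R.r d) + 1 = y d + 1
      rw [h1.1, h1.2]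
      exact ⟨rfl, rfl⟩
    · intro d j hd
      apply h11
      apply h.on1 d (-(j + 1))
      rw [hj]
      exact hd
    · intro d j hd
      apply h00
      apply h.on0 d (-(j + 1))
      rw [hj]
      exact hd

theorem chord : StChord := by
  intro V G m v hTF hm hC i j hij
  rcases hm with rfl | rfl
  · have key : ∀ i j : ZMod 4, j = i ∨ j = i + 1 ∨ j = i + 1 + 1 ∨ i = j + 1 := by decide
    rcases key i j with h | h | h | h
    · subst h
      exact absurd hij (G.irrefl)
    · exact Or.inl h
    · subst h
      exact (hTF _ _ _ (hC.adj i) (hC.adj (i + 1)) hij).elim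
    · exact Or.inr h
  · have key : ∀ i j : ZMod 5, j = i ∨ j = i + 1 ∨ j = i + 1 + 1 ∨ i = j + 1 + 1 ∨ i = j + 1 := by
      decide
    rcases key i j with h | h | h | h | h
    · subst h
      exact absurd hij (G.irrefl)
    · exact Or.inl h
    · subst h
      exact (hTF _ _ _ (hC.adj i) (hC.adj (i + 1)) hij).elim
    · subst h
      exact (hTF _ _ _ (hC.adj j) (hC.adj (j + 1)) hij.symm).elim
    · exact Or.inr h

theorem offv : StOffV := by
  intro V _ G R m v y h w hw d d' hd hd'
  have : Finite G.Dart :=
    Finite.of_injective (fun e : G.Dart => e.toProd) (fun e f hef => SimpleGraph.Dart.ext _ _ hef)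
  obtain ⟨k, hk⟩ := (R.trans d d' (hd.trans hd'.symm)).exists_nat_pow_eq
  have key : ∀ n : ℕ, ((R.r ^ n) d).fst = w ∧ y ((R.r ^ n) d) = y d := by
    intro n
    induction n with
    | zero => exact ⟨hd, rfl⟩
    | succ n ih =>
      rw [pow_succ', Perm.mul_apply]
      refine ⟨by rw [R.fst_r, ih.1], ?_⟩
      rw [(h.off ((R.r ^ n) d) ?_).2, ih.2]
      intro j
      refine ⟨?_, ?_⟩
      · intro he
        apply hw
        refine ⟨j, ?_⟩
        rw [← ih.1]
        exact (congrArg Prod.fst he).symm
      · intro he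
        apply hw
        refine ⟨j + 1, ?_⟩
        rw [← ih.1]
        exact (congrArg Prod.fst he).symm
  rw [← hk, (key k).2]

end Pool.Agent.Helper35.PM.D_REV
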