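import Pool.Agent.Helper35.PM.St2

/-!
# Plane maps: module SHORT (some face has length at most five)
-/

set_option autoImplicit false

namespace Pool.Agent.Helper35.PM.D_SHORT

open Equiv Equiv.Perm Pool.Agent.Helper35.PM

theorem main (hConn : StConn) (hDeg : StDeg) (hEul : StEul) : StShortFace := by
  classical
  intro V _ G hG R
  by_contra hcon
  push Not at hcon
  -- the graph has at least two vertices
  obtain ⟨v0⟩ : Nonempty V := by
    by_contra hV
    rw [not_nonempty_iff] at hV
    exact hG.nnb ⟨∅, fun a => hV.elim a, fun S _ hS => hV.elim hS.some⟩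
  obtain ⟨c0, hc0, hc0v, _⟩ := hDeg V G hG v0 v0 v0
  have hcard : 2 ≤ Fintype.card V := by
    have : Nontrivial V := ⟨⟨c0, v0, hc0v⟩⟩
    exact Fintype.one_lt_card
  have hE := hEul V G R (hConn V G hG) hcard
  -- degrees
  have hdeg : ∀ v, 3 ≤ G.degree v := by
    intro v
    obtain ⟨c1, h1, h1v, _⟩ := hDeg V G hG v v v
    obtain ⟨c2, h2, h21, _⟩ := hDeg V G hG v c1 c1
    obtain ⟨c3, h3, h31, h32⟩ := hDeg V G hG v c1 c2
    have hsub : ({c1, c2, c3} : Finset V) ⊆ G.neighborFinset v := by
      intro x hx
      simp only [Finset.mem_insert, Finset.mem_singleton] at hx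
      rw [SimpleGraph.mem_neighborFinset]
      rcases hx with rfl | rfl | rfl
      · exact h1
      · exact h2
      · exact h3
    have hc : ({c1, c2, c3} : Finset V).card = 3 :=
      Finset.card_eq_three.2 ⟨c1, c2, c3, h21.symm, h31.symm, h32.symm, rfl⟩
    rw [← hc, ← SimpleGraph.card_neighborFinset_eq_degree]
    exact Finset.card_le_card hsub
  have hV : 3 * Fintype.card V ≤ 2 * G.edgeFinset.card := by
    rw [← G.sum_degrees_eq_twice_card_edges]
    calc 3 * Fintype.card V = ∑ _v : V, 3 := by simp [mul_comm]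
      _ ≤ ∑ v : V, G.degree v := Finset.sum_le_sum fun v _ => hdeg v
  -- faces
  have hF : 6 * Nat.card (Quotient (SameCycle.setoid R.φ)) ≤ 2 * G.edgeFinset.card := by
    rw [← G.dart_card_eq_twice_card_edges, Nat.card_eq_fintype_card, ← Finset.card_univ,
      ← Finset.card_univ]
    refine Finset.mul_card_image_le_card_of_maps_to
      (f := fun d : G.Dart => (Quotient.mk (SameCycle.setoid R.φ) d)) (fun d _ => Finset.mem_univ _)
      6 ?_
    intro c _
    obtain ⟨d, rfl⟩ := Quotient.exists_rep c
    have h6 : 6 ≤ Function.minimalPeriod R.φ d := by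
      have := hcon d
      omega
    have himg : (Finset.range 6).image (fun k => (R.φ ^ k) d) ⊆
        Finset.univ.filter (fun a : G.Dart => Quotient.mk (SameCycle.setoid R.φ) a =
          Quotient.mk (SameCycle.setoid R.φ) d) := by
      intro x hx
      rw [Finset.mem_image] at hx
      obtain ⟨k, _, rfl⟩ := hx
      rw [Finset.mem_filter]
      refine ⟨Finset.mem_univ _, Quotient.sound ?_⟩
      show R.φ.SameCycle ((R.φ ^ k) d) d
      exact (sameCycle_pow_left).2 (SameCycle.refl _ _)
    have hinj : ((Finset.range 6).image (fun k => (R.φ ^ k) d)).card = 6 := by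
      rw [Finset.card_image_of_injOn, Finset.card_range]
      intro i hi j hj hij
      have hi' : i < 6 := by simpa using hi
      have hj' : j < 6 := by simpa using hj
      have hij' : (R.φ)^[i] d = (R.φ)^[j] d := by
        rw [Equiv.Perm.iterate_eq_pow, Equiv.Perm.iterate_eq_pow]
        exact hij
      exact Function.iterate_injOn_Iio_minimalPeriod (lt_of_lt_of_le hi' h6)
        (lt_of_lt_of_le hj' h6) hij'
    rw [← hinj]
    exact Finset.card_le_card himg
  have hV' : (3 : ℤ) * Fintype.card V ≤ 2 * G.edgeFinset.card := by exact_mod_cast hV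
  have hF' : (6 : ℤ) * Nat.card (Quotient (SameCycle.setoid R.φ)) ≤ 2 * G.edgeFinset.card := by
    exact_mod_cast hF
  linarith

end Pool.Agent.Helper35.PM.D_SHORT
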