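import Pool.Agent.Helper35.PM.St

/-!
# Module CUT: cutting along a cycle
-/

set_option autoImplicit false

namespace Pool.Agent.Helper35.PM.M_CUT

open Equiv Equiv.Perm

theorem main : StCut := by
  classical
  intro V _ G R m _ v hm hv hadj y hφ hoff hon H hH
  have _ := Fintype.ofFinite V
  have _ : Fintype G.Dart := Fintype.ofFinite _
  have hle : ∀ a b, H.Adj a b → G.Adj a b := fun a b h => ((hH a b).1 h).1
  let c : H.Dart → G.Dart := fun d => ⟨(d.fst, d.snd), hle _ _ d.adj⟩
  have hcp : ∀ d : H.Dart, (c d).toProd = d.toProd := fun d => rfl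
  have hc : Function.Injective c := by
    intro d d' h
    have h1 := congrArg SimpleGraph.Dart.toProd h
    exact SimpleGraph.Dart.ext _ _ h1
  obtain ⟨R', -, hB, hC⟩ := R.map.exists_rot (G := H) id Function.injective_id c hc
    (fun d => rfl) (fun d => rfl)
  -- darts of side 1 are darts of `H`
  have hone : ∀ e : G.Dart, y e = 1 → ∃ d : H.Dart, c d = e := by
    intro e he
    have h : H.Adj e.fst e.snd := (hH _ _).2 ⟨e.adj, Or.inl he⟩
    exact ⟨⟨(e.fst, e.snd), h⟩, rfl⟩
  have hcyc : ∀ j, ∃ d : H.Dart, c d = ⟨(v j, v (j + 1)), hadj j⟩ := by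
    intro j
    have h : H.Adj (v j) (v (j + 1)) := (hH _ _).2 ⟨hadj j, Or.inr ⟨j, rfl, rfl⟩⟩
    exact ⟨⟨(v j, v (j + 1)), h⟩, rfl⟩
  refine ⟨R', ?_, ?_⟩
  · intro j d hd
    obtain ⟨k, hk1, hk2⟩ := hC d.symm
    have hsym : c d.symm = ⟨(v (j + 1), v j), (hadj j).symm⟩ := by
      apply SimpleGraph.Dart.ext
      show (d.snd, d.fst) = (v (j + 1), v j)
      have h1 : d.fst = v j := congrArg Prod.fst hd
      have h2 : d.snd = v (j + 1) := congrArg Prod.snd hd
      rw [h1, h2]
    have hy : ∀ i, i ≤ k → y ((R.r ^ (i + 1)) (c d.symm)) = 0 := by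
      intro i
      induction i with
      | zero =>
        intro _
        rw [zero_add, pow_one, hsym]
        have h1 := hφ ⟨(v j, v (j + 1)), hadj j⟩
        rw [(hon j).1] at h1
        exact h1
      | succ i ih =>
        intro hi
        have h1 := ih (by omega)
        have h2 : (R.r ^ (i + 1)) (c d.symm) ∉ Set.range c := hk2 i (by omega)
        rw [pow_succ', Perm.mul_apply, (hoff _ ?_).2, h1]
        intro j'
        constructor
        · intro h3
          obtain ⟨d', hd'⟩ := hcyc j'
          exact h2 ⟨d', by rw [hd', h3]⟩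
        · intro h3
          obtain ⟨d', hd'⟩ := hone _ (hon j').2
          exact h2 ⟨d', by rw [hd', h3]⟩
    have hy0 := hy k le_rfl
    have hk1' : c (R'.r d.symm) = (R.r ^ (k + 1)) (c d.symm) := hk1
    rw [← hk1'] at hy0
    have hadj' := (hH _ _).1 (R'.r d.symm).adj
    have hfst : (R'.r d.symm).fst = v (j + 1) := by
      rw [R'.fst_r]
      exact congrArg Prod.snd hd
    obtain ⟨h1, h2 | ⟨j', h2, h3⟩⟩ := hadj'
    · exfalso
      have h4 : y (c (R'.r d.symm)) = 1 := h2
      rw [hy0] at h4
      exact absurd h4 (by decide)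
    · have h4 : j' = j + 1 := hv (by rw [← h2, hfst])
      show (R'.r d.symm).toProd = _
      apply Prod.ext
      · exact hfst
      · show (R'.r d.symm).snd = v (j + 1 + 1)
        rw [h3, h4]
  · intro d e he hye
    have hcd : c d = e := SimpleGraph.Dart.ext _ _ he.symm
    obtain ⟨d', hd'⟩ := hone (R.φ e) (by rw [hφ, hye])
    have h1 : R'.φ d = d' := by
      apply hB
      rw [hcd, hd']
      rfl
    rw [h1, ← hd']

end Pool.Agent.Helper35.PM.M_CUT
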