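import Pool.Agent.Helper35.PM.St

/-!
# Euler's formula for connected plane graphs
-/

set_option autoImplicit false
set_option linter.unusedSectionVars false

namespace Pool.Agent.Helper35.PM.M_EUL

open Equiv Equiv.Perm

section

variable {V : Type} [Fintype V] [DecidableEq V] {G : SimpleGraph V} [DecidableRel G.Adj]

/-- the value of an edge function at a dart -/
def xd (x : G.edgeSet → ZMod 2) (d : G.Dart) : ZMod 2 := x ⟨d.edge, d.edge_mem⟩

theorem xd_symm (x : G.edgeSet → ZMod 2) (d : G.Dart) : xd x d.symm = xd x d := by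
  unfold xd
  congr 1
  apply Subtype.ext
  exact SimpleGraph.Dart.edge_symm d

/-- the boundary map -/
def del (G : SimpleGraph V) [DecidableRel G.Adj] : (G.edgeSet → ZMod 2) →ₗ[ZMod 2] (V → ZMod 2) where
  toFun x v := ∑ d ∈ Finset.univ.filter (fun d : G.Dart => d.fst = v), xd x d
  map_add' x y := by
    funext v
    rw [Pi.add_apply, ← Finset.sum_add_distrib]
    rfl
  map_smul' c x := by
    funext v
    rw [Pi.smul_apply, RingHom.id_apply, smul_eq_mul, Finset.mul_sum]
    rfl

theorem del_apply (x : G.edgeSet → ZMod 2) (v : V) :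
    del G x v = ∑ d ∈ Finset.univ.filter (fun d : G.Dart => d.fst = v), xd x d := rfl

/-- the sum -/
def sm (V : Type) [Fintype V] : (V → ZMod 2) →ₗ[ZMod 2] ZMod 2 where
  toFun f := ∑ v, f v
  map_add' x y := by
    simp only [Pi.add_apply, Finset.sum_add_distrib]
  map_smul' c x := by
    simp only [Pi.smul_apply, RingHom.id_apply, smul_eq_mul, Finset.mul_sum]

theorem sm_apply (f : V → ZMod 2) : sm V f = ∑ v, f v := rfl

theorem sum_darts (x : G.edgeSet → ZMod 2) : ∑ d : G.Dart, xd x d = 0 := by
  refine Finset.sum_involution (fun d _ => d.symm) ?_ ?_ ?_ ?_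
  · intro d _
    rw [xd_symm]
    exact zadd_self _
  · intro d _ _
    exact d.symm_ne
  · intro d _
    exact Finset.mem_univ _
  · intro d _
    exact d.symm_symm

theorem edge_mem_range (d : G.Dart) :
    (Pi.single d.fst 1 + Pi.single d.snd 1 : V → ZMod 2) ∈ LinearMap.range (del G) := by
  refine ⟨Pi.single ⟨d.edge, d.edge_mem⟩ 1, ?_⟩
  funext v
  rw [del_apply]
  have h1 : ∀ e : G.Dart, xd (Pi.single ⟨d.edge, d.edge_mem⟩ 1) e =
      if e = d ∨ e = d.symm then 1 else 0 := by
    intro e
    unfold xd
    rw [Pi.single_apply]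
    congr 1
    rw [Subtype.mk.injEq, SimpleGraph.dart_edge_eq_iff]
  rw [Finset.sum_congr rfl (fun e _ => h1 e), Finset.sum_ite, Finset.sum_const_zero, add_zero,
    Finset.sum_const, nsmul_eq_mul, mul_one]
  have hne : d.fst ≠ d.snd := d.fst_ne_snd
  by_cases hv1 : v = d.fst
  · have h2 : (Finset.univ.filter (fun e : G.Dart => e.fst = v)).filter
        (fun e => e = d ∨ e = d.symm) = {d} := by
      ext e
      simp only [Finset.mem_filter, Finset.mem_univ, true_and, Finset.mem_singleton]
      constructor
      · rintro ⟨h3, h4 | h4⟩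
        · exact h4
        · exfalso
          rw [h4, hv1] at h3
          exact hne h3.symm
      · rintro rfl
        exact ⟨hv1.symm, Or.inl rfl⟩
    rw [h2, Finset.card_singleton, Pi.add_apply, hv1, Pi.single_eq_same,
      Pi.single_eq_of_ne hne, Nat.cast_one, add_zero]
  · by_cases hv2 : v = d.snd
    · have h2 : (Finset.univ.filter (fun e : G.Dart => e.fst = v)).filter
          (fun e => e = d ∨ e = d.symm) = {d.symm} := by
        ext e
        simp only [Finset.mem_filter, Finset.mem_univ, true_and, Finset.mem_singleton]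
        constructor
        · rintro ⟨h3, h4 | h4⟩
          · exfalso
            rw [h4] at h3
            exact hv1 h3.symm
          · exact h4
        · rintro rfl
          exact ⟨hv2.symm, Or.inr rfl⟩
      rw [h2, Finset.card_singleton, Pi.add_apply, hv2, Pi.single_eq_same,
        Pi.single_eq_of_ne (Ne.symm hne), Nat.cast_one, zero_add]
    · have h2 : (Finset.univ.filter (fun e : G.Dart => e.fst = v)).filter
          (fun e => e = d ∨ e = d.symm) = ∅ := by
        ext e
        simp only [Finset.mem_filter, Finset.mem_univ, true_and, Finset.notMem_empty, iff_false]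
        rintro ⟨h3, h4 | h4⟩
        · rw [h4] at h3
          exact hv1 h3.symm
        · rw [h4] at h3
          exact hv2 h3.symm
      rw [h2, Finset.card_empty, Pi.add_apply, Pi.single_eq_of_ne hv1,
        Pi.single_eq_of_ne hv2, Nat.cast_zero, add_zero]

theorem walk_mem_range {a b : V} (p : G.Walk a b) :
    (Pi.single a 1 + Pi.single b 1 : V → ZMod 2) ∈ LinearMap.range (del G) := by
  induction p with
  | @nil a =>
    have : (Pi.single a 1 + Pi.single a 1 : V → ZMod 2) = 0 := by
      funext v
      rw [Pi.add_apply]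
      exact zadd_self _
    rw [this]
    exact Submodule.zero_mem _
  | @cons a c b h p ih =>
    have h1 := edge_mem_range (G := G) ⟨(a, c), h⟩
    have h2 := Submodule.add_mem _ h1 ih
    have h3 : (Pi.single a 1 + Pi.single b 1 : V → ZMod 2) =
        (Pi.single a 1 + Pi.single c 1) + (Pi.single c 1 + Pi.single b 1) := by
      have h4 : (Pi.single c 1 + Pi.single c 1 : V → ZMod 2) = 0 := by
        funext v
        rw [Pi.add_apply]
        exact zadd_self _
      calc (Pi.single a 1 + Pi.single b 1 : V → ZMod 2) =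
          Pi.single a 1 + (Pi.single c 1 + Pi.single c 1) + Pi.single b 1 := by
            rw [h4, add_zero]
        _ = _ := by abel
    rw [h3]
    exact h2

theorem range_del (hG : G.Connected) : LinearMap.range (del G) = LinearMap.ker (sm V) := by
  apply le_antisymm
  · rintro _ ⟨x, rfl⟩
    rw [LinearMap.mem_ker, sm_apply]
    simp only [del_apply]
    rw [Finset.sum_fiberwise]
    exact sum_darts x
  · intro f hf
    rw [LinearMap.mem_ker, sm_apply] at hf
    obtain ⟨v0⟩ := hG.nonempty
    have h1 : f = ∑ v, f v • (Pi.single v 1 + Pi.single v0 1 : V → ZMod 2) := by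
      funext w
      simp only [Finset.sum_apply, Pi.smul_apply, Pi.add_apply, smul_eq_mul, mul_add,
        Finset.sum_add_distrib]
      rw [← Finset.sum_mul, hf, zero_mul, add_zero]
      simp [Pi.single_apply]
    rw [h1]
    refine Submodule.sum_mem _ fun v _ => Submodule.smul_mem _ _ ?_
    obtain ⟨p⟩ := hG.preconnected v v0
    exact walk_mem_range p

theorem finrank_ker_sm [Nonempty V] :
    Module.finrank (ZMod 2) (LinearMap.ker (sm V)) + 1 = Fintype.card V := by
  have h1 := LinearMap.finrank_range_add_finrank_ker (sm V)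
  have h2 : LinearMap.range (sm V) = ⊤ := by
    rw [LinearMap.range_eq_top]
    intro c
    refine ⟨Pi.single (Classical.arbitrary V) c, ?_⟩
    rw [sm_apply, Finset.sum_pi_single']
    simp
  rw [h2, finrank_top, Module.finrank_self, Module.finrank_fintype_fun_eq_card] at h1
  omega

theorem finrank_ker_del (hG : G.Connected) :
    Module.finrank (ZMod 2) (LinearMap.ker (del G)) + Fintype.card V =
      Fintype.card G.edgeSet + 1 := by
  have := hG.nonempty
  have h1 := LinearMap.finrank_range_add_finrank_ker (del G)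
  have h2 := finrank_ker_sm (V := V)
  rw [range_del hG, Module.finrank_fintype_fun_eq_card] at h1
  omega

/-- a dart of every edge -/
theorem exists_dart (e : G.edgeSet) : ∃ d : G.Dart, d.edge = e.1 := by
  obtain ⟨e, he⟩ := e
  induction e using Sym2.ind with
  | _ a b => exact ⟨⟨(a, b), he⟩, rfl⟩

/-- the faces -/
abbrev Fc (R : Rot G) : Type := Quotient (SameCycle.setoid R.φ)

/-- the coboundary map -/
noncomputable def Del (R : Rot G) : (Fc R → ZMod 2) →ₗ[ZMod 2] (G.edgeSet → ZMod 2) where
  toFun y e := y (Quotient.mk _ (exists_dart e).choose) +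
    y (Quotient.mk _ (exists_dart e).choose.symm)
  map_add' x y := by
    funext e
    simp only [Pi.add_apply]
    ring
  map_smul' c x := by
    funext e
    simp only [Pi.smul_apply, RingHom.id_apply, smul_eq_mul]
    ring

theorem xd_Del (R : Rot G) (y : Fc R → ZMod 2) (d : G.Dart) :
    xd (Del R y) d = y (Quotient.mk _ d) + y (Quotient.mk _ d.symm) := by
  unfold xd
  show y (Quotient.mk _ (exists_dart ⟨d.edge, d.edge_mem⟩).choose) +
    y (Quotient.mk _ (exists_dart ⟨d.edge, d.edge_mem⟩).choose.symm) = _
  have h := (exists_dart (⟨d.edge, d.edge_mem⟩ : G.edgeSet)).choose_spec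
  rcases (SimpleGraph.dart_edge_eq_iff _ _).1 h with h1 | h1
  · rw [h1]
  · rw [h1, SimpleGraph.Dart.symm_symm, add_comm]

theorem mk_r (R : Rot G) (d : G.Dart) :
    (Quotient.mk (SameCycle.setoid R.φ) (R.r d)) = Quotient.mk _ d.symm := by
  apply Quotient.sound
  show R.φ.SameCycle (R.r d) d.symm
  have h : R.φ d.symm = R.r d := by
    rw [Rot.φ_apply, SimpleGraph.Dart.symm_symm]
  rw [← h]
  exact (sameCycle_apply_left).2 (SameCycle.refl _ _)

theorem const_r {R : Rot G} {y : G.Dart → ZMod 2} (h : ∀ d, y (R.r d) = y d) {d d' : G.Dart}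
    (hd : R.r.SameCycle d d') : y d = y d' := by
  obtain ⟨k, hk⟩ := hd.exists_nat_pow_eq
  rw [← hk]
  clear hk
  induction k with
  | zero => simp
  | succ k ih => rw [pow_succ', Perm.mul_apply, h, ih]

theorem ker_Del (hG : G.Connected) (R : Rot G) (y : Fc R → ZMod 2) (hy : Del R y = 0) :
    ∀ q q', y q = y q' := by
  have h1 : ∀ d : G.Dart, y (Quotient.mk _ d.symm) = y (Quotient.mk _ d) := by
    intro d
    have h2 := xd_Del R y d
    rw [hy] at h2
    have h3 : y (Quotient.mk _ d) + y (Quotient.mk _ d.symm) = 0 := h2.symm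
    generalize y (Quotient.mk _ d) = p at *
    generalize y (Quotient.mk _ d.symm) = q at *
    clear h2
    revert p q
    decide
  have h2 : ∀ d : G.Dart, y (Quotient.mk _ (R.r d)) = y (Quotient.mk _ d) := by
    intro d
    rw [mk_r, h1]
  have h3 : ∀ d d' : G.Dart, d.fst = d'.fst → y (Quotient.mk _ d) = y (Quotient.mk _ d') :=
    fun d d' h => const_r (R := R) (y := fun d => y (Quotient.mk _ d)) h2 (R.trans d d' h)
  have h4 : ∀ (a b : V), G.Walk a b → ∀ d d' : G.Dart, d.fst = a → d'.fst = b →
      y (Quotient.mk _ d) = y (Quotient.mk _ d') := by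
    intro a b p
    induction p with
    | nil =>
      intro d d' hd hd'
      exact h3 d d' (hd.trans hd'.symm)
    | @cons a c b h p ih =>
      intro d d' hd hd'
      rw [h3 d ⟨(a, c), h⟩ hd, ← h1]
      exact ih _ d' rfl hd'
  intro q q'
  induction q using Quotient.ind
  induction q' using Quotient.ind
  rename_i d d'
  obtain ⟨p⟩ := hG.preconnected d.fst d'.fst
  exact h4 _ _ p d d' rfl rfl

theorem finrank_ker_Del (hG : G.Connected) (R : Rot G) (hn : Nonempty (Fc R)) :
    Module.finrank (ZMod 2) (LinearMap.ker (Del R)) = 1 := by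
  obtain ⟨q0⟩ := hn
  have h1 : (fun _ => 1 : Fc R → ZMod 2) ∈ LinearMap.ker (Del R) := by
    rw [LinearMap.mem_ker]
    funext e
    show (1 : ZMod 2) + 1 = 0
    exact zadd_self _
  refine finrank_eq_one (⟨_, h1⟩ : LinearMap.ker (Del R)) ?_ ?_
  · intro h
    have h2 := congrArg (fun z : LinearMap.ker (Del R) => z.1 q0) h
    exact one_ne_zero h2
  · rintro ⟨y, hy⟩
    refine ⟨y q0, ?_⟩
    apply Subtype.ext
    funext q
    show y q0 • (1 : ZMod 2) = y q
    rw [smul_eq_mul, mul_one]
    exact ker_Del hG R y hy q0 q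

theorem range_Del (hPot : StPot) (R : Rot G) :
    LinearMap.range (Del R) = LinearMap.ker (del G) := by
  apply le_antisymm
  · rintro _ ⟨y, rfl⟩
    rw [LinearMap.mem_ker]
    funext v
    rw [del_apply, Finset.sum_congr rfl (fun d _ => xd_Del R y d), Finset.sum_add_distrib]
    have h1 : ∑ d ∈ Finset.univ.filter (fun d : G.Dart => d.fst = v), y (Quotient.mk _ d.symm) =
        ∑ d ∈ Finset.univ.filter (fun d : G.Dart => d.fst = v), y (Quotient.mk _ d) := by
      refine Finset.sum_equiv R.r ?_ ?_
      · intro d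
        simp only [Finset.mem_filter, Finset.mem_univ, true_and, R.fst_r]
      · intro d _
        rw [mk_r]
    rw [h1]
    exact zadd_self _
  · intro x hx
    rw [LinearMap.mem_ker] at hx
    obtain ⟨u, hu⟩ := hPot V G.Dart R.map (xd x) (by
      intro v
      have := congrFun hx v
      rw [del_apply] at this
      exact this)
    obtain ⟨y, hy1, hy2⟩ := R.pl (xd x) u (xd_symm x) hu
    have h1 : ∀ d, y (R.φ d) = y d := by
      intro d
      rw [Rot.φ_apply, hy1, hy2, xd_symm, zadd_self']
    have h2 : ∀ d d', R.φ.SameCycle d d' → y d = y d' := by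
      intro d d' hd
      obtain ⟨k, hk⟩ := hd.exists_nat_pow_eq
      rw [← hk]
      clear hk
      induction k with
      | zero => simp
      | succ k ih => rw [pow_succ', Perm.mul_apply, h1, ih]
    refine ⟨Quotient.lift y h2, ?_⟩
    funext e
    obtain ⟨d, hd⟩ := exists_dart e
    have h3 : e = ⟨d.edge, d.edge_mem⟩ := Subtype.ext hd.symm
    have h4 := xd_Del R (Quotient.lift y h2) d
    rw [h3]
    show xd (Del R (Quotient.lift y h2)) d = xd x d
    rw [h4]
    show y d + y d.symm = xd x d
    rw [hy2, ← add_assoc, zadd_self, zero_add]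

end

theorem main (hPot : StPot) : StEul := by
  intro V _ _ G _ R hG hV
  classical
  have : Fintype (Fc R) := Fintype.ofFinite _
  have : Nontrivial V := Fintype.one_lt_card_iff_nontrivial.1 hV
  have hn : Nonempty (Fc R) := by
    obtain ⟨v⟩ := hG.nonempty
    obtain ⟨w, hw⟩ := hG.preconnected.exists_adj_of_nontrivial v
    exact ⟨Quotient.mk _ ⟨(v, w), hw⟩⟩
  have h1 := LinearMap.finrank_range_add_finrank_ker (Del R)
  rw [range_Del hPot R, finrank_ker_Del hG R hn, Module.finrank_fintype_fun_eq_card] at h1
  have h2 := finrank_ker_del hG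
  have h3 : G.edgeFinset.card = Fintype.card G.edgeSet := by
    rw [SimpleGraph.edgeFinset, Set.toFinset_card]
  have h4 : Nat.card (Fc R) = Fintype.card (Fc R) := Nat.card_eq_fintype_card
  rw [h3, h4]
  omega

end Pool.Agent.Helper35.PM.M_EUL
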