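import Pool.Agent.Helper35.PM.St

/-!
# The square grid is planar
-/

set_option autoImplicit false

namespace Pool.Agent.Helper35.PM.M_GRID

open Equiv Equiv.Perm

/-- grid points -/
abbrev Pt (n : ℕ) : Type := Fin n × Fin n

/-- the neighbour in direction `i` (east, north, west, south) -/
def nb {n : ℕ} (p : Pt n) (i : Fin 4) : Option (Pt n) :=
  match i with
  | 0 => if h : p.1.val + 1 < n then some (⟨p.1.val + 1, h⟩, p.2) else none
  | 1 => if h : p.2.val + 1 < n then some (p.1, ⟨p.2.val + 1, h⟩) else none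
  | 2 => if 0 < p.1.val then some (⟨p.1.val - 1, by omega⟩, p.2) else none
  | 3 => if 0 < p.2.val then some (p.1, ⟨p.2.val - 1, by omega⟩) else none

theorem nb_inv {n : ℕ} (p q : Pt n) (i : Fin 4) (h : nb p i = some q) : nb q (i + 2) = some p := by
  obtain ⟨⟨a, ha⟩, ⟨b, hb⟩⟩ := p
  fin_cases i
  · simp only [nb] at h
    split_ifs at h with h1
    simp only [Option.some.injEq] at h
    subst h
    simp [nb]
  · simp only [nb] at h
    split_ifs at h with h1
    simp only [Option.some.injEq] at h
    subst h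
    simp [nb]
  · simp only [nb] at h
    split_ifs at h with h1
    simp only [Option.some.injEq] at h
    subst h
    have h2 : a - 1 + 1 = a := by omega
    simp [nb, h2, ha]
  · simp only [nb] at h
    split_ifs at h with h1
    simp only [Option.some.injEq] at h
    subst h
    have h2 : b - 1 + 1 = b := by omega
    simp [nb, h2, hb]

/-- darts, with a fringe -/
abbrev Dt (n : ℕ) : Type := (Pt n × Fin 4) × Bool

/-- the edge involution -/
def io {n : ℕ} (d : Dt n) : Dt n :=
  match nb d.1.1 d.1.2 with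
  | some q => ((q, d.1.2 + 2), d.2)
  | none => (d.1, !d.2)

theorem io_some {n : ℕ} {p q : Pt n} {i : Fin 4} (c : Bool) (h : nb p i = some q) :
    io ((p, i), c) = ((q, i + 2), c) := by
  simp only [io, h]

theorem io_none {n : ℕ} {p : Pt n} {i : Fin 4} (c : Bool) (h : nb p i = none) :
    io ((p, i), c) = ((p, i), !c) := by
  simp only [io, h]

theorem add_four (i : Fin 4) : i + 2 + 2 = i := by
  fin_cases i <;> rfl

theorem io_inv {n : ℕ} : Function.Involutive (io : Dt n → Dt n) := by
  rintro ⟨⟨p, i⟩, c⟩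
  rcases h : nb p i with _ | q
  · rw [io_none c h, io_none _ h, Bool.not_not]
  · rw [io_some c h, io_some c (nb_inv p q i h), add_four]

/-- the rotation -/
def rot (n : ℕ) : Perm (Dt n) where
  toFun d := if d.2 then d else ((d.1.1, d.1.2 + 1), false)
  invFun d := if d.2 then d else ((d.1.1, d.1.2 - 1), false)
  left_inv := by
    rintro ⟨⟨p, i⟩, c⟩
    cases c <;> simp
  right_inv := by
    rintro ⟨⟨p, i⟩, c⟩
    cases c <;> simp

theorem rot_false {n : ℕ} (p : Pt n) (i : Fin 4) :
    rot n ((p, i), false) = ((p, i + 1), false) := rfl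

theorem rot_true {n : ℕ} (p : Pt n) (i : Fin 4) :
    rot n ((p, i), true) = ((p, i), true) := rfl

theorem rot_pow {n : ℕ} (p : Pt n) (i : Fin 4) (k : ℕ) :
    ((rot n) ^ k) ((p, i), false) = ((p, i + Fin.ofNat 4 k), false) := by
  induction k with
  | zero => simp
  | succ k ih =>
    rw [pow_succ', Perm.mul_apply, ih, rot_false]
    congr 2
    rw [add_assoc]
    congr 1
    ext
    simp [Fin.val_add]

theorem planar {n : ℕ} : Pl (rot n) (io : Dt n → Dt n) := by
  intro x u hx hu
  have hx1 : ∀ (p : Pt n) (i : Fin 4), x ((p, i), true) = 0 := by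
    intro p i
    have := hu ((p, i), true)
    rw [rot_true] at this
    exact eq_zero_of_eq_add this
  have hx0 : ∀ (p : Pt n) (i : Fin 4), nb p i = none → x ((p, i), false) = 0 := by
    intro p i h
    rw [← hx, io_none _ h]
    exact hx1 p i
  have hxs : ∀ (p q : Pt n) (i : Fin 4), nb p i = some q →
      x ((p, i), false) = x ((q, i + 2), false) := by
    intro p q i h
    rw [← hx ((p, i), false), io_some _ h]
  have hvert : ∀ p : Pt n, x ((p, 2), false) + x ((p, 1), false) =
      x ((p, 3), false) + x ((p, 0), false) := by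
    intro p
    have h0 := hu ((p, 0), false)
    have h1 := hu ((p, 1), false)
    have h2 := hu ((p, 2), false)
    have h3 := hu ((p, 3), false)
    rw [rot_false] at h0 h1 h2 h3
    have e0 : (0 : Fin 4) + 1 = 1 := rfl
    have e1 : (1 : Fin 4) + 1 = 2 := rfl
    have e2 : (2 : Fin 4) + 1 = 3 := rfl
    have e3 : (3 : Fin 4) + 1 = 0 := rfl
    rw [e0] at h0
    rw [e1] at h1
    rw [e2] at h2
    rw [e3] at h3
    generalize x ((p, 0), false) = x0 at *
    generalize x ((p, 1), false) = x1 at *
    generalize x ((p, 2), false) = x2 at *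
    generalize x ((p, 3), false) = x3 at *
    generalize u ((p, 0), false) = u0 at *
    generalize u ((p, 1), false) = u1 at *
    generalize u ((p, 2), false) = u2 at *
    generalize u ((p, 3), false) = u3 at *
    subst h0 h1 h2
    clear hx1 hx0 hxs hx hu
    revert h3
    revert u0 x0 x1 x2 x3
    decide
  -- south and west edges with zero extension
  let S : ℕ → ℕ → ZMod 2 := fun a b =>
    if h : a < n ∧ b < n then x (((⟨a, h.1⟩, ⟨b, h.2⟩), 3), false) else 0
  let W : ℕ → ℕ → ZMod 2 := fun a b =>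
    if h : a < n ∧ b < n then x (((⟨a, h.1⟩, ⟨b, h.2⟩), 2), false) else 0
  have hS : ∀ a b (ha : a < n) (hb : b < n), x (((⟨a, ha⟩, ⟨b, hb⟩), 3), false) = S a b := by
    intro a b ha hb
    simp only [S, dif_pos (And.intro ha hb)]
  have hW : ∀ a b (ha : a < n) (hb : b < n), x (((⟨a, ha⟩, ⟨b, hb⟩), 2), false) = W a b := by
    intro a b ha hb
    simp only [W, dif_pos (And.intro ha hb)]
  have hN : ∀ a b (ha : a < n) (hb : b < n),
      x (((⟨a, ha⟩, ⟨b, hb⟩), 1), false) = S a (b + 1) := by
    intro a b ha hb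
    by_cases h : b + 1 < n
    · rw [← hS a (b + 1) ha h]
      exact hxs _ _ _ (by simp [nb, h])
    · simp only [S]
      rw [dif_neg (fun h' => h h'.2)]
      exact hx0 _ _ (by simp [nb, h])
  have hE : ∀ a b (ha : a < n) (hb : b < n),
      x (((⟨a, ha⟩, ⟨b, hb⟩), 0), false) = W (a + 1) b := by
    intro a b ha hb
    by_cases h : a + 1 < n
    · rw [← hW (a + 1) b h hb]
      exact hxs _ _ _ (by simp [nb, h])
    · simp only [W]
      rw [dif_neg (fun h' => h h'.1)]
      exact hx0 _ _ (by simp [nb, h])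
  have hW0 : ∀ b, W 0 b = 0 := by
    intro b
    simp only [W]
    split_ifs with h
    · exact hx0 _ _ (by simp [nb])
    · rfl
  let Z : ℕ → ℕ → ZMod 2 := fun a b => ∑ k ∈ Finset.range a, S k b
  have hZ1 : ∀ a b, Z (a + 1) b = Z a b + S a b := by
    intro a b
    exact Finset.sum_range_succ _ _
  have hZ2 : ∀ a b, a ≤ n → b < n → Z a (b + 1) = Z a b + W a b := by
    intro a b ha hb
    induction a with
    | zero => simp [Z, hW0]
    | succ a ih =>
      rw [hZ1, hZ1, ih (by omega)]
      have h1 := hvert (⟨a, by omega⟩, ⟨b, hb⟩)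
      rw [hS a b (by omega) hb, hW a b (by omega) hb, hN a b (by omega) hb,
        hE a b (by omega) hb] at h1
      linear_combination h1
  -- the face values
  let Y : Pt n → Fin 4 → ZMod 2 := fun p i =>
    match i with
    | 0 => Z (p.1.val + 1) p.2.val
    | 1 => Z (p.1.val + 1) (p.2.val + 1)
    | 2 => Z p.1.val (p.2.val + 1)
    | 3 => Z p.1.val p.2.val
  have hYr : ∀ (p : Pt n) (i : Fin 4), Y p (i + 1) = Y p i + x ((p, i), false) := by
    rintro ⟨⟨a, ha⟩, ⟨b, hb⟩⟩ i
    fin_cases i
    · show Z (a + 1) (b + 1) = Z (a + 1) b + x (((⟨a, ha⟩, ⟨b, hb⟩), 0), false)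
      rw [hE a b ha hb, hZ2 (a + 1) b (by omega) hb]
    · show Z a (b + 1) = Z (a + 1) (b + 1) + x (((⟨a, ha⟩, ⟨b, hb⟩), 1), false)
      rw [hN a b ha hb, hZ1, zadd_self']
    · show Z a b = Z a (b + 1) + x (((⟨a, ha⟩, ⟨b, hb⟩), 2), false)
      rw [hW a b ha hb, hZ2 a b (by omega) hb, zadd_self']
    · show Z (a + 1) b = Z a b + x (((⟨a, ha⟩, ⟨b, hb⟩), 3), false)
      rw [hS a b ha hb, hZ1]
  have hYi : ∀ (p q : Pt n) (i : Fin 4), nb p i = some q → Y q (i + 2) = Y p (i + 1) := by
    rintro ⟨⟨a, ha⟩, ⟨b, hb⟩⟩ q i h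
    fin_cases i
    · simp only [nb] at h
      split_ifs at h with h1
      simp only [Option.some.injEq] at h
      subst h
      rfl
    · simp only [nb] at h
      split_ifs at h with h1
      simp only [Option.some.injEq] at h
      subst h
      rfl
    · simp only [nb] at h
      split_ifs at h with h1
      simp only [Option.some.injEq] at h
      subst h
      show Z (a - 1 + 1) b = Z a b
      rw [Nat.sub_add_cancel h1]
    · simp only [nb] at h
      split_ifs at h with h1
      simp only [Option.some.injEq] at h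
      subst h
      show Z (a + 1) (b - 1 + 1) = Z (a + 1) b
      rw [Nat.sub_add_cancel h1]
  refine ⟨fun d => if d.2 = true then (if nb d.1.1 d.1.2 = none then Y d.1.1 d.1.2 else 0)
    else Y d.1.1 d.1.2, ?_, ?_⟩
  · rintro ⟨⟨p, i⟩, c⟩
    cases c
    · rw [rot_false]
      simp only [Bool.false_eq_true, if_false]
      exact hYr p i
    · rw [rot_true, hx1, add_zero]
  · rintro ⟨⟨p, i⟩, c⟩
    rcases h : nb p i with _ | q
    · rw [io_none c h]
      cases c
      · simp only [Bool.not_false, if_true, h, Bool.false_eq_true, if_false, hx0 p i h, add_zero]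
      · simp only [Bool.not_true, if_true, h, Bool.false_eq_true, if_false, hx1 p i, add_zero]
    · rw [io_some c h]
      have h2 := nb_inv p q i h
      cases c
      · simp only [Bool.false_eq_true, if_false]
        rw [hYi p q i h, hYr]
      · simp only [if_true, h, h2, reduceCtorEq, if_false, hx1 p i, add_zero]

/-- the map of the grid -/
def gmap (n : ℕ) : PMap (Pt n ⊕ (Pt n × Fin 4)) (Dt n) where
  r := rot n
  ι := io
  inv := io_inv
  nofix := by
    rintro ⟨⟨p, i⟩, c⟩ h
    rcases h1 : nb p i with _ | q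
    · rw [io_none c h1] at h
      simp only [Prod.mk.injEq, true_and] at h
      cases c <;> simp at h
    · rw [io_some c h1] at h
      simp only [Prod.mk.injEq, and_true] at h
      have h2 := h.2
      revert h2
      fin_cases i <;> decide
  t := fun d => if d.2 then Sum.inr d.1 else Sum.inl d.1.1
  t_r := by
    rintro ⟨⟨p, i⟩, c⟩
    cases c
    · rw [rot_false]; rfl
    · rw [rot_true]
  trans := by
    rintro ⟨⟨p, i⟩, c⟩ ⟨⟨p', i'⟩, c'⟩ h
    cases c <;> cases c' <;> simp only [Bool.false_eq_true, if_false, if_true, Sum.inl.injEq,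
      Sum.inr.injEq, reduceCtorEq] at h
    · subst h
      refine ⟨((i' - i).val : ℕ), ?_⟩
      rw [zpow_natCast, rot_pow]
      congr 2
      have : Fin.ofNat 4 (i' - i).val = i' - i := by
        ext; simp
      rw [this]
      abel
    · rw [h]
  pl := planar

/-- the direction from `p` to `q` -/
def dir {n : ℕ} (p q : Pt n) : Fin 4 :=
  if p.1.val + 1 = q.1.val then 0 else if p.2.val + 1 = q.2.val then 1
    else if q.1.val + 1 = p.1.val then 2 else 3

theorem nb_dir {n : ℕ} (p q : Pt n) (h : (gridG n).Adj p q) : nb p (dir p q) = some q := by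
  obtain ⟨⟨a, ha⟩, ⟨b, hb⟩⟩ := p
  obtain ⟨⟨a', ha'⟩, ⟨b', hb'⟩⟩ := q
  simp only [gridG, Fin.mk.injEq] at h
  rcases h with ⟨rfl, h | h⟩ | ⟨rfl, h | h⟩
  · subst h
    simp [dir, nb, hb']
  · subst h
    have h1 : ¬ (b' + 1 + 1 = b') := by omega
    simp [dir, nb, h1]
  · subst h
    simp [dir, nb, ha']
  · subst h
    have h1 : ¬ (a' + 1 + 1 = a') := by omega
    simp [dir, nb, h1]

theorem dir_symm {n : ℕ} (p q : Pt n) (h : (gridG n).Adj p q) : dir q p = dir p q + 2 := by
  obtain ⟨⟨a, ha⟩, ⟨b, hb⟩⟩ := p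
  obtain ⟨⟨a', ha'⟩, ⟨b', hb'⟩⟩ := q
  simp only [gridG, Fin.mk.injEq] at h
  rcases h with ⟨rfl, h | h⟩ | ⟨rfl, h | h⟩
  · subst h
    have h1 : ¬ (b + 1 + 1 = b) := by omega
    simp [dir, h1]
  · subst h
    have h1 : ¬ (b' + 1 + 1 = b') := by omega
    simp only [dir, h1, if_false, if_true, Nat.succ_ne_self]
    decide
  · subst h
    have h1 : ¬ (a + 1 + 1 = a) := by omega
    simp [dir, h1]
  · subst h
    have h1 : ¬ (a' + 1 + 1 = a') := by omega
    simp only [dir, h1, if_false, if_true, Nat.succ_ne_self]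
    decide

theorem main : StGrid := by
  intro n
  obtain ⟨R, -⟩ := (gmap n).exists_rot (G := gridG n) (Sum.inl : Pt n → Pt n ⊕ (Pt n × Fin 4))
    Sum.inl_injective (fun d => ((d.fst, dir d.fst d.snd), false))
    (by
      intro d d' h
      simp only [Prod.mk.injEq, and_true] at h
      have h1 := nb_dir d.fst d.snd d.adj
      have h2 := nb_dir d'.fst d'.snd d'.adj
      rw [h.2, h.1, h2] at h1
      apply SimpleGraph.Dart.ext
      exact Prod.ext h.1 (Option.some.inj h1).symm)
    (fun d => rfl)
    (by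
      intro d
      show io ((d.fst, dir d.fst d.snd), false) = ((d.snd, dir d.snd d.fst), false)
      rw [io_some _ (nb_dir d.fst d.snd d.adj), dir_symm d.fst d.snd d.adj])
  exact ⟨R⟩

end Pool.Agent.Helper35.PM.M_GRID
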