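import Pool.Agent.Helper35.PM.St

/-!
# Plane maps: minors of plane maps are planar
-/

set_option autoImplicit false

namespace Pool.Agent.Helper35.PM.M_MIN

open Equiv Equiv.Perm

/-- all branch sets are single vertices of the map -/
theorem caseTwo (V W D : Type) [Fintype D] (M : PMap V D) (G : SimpleGraph W) (B : W → Set V)
    (hne : ∀ w, (B w).Nonempty) (hdis : ∀ w w', w ≠ w' → Disjoint (B w) (B w'))
    (hcon : ∀ w, ∀ a ∈ B w, ∀ b ∈ B w, Relation.ReflTransGen
      (fun p q => p ∈ B w ∧ q ∈ B w ∧ ∃ d, M.t d = p ∧ M.t (M.ι d) = q) a b)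
    (hadj : ∀ w w', G.Adj w w' → ∃ d, M.t d ∈ B w ∧ M.t (M.ι d) ∈ B w')
    (hno : ∀ w e, M.t e ∈ B w → M.t (M.ι e) ∈ B w → M.t e = M.t (M.ι e)) : Planar G := by
  classical
  choose g hg using hne
  have huniq : ∀ w, ∀ b ∈ B w, b = g w := by
    intro w b hb
    have h1 := hcon w b hb (g w) (hg w)
    have h2 : ∀ x y : V, Relation.ReflTransGen
        (fun p q => p ∈ B w ∧ q ∈ B w ∧ ∃ d, M.t d = p ∧ M.t (M.ι d) = q) x y → x = y := by
      intro x y hxy
      induction hxy with
      | refl => rfl
      | tail _ h ih =>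
        obtain ⟨hp, hq, d, h3, h4⟩ := h
        rw [ih, ← h3, ← h4]
        exact hno w d (by rw [h3]; exact hp) (by rw [h4]; exact hq)
    exact h2 _ _ h1
  have hginj : Function.Injective g := by
    intro w w' h
    by_contra hw
    exact Set.disjoint_left.1 (hdis w w' hw) (hg w) (h ▸ hg w')
  obtain ⟨lt, hlt⟩ : ∃ r : W → W → Prop, IsWellOrder W r := ⟨WellOrderingRel, inferInstance⟩
  choose f hf1 hf2 using fun d : G.Dart => hadj d.fst d.snd d.adj
  let c : G.Dart → D := fun d => if lt d.fst d.snd then f d else M.ι (f d.symm)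
  have hasym : ∀ a b, lt a b → ¬ lt b a := fun a b h1 h2 => (irrefl_of lt a) (_root_.trans h1 h2)
  have htot : ∀ d : G.Dart, ¬ lt d.fst d.snd → lt d.snd d.fst := by
    intro d hd
    rcases trichotomous_of lt d.fst d.snd with h | h | h
    · exact absurd h hd
    · exact absurd h d.adj.ne
    · exact h
  have hct : ∀ d, M.t (c d) = g d.fst := by
    intro d
    by_cases h : lt d.fst d.snd
    · simp only [c, if_pos h]
      exact huniq _ _ (hf1 d)
    · simp only [c, if_neg h]
      exact huniq _ _ (hf2 d.symm)
  have hcs : ∀ d, M.ι (c d) = c d.symm := by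
    intro d
    by_cases h : lt d.fst d.snd
    · have h' : ¬ lt d.symm.fst d.symm.snd := hasym _ _ h
      simp only [c, if_pos h, if_neg h', SimpleGraph.Dart.symm_symm]
    · have h' : lt d.symm.fst d.symm.snd := htot d h
      simp only [c, if_neg h, if_pos h']
      exact M.inv _
  have hcinj : Function.Injective c := by
    intro d d' h
    have h1 : d.fst = d'.fst := hginj (by rw [← hct, ← hct, h])
    have h2 : d.snd = d'.snd := hginj (by
      have e1 := hct d.symm
      have e2 := hct d'.symm
      rw [← hcs] at e1 e2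
      show g d.symm.fst = g d'.symm.fst
      rw [← e1, ← e2, h])
    apply SimpleGraph.Dart.ext
    exact Prod.ext h1 h2
  obtain ⟨R, -⟩ := M.exists_rot g hginj c hcinj hct hcs
  exact ⟨R⟩

theorem main : StMin := by
  intro n
  induction n with
  | zero =>
    intro V W D _ M G B hcard hne hdis hcon hadj
    have hD : IsEmpty D := Fintype.card_eq_zero_iff.1 (Nat.le_zero.1 hcard)
    exact caseTwo V W D M G B hne hdis hcon hadj (fun w e => (hD.false e).elim)
  | succ n ih =>
    intro V W D _ M G B hcard hne hdis hcon hadj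
    by_cases hex : ∃ w e, M.t e ∈ B w ∧ M.t (M.ι e) ∈ B w ∧ M.t e ≠ M.t (M.ι e)
    · classical
      obtain ⟨w0, e, h1, h2, he⟩ := hex
      let π : V → V := fun v => if v = M.t (M.ι e) then M.t e else v
      have hπe : π (M.t e) = M.t e := by simp only [π, if_neg he]
      have hπe' : π (M.t (M.ι e)) = M.t e := by simp only [π, if_true]
      have hπo : ∀ v, v ≠ M.t (M.ι e) → π v = v := fun v hv => by simp only [π, if_neg hv]
      have hπ : ∀ a b, π a = π b ↔ a = b ∨
          ((a = M.t e ∨ a = M.t (M.ι e)) ∧ (b = M.t e ∨ b = M.t (M.ι e))) := by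
        intro a b
        by_cases ha : a = M.t (M.ι e)
        · by_cases hb : b = M.t (M.ι e)
          · rw [ha, hb]; simp
          · rw [ha, hπe', hπo b hb]
            constructor
            · intro h; exact Or.inr ⟨Or.inr rfl, Or.inl h.symm⟩
            · rintro (h | ⟨_, h | h⟩)
              · exact absurd h.symm hb
              · exact h.symm
              · exact absurd h hb
        · by_cases hb : b = M.t (M.ι e)
          · rw [hb, hπe', hπo a ha]
            constructor
            · intro h; exact Or.inr ⟨Or.inl h, Or.inr rfl⟩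
            · rintro (h | ⟨h | h, _⟩)
              · exact absurd h ha
              · exact h
              · exact absurd h ha
          · rw [hπo a ha, hπo b hb]
            constructor
            · intro h; exact Or.inl h
            · rintro (h | ⟨h | h, h' | h'⟩)
              · exact h
              · rw [h, h']
              · exact absurd h' hb
              · exact absurd h ha
              · exact absurd h ha
      let M' : PMap V {d : D // d ≠ e ∧ d ≠ M.ι e} := M.contract e he π hπ
      have hM't : ∀ d, M'.t d = π (M.t d.1) := fun d => rfl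
      have hM'ι : ∀ d, (M'.ι d).1 = M.ι d.1 := fun d => rfl
      have huniq : ∀ v w, v ∈ B w → v ∈ B w0 → w = w0 := by
        intro v w hv hv0
        by_contra hw
        exact Set.disjoint_left.1 (hdis w w0 hw) hv hv0
      have hsub : ∀ v w, v ∈ B w → (v = M.t e ∨ v = M.t (M.ι e)) → w = w0 := by
        rintro v w hv (h | h)
        · exact huniq v w hv (h ▸ h1)
        · exact huniq v w hv (h ▸ h2)
      refine ih V W _ M' G (fun w => π '' (B w)) ?_ (fun w => (hne w).image π) ?_ ?_ ?_
      · have hlt : Fintype.card {d : D // d ≠ e ∧ d ≠ M.ι e} < Fintype.card D :=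
          Fintype.card_subtype_lt (x := e) (by simp)
        omega
      · intro w w' hw
        rw [Set.disjoint_left]
        rintro x ⟨a, ha, rfl⟩ ⟨b, hb, hab⟩
        rcases (hπ b a).1 hab with h | ⟨h3, h4⟩
        · exact Set.disjoint_left.1 (hdis w w' hw) ha (h ▸ hb)
        · exact hw ((hsub a w ha h4).trans (hsub b w' hb h3).symm)
      · rintro w _ ⟨a, ha, rfl⟩ _ ⟨b, hb, rfl⟩
        refine Relation.ReflTransGen.lift' π ?_ a b (hcon w a ha b hb)
        rintro p q ⟨hp, hq, d, h3, h4⟩
        show Relation.ReflTransGen _ (π p) (π q)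
        by_cases hd : d ≠ e ∧ d ≠ M.ι e
        · apply Relation.ReflTransGen.single
          refine ⟨⟨p, hp, rfl⟩, ⟨q, hq, rfl⟩, ⟨d, hd⟩, ?_, ?_⟩
          · rw [hM't, h3]
          · rw [hM't, hM'ι, h4]
        · have hpq : π p = π q := by
            by_cases h5 : d = e
            · rw [← h3, ← h4, h5, hπe, hπe']
            · have h6 : d = M.ι e := by
                by_contra h7
                exact hd ⟨h5, h7⟩
              rw [← h3, ← h4, h6, M.inv, hπe, hπe']
          rw [hpq]
      · intro w w' hw
        obtain ⟨d, h3, h4⟩ := hadj w w' hw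
        have hd1 : d ≠ e := by
          rintro rfl
          exact hw.ne ((hsub _ w h3 (Or.inl rfl)).trans (hsub _ w' h4 (Or.inr rfl)).symm)
        have hd2 : d ≠ M.ι e := by
          intro h5
          rw [h5] at h3 h4
          rw [M.inv] at h4
          exact hw.ne ((hsub _ w h3 (Or.inr rfl)).trans (hsub _ w' h4 (Or.inl rfl)).symm)
        exact ⟨⟨d, hd1, hd2⟩, ⟨_, h3, rfl⟩, ⟨_, h4, rfl⟩⟩
    · exact caseTwo V W D M G B hne hdis hcon hadj (fun w e h1 h2 => by
        by_contra h3
        exact hex ⟨w, e, h1, h2, h3⟩)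

end Pool.Agent.Helper35.PM.M_MIN
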