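import Pool.Agent.Helper35.PM.St

/-!
# Plane maps: module POT (potentials along the rotation)
-/

set_option autoImplicit false

namespace Pool.Agent.Helper35.PM.M_POT

open Equiv Equiv.Perm Pool.Agent.Helper35.PM

variable {V D : Type} [Fintype D] [DecidableEq V]

theorem minPer_pos (M : PMap V D) (c : D) : 0 < Function.minimalPeriod M.r c := by
  classical
  apply Function.minimalPeriod_pos_of_mem_periodicPts
  refine ⟨orderOf M.r, orderOf_pos M.r, ?_⟩
  show (M.r)^[orderOf M.r] c = c
  rw [Equiv.Perm.iterate_eq_pow, pow_orderOf_eq_one, Perm.coe_one, id]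

theorem full (M : PMap V D) (x : D → ZMod 2)
    (hx : ∀ v, ∑ d ∈ Finset.univ.filter (fun d => M.t d = v), x d = 0) (c : D) :
    ∑ j ∈ Finset.range (Function.minimalPeriod M.r c), x ((M.r ^ j) c) = 0 := by
  classical
  rw [← hx (M.t c)]
  have h1 : Finset.univ.filter (fun d => M.t d = M.t c) =
      (Finset.range (Function.minimalPeriod M.r c)).image (fun j => (M.r ^ j) c) := by
    ext d
    simp only [Finset.mem_filter, Finset.mem_univ, true_and, Finset.mem_image, Finset.mem_range]
    constructor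
    · intro h
      obtain ⟨k, hk⟩ := (M.trans c d h.symm).exists_nat_pow_eq
      refine ⟨k % Function.minimalPeriod M.r c, Nat.mod_lt _ (minPer_pos M c), ?_⟩
      rw [← hk, ← Equiv.Perm.iterate_eq_pow, ← Equiv.Perm.iterate_eq_pow]
      exact Function.iterate_mod_minimalPeriod_eq
    · rintro ⟨k, _, hk⟩
      rw [← hk, M.t_pow]
  rw [h1, Finset.sum_image]
  intro i hi j hj hij
  have hi' : i < Function.minimalPeriod M.r c := by simpa using hi
  have hj' : j < Function.minimalPeriod M.r c := by simpa using hj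
  have hij' : (M.r)^[i] c = (M.r)^[j] c := by
    rw [Equiv.Perm.iterate_eq_pow, Equiv.Perm.iterate_eq_pow]
    exact hij
  exact Function.iterate_injOn_Iio_minimalPeriod hi' hj' hij'

theorem fullMul (M : PMap V D) (x : D → ZMod 2)
    (hx : ∀ v, ∑ d ∈ Finset.univ.filter (fun d => M.t d = v), x d = 0) (c : D) (q : ℕ) :
    ∑ j ∈ Finset.range (Function.minimalPeriod M.r c * q), x ((M.r ^ j) c) = 0 := by
  induction q with
  | zero => simp
  | succ q ih =>
    rw [Nat.mul_succ, Finset.sum_range_add, ih, zero_add, ← full M x hx c]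
    refine Finset.sum_congr rfl fun j _ => ?_
    congr 1
    rw [add_comm, pow_add, Perm.mul_apply]
    congr 1
    rw [← Equiv.Perm.iterate_eq_pow]
    exact (Function.isPeriodicPt_minimalPeriod M.r c).mul_const q

theorem well (M : PMap V D) (x : D → ZMod 2)
    (hx : ∀ v, ∑ d ∈ Finset.univ.filter (fun d => M.t d = v), x d = 0) (b : D) {k l : ℕ}
    (hkl : k ≤ l) (h : (M.r ^ k) b = (M.r ^ l) b) :
    ∑ j ∈ Finset.range k, x ((M.r ^ j) b) = ∑ j ∈ Finset.range l, x ((M.r ^ j) b) := by
  obtain ⟨m, rfl⟩ := Nat.exists_eq_add_of_le hkl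
  rw [Finset.sum_range_add]
  have hper : Function.IsPeriodicPt M.r m ((M.r ^ k) b) := by
    show (M.r)^[m] ((M.r ^ k) b) = (M.r ^ k) b
    rw [Equiv.Perm.iterate_eq_pow, ← Perm.mul_apply, ← pow_add, add_comm m k, ← h]
  obtain ⟨q, hq⟩ := hper.minimalPeriod_dvd
  have h2 := fullMul M x hx ((M.r ^ k) b) q
  rw [← hq] at h2
  have h3 : ∑ j ∈ Finset.range m, x ((M.r ^ (k + j)) b) = 0 := by
    rw [← h2]
    refine Finset.sum_congr rfl fun j _ => ?_
    rw [← Perm.mul_apply, ← pow_add, add_comm j k]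
  rw [h3, add_zero]

theorem well' (M : PMap V D) (x : D → ZMod 2)
    (hx : ∀ v, ∑ d ∈ Finset.univ.filter (fun d => M.t d = v), x d = 0) (b : D) {k l : ℕ}
    (h : (M.r ^ k) b = (M.r ^ l) b) :
    ∑ j ∈ Finset.range k, x ((M.r ^ j) b) = ∑ j ∈ Finset.range l, x ((M.r ^ j) b) := by
  rcases le_total k l with hkl | hkl
  · exact well M x hx b hkl h
  · exact (well M x hx b hkl h.symm).symm

end Pool.Agent.Helper35.PM.M_POT

namespace Pool.Agent.Helper35.PM.M_POT

open Equiv Equiv.Perm Pool.Agent.Helper35.PM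

theorem main : StPot := by
  intro V D _ _ M x hx
  classical
  -- base darts
  have hbase : ∀ d : D, ∃ b : D, M.t b = M.t d ∧ ∀ d', M.t d' = M.t d →
      (if h : ∃ e, M.t e = M.t d' then Classical.choose h else d') = b := by
    intro d
    have h : ∃ e, M.t e = M.t d := ⟨d, rfl⟩
    refine ⟨Classical.choose h, Classical.choose_spec h, ?_⟩
    intro d' hd'
    have h' : ∃ e, M.t e = M.t d' := ⟨d', rfl⟩
    rw [dif_pos h']
    congr 1
    funext e
    rw [hd']
  let B : D → D := fun d => if h : ∃ e, M.t e = M.t d then Classical.choose h else d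
  have hB1 : ∀ d, M.t (B d) = M.t d := by
    intro d
    obtain ⟨b, hb1, hb2⟩ := hbase d
    show M.t (if h : ∃ e, M.t e = M.t d then Classical.choose h else d) = M.t d
    rw [hb2 d rfl]; exact hb1
  have hB2 : ∀ d, B (M.r d) = B d := by
    intro d
    obtain ⟨b, hb1, hb2⟩ := hbase d
    show (if h : ∃ e, M.t e = M.t (M.r d) then Classical.choose h else (M.r d)) =
      (if h : ∃ e, M.t e = M.t d then Classical.choose h else d)
    rw [hb2 d rfl, hb2 (M.r d) (M.t_r d)]
  have hk : ∀ d, ∃ k : ℕ, (M.r ^ k) (B d) = d := fun d =>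
    (M.trans (B d) d (hB1 d)).exists_nat_pow_eq
  choose k hk using hk
  refine ⟨fun d => ∑ j ∈ Finset.range (k d), x ((M.r ^ j) (B d)), ?_⟩
  intro d
  show ∑ j ∈ Finset.range (k (M.r d)), x ((M.r ^ j) (B (M.r d))) =
    ∑ j ∈ Finset.range (k d), x ((M.r ^ j) (B d)) + x d
  rw [hB2]
  have h1 : (M.r ^ (k (M.r d))) (B d) = (M.r ^ (k d + 1)) (B d) := by
    rw [pow_succ', Perm.mul_apply, hk d]
    have := hk (M.r d)
    rw [hB2] at this
    exact this
  rw [well' M x hx (B d) h1, Finset.sum_range_succ, hk d]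

end Pool.Agent.Helper35.PM.M_POT
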