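import Pool.Agent.Helper35.PM.St

/-!
# Module SEP: crossing paths
-/

set_option autoImplicit false

namespace Pool.Agent.Helper35.PM.M_SEP

open Equiv Equiv.Perm

theorem zz (p q w : ZMod 2) (h : p = q + w) : w = p + q := by
  revert h
  revert p q w
  decide

theorem main (hPot : StPot) : StSep := by
  classical
  intro V D _ _ M x hx d1 d3 ht13 hφ hsum
  set a : D := M.r.symm d1 with hadef
  set b : D := M.r.symm d3 with hbdef
  have hra : M.r a = d1 := M.r.apply_symm_apply d1
  have hrb : M.r b = d3 := M.r.apply_symm_apply d3
  have hta : M.t a = M.t d1 := by rw [← hra, M.t_r]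
  have htb : M.t b = M.t d3 := by rw [← hrb, M.t_r]
  have hab : M.t a ≠ M.t b := by rw [hta, htb]; exact ht13
  have hφa : M.φ (M.ι a) = d1 := by rw [PMap.φ_apply, M.inv, hra]
  have hφb : M.φ (M.ι b) = d3 := by rw [PMap.φ_apply, M.inv, hrb]
  have hf' : M.φ.SameCycle (M.ι a) (M.ι b) := by
    rw [← hφa, ← hφb, sameCycle_apply_left, sameCycle_apply_right] at hφ
    exact hφ
  let π : V → V := fun v => if v = M.t b then M.t a else v
  have hπ : ∀ v w, π v = π w ↔ v = w ∨
      ((v = M.t a ∨ v = M.t b) ∧ (w = M.t a ∨ w = M.t b)) := by
    intro v w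
    simp only [π]
    by_cases h1 : v = M.t b
    · by_cases h2 : w = M.t b
      · rw [if_pos h1, if_pos h2]
        exact ⟨fun _ => Or.inl (h1.trans h2.symm), fun _ => rfl⟩
      · rw [if_pos h1, if_neg h2]
        constructor
        · intro h
          exact Or.inr ⟨Or.inr h1, Or.inl h.symm⟩
        · rintro (h | ⟨-, h | h⟩)
          · exact absurd (h ▸ h1) h2
          · exact h.symm
          · exact absurd h h2
    · by_cases h2 : w = M.t b
      · rw [if_neg h1, if_pos h2]
        constructor
        · intro h
          exact Or.inr ⟨Or.inl h, Or.inr h2⟩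
        · rintro (h | ⟨h | h, -⟩)
          · exact absurd (h.trans h2) h1
          · exact h
          · exact absurd h h1
      · rw [if_neg h1, if_neg h2]
        constructor
        · exact Or.inl
        · rintro (h | ⟨h | h, h' | h'⟩)
          · exact h
          · rw [h, h']
          · exact absurd h' h2
          · exact absurd h h1
          · exact absurd h h1
  let N := M.merge a b hab hf' π hπ
  have hNt : ∀ d, N.t d = π (M.t d) := fun d => rfl
  have hNsum : ∀ v, ∑ d ∈ Finset.univ.filter (fun d => N.t d = v), x d = 0 := by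
    intro v
    by_cases h1 : v = M.t b
    · have he : Finset.univ.filter (fun d => N.t d = v) = ∅ := by
        rw [Finset.filter_eq_empty_iff]
        intro d _ hd
        rw [hNt, h1] at hd
        simp only [π] at hd
        by_cases h3 : M.t d = M.t b
        · rw [if_pos h3] at hd
          exact hab hd
        · rw [if_neg h3] at hd
          exact h3 hd
      rw [he, Finset.sum_empty]
    · by_cases h2 : v = M.t a
      · have he : Finset.univ.filter (fun d => N.t d = v) =
            Finset.univ.filter (fun d => M.t d = M.t a) ∪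
              Finset.univ.filter (fun d => M.t d = M.t b) := by
          ext d
          rw [Finset.mem_union, Finset.mem_filter, Finset.mem_filter, Finset.mem_filter, hNt, h2]
          simp only [π, Finset.mem_univ, true_and]
          by_cases h3 : M.t d = M.t b
          · rw [if_pos h3]
            exact ⟨fun _ => Or.inr h3, fun _ => rfl⟩
          · rw [if_neg h3]
            exact ⟨Or.inl, fun h => h.resolve_right h3⟩
        have hdis : Disjoint (Finset.univ.filter (fun d => M.t d = M.t a))
            (Finset.univ.filter (fun d => M.t d = M.t b)) := by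
          rw [Finset.disjoint_left]
          intro d h3 h4
          rw [Finset.mem_filter] at h3 h4
          exact hab (h3.2.symm.trans h4.2)
        rw [he, Finset.sum_union hdis, hsum, hsum, if_pos (Or.inl hta), if_pos (Or.inr htb)]
        decide
      · have he : Finset.univ.filter (fun d => N.t d = v) =
            Finset.univ.filter (fun d => M.t d = v) := by
          ext d
          rw [Finset.mem_filter, Finset.mem_filter, hNt]
          simp only [π, Finset.mem_univ, true_and]
          by_cases h3 : M.t d = M.t b
          · rw [if_pos h3]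
            constructor
            · intro h
              exact absurd h.symm h2
            · intro h
              exact absurd (h.symm.trans h3) h1
          · rw [if_neg h3]
        rw [he, hsum, if_neg]
        rw [← hta, ← htb]
        rintro (h | h)
        · exact h2 h
        · exact h1 h
  obtain ⟨u, hu⟩ := hPot V D N x hNsum
  obtain ⟨y, hy1, hy2⟩ := N.pl x u hx hu
  have hNa : N.r a = M.r b := by
    show (M.r * swap a b) a = M.r b
    rw [Perm.mul_apply, swap_apply_left]
  have hNb : N.r b = M.r a := by
    show (M.r * swap a b) b = M.r a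
    rw [Perm.mul_apply, swap_apply_right]
  have hNo : ∀ d, d ≠ a → d ≠ b → N.r d = M.r d := fun d h1 h2 =>
    M.merge_r a b hab hf' π hπ d h1 h2
  have hne : y (M.r a) ≠ y (M.r b) := by
    intro heq
    have hyr : ∀ d, y (M.r d) = y d + x d := by
      intro d
      by_cases h1 : d = a
      · rw [h1, heq, ← hNa, hy1]
      · by_cases h2 : d = b
        · rw [h2, ← heq, ← hNb, hy1]
        · rw [← hNo d h1 h2, hy1]
    have h1 := hsum (M.t d1)
    rw [if_pos (Or.inl rfl)] at h1
    have h2 : ∑ d ∈ Finset.univ.filter (fun d => M.t d = M.t d1), x d =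
        ∑ d ∈ Finset.univ.filter (fun d => M.t d = M.t d1), y (M.r d) +
        ∑ d ∈ Finset.univ.filter (fun d => M.t d = M.t d1), y d := by
      rw [← Finset.sum_add_distrib]
      exact Finset.sum_congr rfl fun d _ => zz _ _ _ (hyr d)
    have h3 : ∑ d ∈ Finset.univ.filter (fun d => M.t d = M.t d1), y (M.r d) =
        ∑ d ∈ Finset.univ.filter (fun d => M.t d = M.t d1), y d := by
      refine Finset.sum_equiv M.r ?_ (fun d _ => rfl)
      intro d
      rw [Finset.mem_filter, Finset.mem_filter, M.t_r]
      simp
    rw [h2, h3, zadd_self] at h1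
    exact absurd h1 (by decide)
  have hy1' : ∀ d, M.r d ≠ d1 → M.r d ≠ d3 → y (M.r d) = y d + x d := by
    intro d h1 h2
    rw [← hNo d (fun h => h1 (by rw [h, hra])) (fun h => h2 (by rw [h, hrb])), hy1]
  have hyφ : ∀ d, M.φ d ≠ d1 → M.φ d ≠ d3 → y (M.φ d) = y d := by
    intro d h1 h2
    rw [PMap.φ_apply, hy1' (M.ι d) h1 h2, hx]
    have h3 : y (M.ι d) = y d + x d := hy2 d
    rw [h3, zadd_self']
  rw [hra, hrb] at hne
  have hc1 : y d1 + y d1 = 0 := zadd_self _
  have hc3 : y d3 + y d1 = 1 := by
    revert hne
    generalize y d1 = p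
    generalize y d3 = q
    revert p q
    decide
  refine ⟨fun d => y d + y d1, ?_, ?_, ?_, hc1, hc3, ?_, ?_⟩
  · intro d
    show y (M.ι d) + y d1 = y d + y d1 + x d
    have h3 : y (M.ι d) = y d + x d := hy2 d
    rw [h3]
    ring
  · intro d h1 h2
    show y (M.r d) + y d1 = y d + y d1 + x d
    rw [hy1' d h1 h2]
    ring
  · intro d h1 h2
    show y (M.φ d) + y d1 = y d + y d1
    rw [hyφ d h1 h2]
  · intro n
    induction n with
    | zero =>
      intro _
      rw [pow_zero]
      exact hc1
    | succ n ih =>
      intro h
      have h1 := ih (fun j hj => h j (Nat.lt_succ_of_lt hj))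
      obtain ⟨h2, h3⟩ := h n (Nat.lt_succ_self n)
      rw [pow_succ', Perm.mul_apply] at h2 h3 ⊢
      show y (M.φ ((M.φ ^ n) d1)) + y d1 = 0
      rw [hyφ _ h3 h2]
      exact h1
  · intro n
    induction n with
    | zero =>
      intro _
      rw [pow_zero]
      exact hc3
    | succ n ih =>
      intro h
      have h1 := ih (fun j hj => h j (Nat.lt_succ_of_lt hj))
      obtain ⟨h2, h3⟩ := h n (Nat.lt_succ_self n)
      rw [pow_succ', Perm.mul_apply] at h2 h3 ⊢
      show y (M.φ ((M.φ ^ n) d3)) + y d1 = 1
      rw [hyφ _ h2 h3]
      exact h1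

end Pool.Agent.Helper35.PM.M_SEP
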