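import Pool.Agent.Helper35.PM.St

/-! Module TOP1: arcs as functions on the reals give arcs as paths. -/

set_option autoImplicit false

namespace Pool.Agent.Helper35.PM.M_TOP1

open Pool.Agent.Helper35.PM

theorem main : StTop1 := by
  classical
  intro V G h
  obtain ⟨p, γ, hp, h1, h2⟩ := h
  have hpath : ∀ u v : V, ∃ q : Path (p u) (p v),
      G.Adj u v → ∀ t : unitInterval, q t = γ u v (t : ℝ) := by
    intro u v
    by_cases huv : G.Adj u v
    · obtain ⟨hc, -, h0, h1', -⟩ := h1 u v huv
      refine ⟨⟨⟨fun t : unitInterval => γ u v t, ?_⟩, ?_, ?_⟩, fun _ t => rfl⟩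
      · exact continuousOn_iff_continuous_restrict.1 hc
      · simpa using h0
      · simpa using h1'
    · exact ⟨PathConnectedSpace.somePath _ _, fun h => absurd h huv⟩
  choose q hq using hpath
  refine ⟨p, hp, q, ?_, ?_, ?_⟩
  · intro u v huv s t hst
    rw [hq u v huv, hq u v huv] at hst
    exact Subtype.ext ((h1 u v huv).2.1 s.2 t.2 hst)
  · intro u v huv t ht w
    rw [hq u v huv]
    exact (h1 u v huv).2.2.2.2 t ht w
  · intro u v x y huv hxy hne s t hs ht
    rw [hq u v huv, hq x y hxy]
    exact h2 u v x y huv hxy hne s hs t ht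

end Pool.Agent.Helper35.PM.M_TOP1
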