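import Pool.Agent.Helper35.PM.St

/-!
# Plane maps: minors of finite grids are planar
-/

set_option autoImplicit false

namespace Pool.Agent.Helper35.PM.M_TOP2

open Pool.Agent.Helper16.OddPack

theorem main (hGrid : StGrid) (hMin : StMin) : StTop2 := by
  classical
  intro V _ G h
  obtain ⟨n, B, hlt, hne, hcon, hdis, hadj⟩ := h
  obtain ⟨R⟩ := hGrid n
  have : Fintype (gridG n).Dart := Fintype.ofFinite _
  -- lifts of the points of the branch sets
  have lift : ∀ w, ∀ p ∈ B w, ∃ q : Fin n × Fin n, (q.1.val, q.2.val) = p := by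
    intro w p hp
    exact ⟨(⟨p.1, (hlt w p hp).1⟩, ⟨p.2, (hlt w p hp).2⟩), rfl⟩
  have inj : ∀ p q : Fin n × Fin n, (p.1.val, p.2.val) = (q.1.val, q.2.val) → p = q := by
    intro p q hpq
    rw [Prod.mk.injEq] at hpq
    exact Prod.ext (Fin.ext hpq.1) (Fin.ext hpq.2)
  have adj : ∀ p q : Fin n × Fin n, GridAdj (p.1.val, p.2.val) (q.1.val, q.2.val) →
      (gridG n).Adj p q := by
    rintro p q (⟨h1, h2⟩ | ⟨h1, h2⟩)
    · exact Or.inl ⟨Fin.ext h1, h2⟩
    · exact Or.inr ⟨Fin.ext h1, h2⟩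
  have dart : ∀ p q : Fin n × Fin n, GridAdj (p.1.val, p.2.val) (q.1.val, q.2.val) →
      ∃ d : (gridG n).Dart, R.map.t d = p ∧ R.map.t (R.map.ι d) = q := by
    intro p q hpq
    exact ⟨⟨(p, q), adj p q hpq⟩, rfl, rfl⟩
  refine hMin (Fintype.card (gridG n).Dart) (Fin n × Fin n) V (gridG n).Dart R.map G
    (fun w => {p | (p.1.val, p.2.val) ∈ B w}) le_rfl ?_ ?_ ?_ ?_
  · intro w
    obtain ⟨p, hp⟩ := hne w
    obtain ⟨q, hq⟩ := lift w p hp
    refine ⟨q, ?_⟩
    change (q.1.val, q.2.val) ∈ B w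
    rw [hq]
    exact hp
  · intro w w' hw
    rw [Set.disjoint_left]
    intro p hp hp'
    exact Set.disjoint_left.1 (hdis w w' hw) hp hp'
  · intro w a ha b hb
    have key : ∀ q : ℕ × ℕ, Relation.ReflTransGen
        (fun a b => a ∈ B w ∧ b ∈ B w ∧ GridAdj a b) (a.1.val, a.2.val) q →
        ∀ b : Fin n × Fin n, (b.1.val, b.2.val) = q → Relation.ReflTransGen
          (fun p q => p ∈ {p : Fin n × Fin n | (p.1.val, p.2.val) ∈ B w} ∧
            q ∈ {p : Fin n × Fin n | (p.1.val, p.2.val) ∈ B w} ∧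
            ∃ d, R.map.t d = p ∧ R.map.t (R.map.ι d) = q) a b := by
      intro q hq
      induction hq with
      | refl =>
        intro b hb
        rw [inj b a hb]
      | tail _ hstep ih =>
        intro b hb
        obtain ⟨h1, h2, h3⟩ := hstep
        obtain ⟨c, hc⟩ := lift w _ h1
        refine Relation.ReflTransGen.tail (ih c hc) ?_
        refine ⟨?_, ?_, ?_⟩
        · change (c.1.val, c.2.val) ∈ B w
          rw [hc]
          exact h1
        · change (b.1.val, b.2.val) ∈ B w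
          rw [hb]
          exact h2
        · apply dart
          rw [hc, hb]
          exact h3
    exact key _ (hcon w _ ha _ hb) b rfl
  · intro w w' hw
    obtain ⟨p, hp, q, hq, hpq⟩ := hadj w w' hw
    obtain ⟨p', hp'⟩ := lift w p hp
    obtain ⟨q', hq'⟩ := lift w' q hq
    obtain ⟨d, hd1, hd2⟩ := dart p' q' (by rw [hp', hq']; exact hpq)
    refine ⟨d, ?_, ?_⟩
    · rw [hd1]
      change (p'.1.val, p'.2.val) ∈ B w
      rw [hp']
      exact hp
    · rw [hd2]
      change (q'.1.val, q'.2.val) ∈ B w'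
      rw [hq']
      exact hq

end Pool.Agent.Helper35.PM.M_TOP2
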