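import Pool.Agent.Helper35.PM.M_JOR
import Pool.Agent.Helper35.PM.M_POT
import Pool.Agent.Helper35.PM.M_CUT
import Pool.Agent.Helper35.PM.M_SEP
import Pool.Agent.Helper35.PM.M_CUTV
import Pool.Agent.Helper35.PM.M_MIN
import Pool.Agent.Helper35.PM.M_EUL
import Pool.Agent.Helper35.PM.M_GRID
import Pool.Agent.Helper35.PM.M_TOP1
import Pool.Agent.Helper35.PM.M_TOP2
import Pool.Agent.Helper35.PM.D_CONN
import Pool.Agent.Helper35.PM.D_COR
import Pool.Agent.Helper35.PM.D_DEG
import Pool.Agent.Helper35.PM.D_EMPTY
import Pool.Agent.Helper35.PM.D_EULD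
import Pool.Agent.Helper35.PM.D_FIN
import Pool.Agent.Helper35.PM.D_FINJ
import Pool.Agent.Helper35.PM.D_FIRST
import Pool.Agent.Helper35.PM.D_FLEN
import Pool.Agent.Helper35.PM.D_IDENT
import Pool.Agent.Helper35.PM.D_INNER
import Pool.Agent.Helper35.PM.D_LEAF
import Pool.Agent.Helper35.PM.D_LONG
import Pool.Agent.Helper35.PM.D_NEST
import Pool.Agent.Helper35.PM.D_NOCUT
import Pool.Agent.Helper35.PM.D_ONE
import Pool.Agent.Helper35.PM.D_QUO
import Pool.Agent.Helper35.PM.D_REV
import Pool.Agent.Helper35.PM.D_SHORT
import Pool.Agent.Helper35.PM.D_SIDE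

/-!
# Plane maps: assembly
-/

set_option autoImplicit false

namespace Pool.Agent.Helper35.PM

theorem stPot : StPot := M_POT.main
theorem stJor : StJor := M_JOR.main stPot
theorem stCut : StCut := M_CUT.main
theorem stSep : StSep := M_SEP.main stPot
theorem stCutV : StCutV := M_CUTV.main
theorem stMin : StMin := M_MIN.main
theorem stTop1 : StTop1 := M_TOP1.main
theorem stGrid : StGrid := M_GRID.main
theorem stEul : StEul := M_EUL.main stPot
theorem stTop2 : StTop2 := M_TOP2.main stGrid stMin

theorem stLeaf : StLeaf := D_LEAF.main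
theorem stFin : StFin := D_FIN.main
theorem stQuo : StQuo := D_QUO.main
theorem stIdent : StIdent := D_IDENT.main stMin
theorem stConn : StConn := D_CONN.main
theorem stDeg : StDeg := D_DEG.main
theorem stNoCut : StNoCut := D_NOCUT.main stConn stDeg stQuo stIdent
theorem stFaceInj : StFaceInj := D_FINJ.main stDeg stNoCut
theorem stFaceLen : StFaceLen := D_FLEN.main stDeg
theorem stSide : StSide := D_SIDE.main
theorem stRev : StRev := D_REV.main
theorem stChord : StChord := D_REV.chord
theorem stOffV : StOffV := D_REV.offv
theorem stNest : StNest := D_NEST.main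
theorem stEmpty : StEmpty := D_EMPTY.main stChord stOffV
theorem stOne : StOne := D_ONE.main stDeg stChord
theorem stCor4 : StCor4 := D_COR.main stOne stChord stOffV
theorem stCor5 : StCor5 := D_COR.main5 stOne stChord stOffV
theorem stLong : StLong := D_LONG.main stDeg stFaceInj stQuo stIdent stOffV stCor4 stCor5

theorem stShortFace : StShortFace := D_SHORT.main stConn stDeg stEul
theorem stFirst : StFirst := D_FIRST.main stShortFace stFaceInj stFaceLen stDeg stChord
theorem stInner : StInner :=
  D_INNER.main stFirst stSide stRev stNest stEmpty stOffV stChord stConn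
theorem stEulD : StEulD := D_EULD.main stEul

theorem stDisc : StDisc := by
  intro V _ G hG R
  obtain ⟨m, v, y, hD⟩ := stInner V G hG R
  have hm : 3 ≤ m := by rcases hD.len with h | h <;> omega
  exact ⟨m, v, y,
    { hD with
      tf := hG.tf
      conn := stConn V G hG
      deg := stDeg V G hG
      finj := stFaceInj V G hG R
      flen := fun d hd => by
        have h1 := stFaceLen V G hG R d
        have h2 := stLong V G hG R m v y hD d hd
        omega
      one := stOne V G hG R m v y hD
      cor4 := stCor4 V G hG R m v y hD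
      cor5 := stCor5 V G hG R m v y hD
      euler := stEulD V G R m v y (stConn V G hG) hm hD.cyc hD.side }⟩

/-- a minimal counterexample exists if near-bipartiteness fails -/
theorem exists_minC {V : Type} [Fintype V] (G : SimpleGraph V) (hp : Planar G) (htf : TF G)
    (hn : ¬ NB G) : ∃ (W : Type) (_ : Fintype W) (H : SimpleGraph W), MinC H := by
  classical
  suffices h : ∀ n : ℕ, ∀ (V : Type) [Fintype V] (G : SimpleGraph V), Fintype.card V = n →
      Planar G → TF G → ¬ NB G → ∃ (W : Type) (_ : Fintype W) (H : SimpleGraph W), MinC H from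
    h _ V G rfl hp htf hn
  intro n
  induction n using Nat.strong_induction_on with
  | _ n ih =>
    intro V _ G hV hp htf hn
    by_cases hsm : ∀ (W : Type) [Fintype W] (H : SimpleGraph W), Fintype.card W < Fintype.card V →
        Planar H → TF H → NB H
    · exact ⟨V, inferInstance, G, hp, htf, hn, hsm⟩
    · push Not at hsm
      obtain ⟨W, hW, H, h1, h2, h3, h4⟩ := hsm
      exact ih _ (hV ▸ h1) W H rfl h2 h3 h4

end Pool.Agent.Helper35.PM
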