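import Pool.Agent.Helper35.PM.Rot
import Pool.Agent.Helper16.OddPack.Topo

/-!
# Plane maps: statements of the modules
-/

set_option autoImplicit false

namespace Pool.Agent.Helper35.PM

open Equiv Equiv.Perm

/-! ### Module POT -/

/-- a function with even sum at every vertex has a potential along the rotation -/
def StPot : Prop :=
  ∀ (V D : Type) [Fintype D] [DecidableEq V] (M : PMap V D) (x : D → ZMod 2),
    (∀ v, ∑ d ∈ Finset.univ.filter (fun d => M.t d = v), x d = 0) →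
    ∃ u : D → ZMod 2, ∀ d, u (M.r d) = u d + x d

/-! ### Module JOR (Jordan curve theorem) -/

/-- The side function of a closed curve `k` without repeated vertices: the darts off the curve have
one side, which is constant around vertices off the curve, along edges and along faces; the left side
of the curve is `0`, its right side is `1`. -/
def StJor : Prop :=
  ∀ (V D : Type) [Finite D] (M : PMap V D) (m : ℕ) [NeZero m] (k : ZMod m → D),
    (∀ j, M.t (M.ι (k j)) = M.t (k (j + 1))) → Function.Injective (fun j => M.t (k j)) →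
    (∀ i j, k i ≠ M.ι (k j)) →
    ∃ y : D → ZMod 2,
      (∀ d, y (M.φ d) = y d) ∧
      (∀ d, (∀ j, d ≠ k j ∧ d ≠ M.ι (k j)) → y (M.ι d) = y d ∧ y (M.r d) = y d) ∧
      (∀ j, y (k j) = 0 ∧ y (M.ι (k j)) = 1 ∧ y (M.r (k j)) = 1 ∧ y (M.r (M.ι (k j))) = 0)

/-! ### Module CUT -/

/-- Cutting along a cycle `v 0, ..., v (m-1)` of the plane graph `G`: for the side function `y` of
JOR, the subgraph `H` of all edges of side `1` together with the cycle has a planar rotation system in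
which the cycle is a face and all faces of `G` of side `1` are still faces. -/
def StCut : Prop :=
  ∀ (V : Type) [Finite V] (G : SimpleGraph V) (R : Rot G) (m : ℕ) [NeZero m] (v : ZMod m → V)
    (_hm : 3 ≤ m) (_hv : Function.Injective v) (hadj : ∀ j, G.Adj (v j) (v (j + 1)))
    (y : G.Dart → ZMod 2) (_hφ : ∀ d, y (R.φ d) = y d)
    (_hoff : ∀ d : G.Dart, (∀ j, d ≠ ⟨(v j, v (j + 1)), hadj j⟩ ∧
      d ≠ ⟨(v (j + 1), v j), (hadj j).symm⟩) → y d.symm = y d ∧ y (R.r d) = y d)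
    (_hon : ∀ j, y ⟨(v j, v (j + 1)), hadj j⟩ = 0 ∧ y ⟨(v (j + 1), v j), (hadj j).symm⟩ = 1)
    (H : SimpleGraph V) (_hH : ∀ a b, H.Adj a b ↔ ∃ h : G.Adj a b, (y ⟨(a, b), h⟩ = 1 ∨
      ∃ j, (a = v j ∧ b = v (j + 1)))),
    ∃ R' : Rot H,
      (∀ (j : ZMod m) (d : H.Dart), d.toProd = (v j, v (j + 1)) →
        (R'.φ d).toProd = (v (j + 1), v (j + 1 + 1))) ∧
      (∀ (d : H.Dart) (e : G.Dart), e.toProd = d.toProd → y e = 1 →
        (R'.φ d).toProd = (R.φ e).toProd)

/-! ### Module SEP (crossing paths) -/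

/-- `x` is a set of edges with odd degree exactly at `p1 = t d1` and `p3 = t d3`, `d1`, `d3` in one
face. Then there is a side function off `x` which separates the two arcs of the face. -/
def StSep : Prop :=
  ∀ (V D : Type) [Fintype D] [DecidableEq V] (M : PMap V D) (x : D → ZMod 2),
    (∀ d, x (M.ι d) = x d) → ∀ d1 d3 : D, M.t d1 ≠ M.t d3 → M.φ.SameCycle d1 d3 →
    (∀ v, ∑ d ∈ Finset.univ.filter (fun d => M.t d = v), x d =
      if v = M.t d1 ∨ v = M.t d3 then 1 else 0) →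
    ∃ y : D → ZMod 2,
      (∀ d, y (M.ι d) = y d + x d) ∧
      (∀ d, M.r d ≠ d1 → M.r d ≠ d3 → y (M.r d) = y d + x d) ∧
      (∀ d, M.φ d ≠ d1 → M.φ d ≠ d3 → y (M.φ d) = y d) ∧
      y d1 = 0 ∧ y d3 = 1 ∧
      (∀ n : ℕ, (∀ j, j < n → (M.φ ^ (j + 1)) d1 ≠ d3 ∧ (M.φ ^ (j + 1)) d1 ≠ d1) →
        y ((M.φ ^ n) d1) = 0) ∧
      (∀ n : ℕ, (∀ j, j < n → (M.φ ^ (j + 1)) d3 ≠ d1 ∧ (M.φ ^ (j + 1)) d3 ≠ d3) →
        y ((M.φ ^ n) d3) = 1)

/-! ### Module CUTV (a face which visits a vertex twice) -/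

/-- if a face visits the vertex `v` at two darts `d ≠ d'` then `v` is a cut vertex: there is a
2-colouring of the edges, constant around every other vertex, which separates `d` and `d'` -/
def StCutV : Prop :=
  ∀ (V D : Type) [Finite D] (M : PMap V D) (d d' : D), d ≠ d' → M.t d = M.t d' →
    M.φ.SameCycle d d' →
    ∃ c : D → ZMod 2, (∀ e, c (M.ι e) = c e) ∧ (∀ e, M.t e ≠ M.t d → c (M.r e) = c e) ∧
      c d ≠ c d'

/-! ### Module EUL (Euler's formula) -/

/-- Euler's formula for a connected plane graph with at least one edge -/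
def StEul : Prop :=
  ∀ (V : Type) [Fintype V] [DecidableEq V] (G : SimpleGraph V) [DecidableRel G.Adj] (R : Rot G),
    G.Connected → 2 ≤ Fintype.card V →
    (Fintype.card V : ℤ) - (G.edgeFinset.card : ℤ) +
      (Nat.card (Quotient (SameCycle.setoid R.φ)) : ℤ) = 2

/-! ### Module GRID -/

/-- the `n × n` grid -/
def gridG (n : ℕ) : SimpleGraph (Fin n × Fin n) where
  Adj p q := (p.1 = q.1 ∧ (p.2.val + 1 = q.2.val ∨ q.2.val + 1 = p.2.val)) ∨
    (p.2 = q.2 ∧ (p.1.val + 1 = q.1.val ∨ q.1.val + 1 = p.1.val))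
  symm := ⟨by
    rintro p q (⟨h1, h2⟩ | ⟨h1, h2⟩)
    · exact Or.inl ⟨h1.symm, h2.symm⟩
    · exact Or.inr ⟨h1.symm, h2.symm⟩⟩
  loopless := ⟨by
    rintro p (⟨_, h2⟩ | ⟨_, h2⟩) <;> omega⟩

/-- the square grid is planar -/
def StGrid : Prop := ∀ n : ℕ, Planar (gridG n)

/-! ### Module MIN (minors) -/

/-- a minor of a plane map is planar -/
def StMin : Prop :=
  ∀ (n : ℕ) (V W D : Type) [Fintype D] (M : PMap V D) (G : SimpleGraph W) (B : W → Set V),
    Fintype.card D ≤ n →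
    (∀ w, (B w).Nonempty) → (∀ w w', w ≠ w' → Disjoint (B w) (B w')) →
    (∀ w, ∀ a ∈ B w, ∀ b ∈ B w, Relation.ReflTransGen
      (fun p q => p ∈ B w ∧ q ∈ B w ∧ ∃ d, M.t d = p ∧ M.t (M.ι d) = q) a b) →
    (∀ w w', G.Adj w w' → ∃ d, M.t d ∈ B w ∧ M.t (M.ι d) ∈ B w') →
    Planar G

/-! ### Module TOP1 -/

/-- the planarity hypothesis of the frozen statement `S09643` -/
def ArcPlanar {V : Type} (G : SimpleGraph V) : Prop :=
  ∃ (p : V → ℝ × ℝ) (γ : V → V → ℝ → ℝ × ℝ), Function.Injective p ∧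
      (∀ u v, G.Adj u v →
        ContinuousOn (γ u v) (Set.Icc 0 1) ∧ Set.InjOn (γ u v) (Set.Icc 0 1) ∧
        γ u v 0 = p u ∧ γ u v 1 = p v ∧
        ∀ t ∈ Set.Ioo (0:ℝ) 1, ∀ w, γ u v t ≠ p w) ∧
      (∀ u v x y, G.Adj u v → G.Adj x y → s(u, v) ≠ s(x, y) →
        ∀ a ∈ Set.Ioo (0:ℝ) 1, ∀ b ∈ Set.Ioo (0:ℝ) 1, γ u v a ≠ γ x y b)

/-- arcs as functions on the reals give arcs as paths -/
def StTop1 : Prop :=
  ∀ (V : Type) (G : SimpleGraph V), ArcPlanar G → Pool.Agent.Helper16.OddPack.TopPlanar G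

/-! ### Module TOP2 -/

/-- minors of finite grids are planar (from GRID and MIN) -/
def StTop2 : Prop :=
  ∀ (V : Type) [Finite V] (G : SimpleGraph V), Pool.Agent.Helper16.OddPack.GridMinor G → Planar G

end Pool.Agent.Helper35.PM
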