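import Mathlib

/-!
# Plane maps: cohomological planarity and the elementary surgeries on permutations

`Pl r ι`: the combinatorial map with rotation `r` and edge involution `ι` has genus `0`, in the
cohomological form over `F₂`: every even set `x` of edges (symmetric under `ι`, with a potential `u`
along the rotation) is the boundary of a set `y` of faces.
-/

set_option autoImplicit false

namespace Pool.Agent.Helper35.PM

open Equiv Equiv.Perm

variable {D : Type}

/-- planarity of the combinatorial map with rotation `r` and edge involution `ι` -/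
def Pl (r : Perm D) (ι : D → D) : Prop :=
  ∀ x u : D → ZMod 2, (∀ d, x (ι d) = x d) → (∀ d, u (r d) = u d + x d) →
    ∃ y : D → ZMod 2, (∀ d, y (r d) = y d + x d) ∧ ∀ d, y (ι d) = y d + x d

theorem zadd_self (z : ZMod 2) : z + z = 0 := by
  fin_cases z <;> decide

theorem zadd_self' (z w : ZMod 2) : z + w + w = z := by
  rw [add_assoc, zadd_self, add_zero]

theorem eq_zero_of_eq_add {z w : ZMod 2} (h : z = z + w) : w = 0 := by
  revert h
  revert z w
  decide

/-- splitting a cycle: if `a ≠ b` are in one cycle of `π` then some function invariant under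
`π * swap a b` separates them -/
theorem exists_sep [Finite D] [DecidableEq D] (π : Perm D) {a b : D} (hab : a ≠ b)
    (h : π.SameCycle a b) :
    ∃ y : D → ZMod 2, (∀ d, y ((π * swap a b) d) = y d) ∧ y a = 1 ∧ y b = 0 := by
  classical
  -- least positive number of steps from `b` to `a`
  have hex : ∃ n : ℕ, (π ^ (n + 1)) b = a := by
    obtain ⟨k, hk⟩ := (SameCycle.symm h).exists_pow_eq'
    obtain ⟨hk1, hk2⟩ := hk
    rcases Nat.eq_zero_or_pos k with h0 | h0
    · subst h0
      simp only [pow_zero, Perm.coe_one, id_eq] at hk2
      exact absurd hk2.symm hab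
    · exact ⟨k - 1, by rw [Nat.sub_add_cancel h0]; exact hk2⟩
  let N := Nat.find hex
  have hN : (π ^ (N + 1)) b = a := Nat.find_spec hex
  have hmin : ∀ m, m < N → (π ^ (m + 1)) b ≠ a := fun m hm => Nat.find_min hex hm
  let S : Set D := {d | ∃ j ≤ N, (π ^ (j + 1)) b = d}
  have haS : a ∈ S := ⟨N, le_refl _, hN⟩
  have hbS : b ∉ S := by
    rintro ⟨j, hj, hjb⟩
    rcases lt_or_eq_of_le hj with hj' | hj'
    · have h1 : N + 1 = (N - j - 1 + 1) + (j + 1) := by omega
      have h2 : (π ^ (N - j - 1 + 1)) b = a := by
        rw [← hN]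
        conv_rhs => rw [h1, pow_add, Perm.mul_apply, hjb]
      exact hmin (N - j - 1) (by omega) h2
    · subst hj'
      exact hab (hN.symm.trans hjb)
  have hstep : ∀ d, d ∈ S → (π * swap a b) d ∈ S := by
    rintro d ⟨j, hj, hjd⟩
    by_cases hda : d = a
    · rw [hda, Perm.mul_apply, swap_apply_left]
      exact ⟨0, Nat.zero_le _, by simp⟩
    · have hdb : d ≠ b := by
        rintro rfl
        exact hbS ⟨j, hj, hjd⟩
      rw [Perm.mul_apply, swap_apply_of_ne_of_ne hda hdb]
      have hjN : j ≠ N := by
        rintro rfl
        exact hda (hjd.symm.trans hN)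
      refine ⟨j + 1, by omega, ?_⟩
      rw [pow_succ', Perm.mul_apply, hjd]
  have hback : ∀ d, (π * swap a b) d ∈ S → d ∈ S := by
    rintro d ⟨j, hj, hjd⟩
    by_cases hda : d = a
    · rw [hda]; exact haS
    · by_cases hdb : d = b
      · exfalso
        rw [hdb, Perm.mul_apply, swap_apply_right] at hjd
        rw [pow_succ', Perm.mul_apply] at hjd
        have h3 : (π ^ j) b = a := π.injective hjd
        rcases Nat.eq_zero_or_pos j with h0 | h0
        · rw [h0, pow_zero] at h3
          exact hab h3.symm
        · exact hmin (j - 1) (by omega) (by rw [Nat.sub_add_cancel h0]; exact h3)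
      · rw [Perm.mul_apply, swap_apply_of_ne_of_ne hda hdb] at hjd
        rw [pow_succ', Perm.mul_apply] at hjd
        have h3 : (π ^ j) b = d := π.injective hjd
        rcases Nat.eq_zero_or_pos j with h0 | h0
        · rw [h0, pow_zero] at h3
          exact absurd h3.symm hdb
        · exact ⟨j - 1, by omega, by rw [Nat.sub_add_cancel h0]; exact h3⟩
  refine ⟨fun d => if d ∈ S then 1 else 0, ?_, ?_, ?_⟩
  · intro d
    by_cases hd : d ∈ S
    · simp only [if_pos hd, if_pos (hstep d hd)]
    · simp only [if_neg hd, if_neg (fun h => hd (hback d h))]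
  · simp only [if_pos haS]
  · simp only [if_neg hbS]

/-- splitting a vertex at two corners -/
theorem Pl.split [Finite D] [DecidableEq D] {r : Perm D} {ι : D → D} (h : Pl r ι) {a b : D}
    (hab : a ≠ b) (hs : r.SameCycle a b) : Pl (r * swap a b) ι := by
  intro x u' hx hu'
  obtain ⟨s, hs1, hsa, hsb⟩ := exists_sep r hab hs
  have ha : (r * swap a b) a = r b := by rw [Perm.mul_apply, swap_apply_left]
  have hb : (r * swap a b) b = r a := by rw [Perm.mul_apply, swap_apply_right]
  have ho : ∀ d, d ≠ a → d ≠ b → (r * swap a b) d = r d := fun d h1 h2 => by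
    rw [Perm.mul_apply, swap_apply_of_ne_of_ne h1 h2]
  -- potential for `r` with equal values at `r a` and `r b`
  obtain ⟨u, hu1, hu2⟩ : ∃ u : D → ZMod 2, (∀ d, u ((r * swap a b) d) = u d + x d) ∧
      u (r a) = u (r b) := by
    by_cases h0 : u' (r a) = u' (r b)
    · exact ⟨u', hu', h0⟩
    · refine ⟨fun d => u' d + s d, ?_, ?_⟩
      · intro d
        show u' ((r * swap a b) d) + s ((r * swap a b) d) = u' d + s d + x d
        rw [hs1, hu']
        ring
      · have e1 : s (r b) = 1 := by rw [← ha, hs1, hsa]
        have e2 : s (r a) = 0 := by rw [← hb, hs1, hsb]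
        show u' (r a) + s (r a) = u' (r b) + s (r b)
        rw [e1, e2]
        revert h0
        generalize u' (r a) = p
        generalize u' (r b) = q
        revert p q
        decide
  have hur : ∀ d, u (r d) = u d + x d := by
    intro d
    by_cases hda : d = a
    · rw [hda, hu2, ← ha, hu1]
    · by_cases hdb : d = b
      · rw [hdb, ← hu2, ← hb, hu1]
      · rw [← ho d hda hdb, hu1]
  obtain ⟨y, hy1, hy2⟩ := h x u hx hur
  -- `y + u` is constant on the cycle of `a` and `b`
  have hconst : ∀ d d', r.SameCycle d d' → y d + u d = y d' + u d' := by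
    intro d d' hdd
    obtain ⟨k, hk⟩ := hdd.exists_nat_pow_eq
    rw [← hk]
    clear hk
    induction k with
    | zero => simp
    | succ k ih =>
      rw [pow_succ', Perm.mul_apply, hy1, hur, ih]
      have := zadd_self (x ((r ^ k) d))
      linear_combination -this
  have hyab : y (r a) = y (r b) := by
    have h1 := hconst (r a) (r b) (by
      rw [sameCycle_apply_left, sameCycle_apply_right]; exact hs)
    rw [hu2] at h1
    exact add_right_cancel h1
  refine ⟨y, ?_, hy2⟩
  intro d
  by_cases hda : d = a
  · rw [hda, ha, ← hyab, hy1]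
  · by_cases hdb : d = b
    · rw [hdb, hb, hyab, hy1]
    · rw [ho d hda hdb, hy1]

/-- identifying two vertices at corners of one face (the corner after `a` and the corner after
`b`; the face permutation is `d ↦ r (ι d)`) -/
theorem Pl.merge [Finite D] [DecidableEq D] {r : Perm D} {ι : D → D} (h : Pl r ι)
    (hι : Function.Involutive ι) {a b : D} (hab : a ≠ b)
    (hf : (r * hι.toPerm).SameCycle (ι a) (ι b)) : Pl (r * swap a b) ι := by
  have ha : (r * swap a b) a = r b := by rw [Perm.mul_apply, swap_apply_left]
  have hb : (r * swap a b) b = r a := by rw [Perm.mul_apply, swap_apply_right]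
  have ho : ∀ d, d ≠ a → d ≠ b → (r * swap a b) d = r d := fun d h1 h2 => by
    rw [Perm.mul_apply, swap_apply_of_ne_of_ne h1 h2]
  -- functions constant on faces
  have hface : ∀ (y x : D → ZMod 2), (∀ d, x (ι d) = x d) → (∀ d, y (r d) = y d + x d) →
      (∀ d, y (ι d) = y d + x d) → y (r a) = y (r b) := by
    intro y x hx h1 h2
    have h3 : ∀ d, y ((r * hι.toPerm) d) = y d := by
      intro d
      rw [Perm.mul_apply]
      show y (r (ι d)) = y d
      rw [h1, h2, hx, zadd_self']
    have h4 : ∀ d d', (r * hι.toPerm).SameCycle d d' → y d = y d' := by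
      intro d d' hdd
      obtain ⟨k, hk⟩ := hdd.exists_nat_pow_eq
      rw [← hk]
      clear hk
      induction k with
      | zero => simp
      | succ k ih => rw [pow_succ', Perm.mul_apply, h3, ih]
    have h5 := h4 _ _ hf
    have h6 : y (r a) = y (ι a) := by
      rw [h1, h2]
    have h7 : y (r b) = y (ι b) := by
      rw [h1, h2]
    rw [h6, h7, h5]
  -- the case of equal potentials
  have key : ∀ (x u : D → ZMod 2), (∀ d, x (ι d) = x d) →
      (∀ d, u ((r * swap a b) d) = u d + x d) → u (r a) = u (r b) →
      ∃ y : D → ZMod 2, (∀ d, y ((r * swap a b) d) = y d + x d) ∧ ∀ d, y (ι d) = y d + x d := by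
    intro x u hx hu hab'
    have hur : ∀ d, u (r d) = u d + x d := by
      intro d
      by_cases hda : d = a
      · rw [hda, hab', ← ha, hu]
      · by_cases hdb : d = b
        · rw [hdb, ← hab', ← hb, hu]
        · rw [← ho d hda hdb, hu]
    obtain ⟨y, hy1, hy2⟩ := h x u hx hur
    have hyab := hface y x hx hy1 hy2
    refine ⟨y, ?_, hy2⟩
    intro d
    by_cases hda : d = a
    · rw [hda, ha, ← hyab, hy1]
    · by_cases hdb : d = b
      · rw [hdb, hb, hyab, hy1]
      · rw [ho d hda hdb, hy1]
  intro x u hx hu
  by_cases h0 : u (r a) = u (r b)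
  · exact key x u hx hu h0
  · -- separate the two new faces
    have hne : ι a ≠ ι b := fun h => hab (hι.injective h)
    obtain ⟨s, hs1, hsa, hsb⟩ := exists_sep (r * hι.toPerm) hne hf
    have hφ : ∀ d, ((r * hι.toPerm) * swap (ι a) (ι b)) d = (r * swap a b) (ι d) := by
      intro d
      by_cases hda : d = ι a
      · subst hda
        rw [Perm.mul_apply, swap_apply_left, Perm.mul_apply]
        show r (ι (ι b)) = _
        rw [hι, hι, ha]
      · by_cases hdb : d = ι b
        · subst hdb
          rw [Perm.mul_apply, swap_apply_right, Perm.mul_apply]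
          show r (ι (ι a)) = _
          rw [hι, hι, hb]
        · rw [Perm.mul_apply, swap_apply_of_ne_of_ne hda hdb, Perm.mul_apply]
          show r (ι d) = _
          rw [ho (ι d)]
          · rintro h1; exact hda (by rw [← h1, hι])
          · rintro h1; exact hdb (by rw [← h1, hι])
    have hs2 : ∀ d, s ((r * swap a b) d) = s (ι d) := by
      intro d
      have := hs1 (ι d)
      rw [hφ, hι] at this
      exact this
    let z : D → ZMod 2 := fun d => s d + s (ι d)
    have hz : ∀ d, z (ι d) = z d := by
      intro d
      show s (ι d) + s (ι (ι d)) = s d + s (ι d)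
      rw [hι, add_comm]
    have hsz : ∀ d, s ((r * swap a b) d) = s d + z d := by
      intro d
      rw [hs2]
      show s (ι d) = s d + (s d + s (ι d))
      rw [← add_assoc, zadd_self, zero_add]
    have hszi : ∀ d, s (ι d) = s d + z d := by
      intro d
      show s (ι d) = s d + (s d + s (ι d))
      rw [← add_assoc, zadd_self, zero_add]
    obtain ⟨y, hy1, hy2⟩ := key (fun d => x d + z d) (fun d => u d + s d)
      (fun d => by show x (ι d) + z (ι d) = x d + z d; rw [hx, hz])
      (fun d => by
        show u ((r * swap a b) d) + s ((r * swap a b) d) = u d + s d + (x d + z d)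
        rw [hu, hsz]; ring)
      (by
        have e1 : s (r b) = 1 := by rw [← ha, hs2, hsa]
        have e2 : s (r a) = 0 := by rw [← hb, hs2, hsb]
        show u (r a) + s (r a) = u (r b) + s (r b)
        rw [e1, e2]
        revert h0
        generalize u (r a) = p
        generalize u (r b) = q
        revert p q
        decide)
    refine ⟨fun d => y d + s d, ?_, ?_⟩
    · intro d
      show y ((r * swap a b) d) + s ((r * swap a b) d) = y d + s d + x d
      rw [hy1, hsz]
      have := zadd_self (z d)
      linear_combination this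
    · intro d
      show y (ι d) + s (ι d) = y d + s d + x d
      rw [hy2, hszi]
      have := zadd_self (z d)
      linear_combination this

/-- take the dart `e` out of its cycle -/
def detach [DecidableEq D] (r : Perm D) (e : D) : Perm D := swap e (r e) * r

theorem detach_self [DecidableEq D] (r : Perm D) (e : D) : detach r e e = e := by
  rw [detach, Perm.mul_apply, swap_apply_right]

theorem detach_of_ne [DecidableEq D] (r : Perm D) {e d : D} (h1 : d ≠ e) (h2 : r d ≠ e) :
    detach r e d = r d := by
  rw [detach, Perm.mul_apply, swap_apply_of_ne_of_ne h2]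
  exact fun h => h1 (r.injective h)

theorem detach_of_eq [DecidableEq D] (r : Perm D) {e d : D} (h2 : r d = e) :
    detach r e d = r e := by
  rw [detach, Perm.mul_apply, h2, swap_apply_left]

theorem detach_pot [DecidableEq D] {r : Perm D} {e : D} {x y : D → ZMod 2} (he : x e = 0)
    (h : ∀ d, y (r d) = y d + x d) : ∀ d, y (detach r e d) = y d + x d := by
  intro d
  by_cases h1 : d = e
  · rw [h1, detach_self, he, add_zero]
  · by_cases h2 : r d = e
    · rw [detach_of_eq r h2, h, he, add_zero, ← h2, h]
    · rw [detach_of_ne r h1 h2, h]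

/-- extension of a potential to a detached dart -/
def extPot [DecidableEq D] (r : Perm D) (e : D) (u : D → ZMod 2) : D → ZMod 2 :=
  fun d => if d = e then u (r e) else u d

theorem detach_pot' [DecidableEq D] {r : Perm D} {e : D} {x u : D → ZMod 2}
    (h : ∀ d, u (detach r e d) = u d + x d) :
    ∀ d, extPot r e u (r d) = extPot r e u d + x d := by
  have he : x e = 0 := by
    have := h e
    rw [detach_self] at this
    exact eq_zero_of_eq_add this
  intro d
  unfold extPot
  by_cases h1 : d = e
  · rw [if_pos h1, h1, he, add_zero]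
    by_cases h3 : r e = e
    · rw [if_pos h3]
    · rw [if_neg h3]
  · rw [if_neg h1]
    by_cases h2 : r d = e
    · rw [if_pos h2, ← detach_of_eq r h2, h]
    · rw [if_neg h2, ← detach_of_ne r h1 h2, h]

/-- detaching a dart preserves planarity -/
theorem Pl.detach [DecidableEq D] {r : Perm D} {ι : D → D} (h : Pl r ι) (e : D) :
    Pl (PM.detach r e) ι := by
  intro x u hx hu
  obtain ⟨y, hy1, hy2⟩ := h x _ hx (detach_pot' hu)
  have he : x e = 0 := by
    have := hu e
    rw [detach_self] at this
    exact eq_zero_of_eq_add this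
  exact ⟨y, detach_pot he hy1, hy2⟩

/-- contraction of the edge `e`: the two darts `e`, `ι e` become fixed points -/
theorem Pl.contract [DecidableEq D] {r : Perm D} {ι : D → D} (h : Pl r ι)
    (hι : Function.Involutive ι) (e : D) (hne : ι e ≠ e) :
    Pl (PM.detach (PM.detach (r * swap e (ι e)) e) (ι e)) ι := by
  intro x u' hx hu'
  have hxe' : x (ι e) = 0 := by
    have := hu' (ι e)
    rw [detach_self] at this
    exact eq_zero_of_eq_add this
  have hxe : x e = 0 := by rw [← hx]; exact hxe'
  have hu1 := detach_pot' hu'
  have hu2 := detach_pot' hu1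
  generalize extPot (r * swap e (ι e)) e (extPot (PM.detach (r * swap e (ι e)) e) (ι e) u') = U
    at hu2
  have ha : (r * swap e (ι e)) e = r (ι e) := by rw [Perm.mul_apply, swap_apply_left]
  have hb : (r * swap e (ι e)) (ι e) = r e := by rw [Perm.mul_apply, swap_apply_right]
  have ho : ∀ d, d ≠ e → d ≠ ι e → (r * swap e (ι e)) d = r d := fun d h1 h2 => by
    rw [Perm.mul_apply, swap_apply_of_ne_of_ne h1 h2]
  let t : ZMod 2 := U e + U (ι e)
  let x2 : D → ZMod 2 := fun d => if d = e ∨ d = ι e then t else x d
  have hx2 : ∀ d, x2 (ι d) = x2 d := by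
    intro d
    by_cases h1 : d = e ∨ d = ι e
    · have h2 : ι d = e ∨ ι d = ι e := by
        rcases h1 with h1 | h1
        · right; rw [h1]
        · left; rw [h1, hι]
      simp only [x2, if_pos h1, if_pos h2]
    · have h2 : ¬ (ι d = e ∨ ι d = ι e) := by
        rintro (h2 | h2)
        · exact h1 (Or.inr (by rw [← h2, hι]))
        · exact h1 (Or.inl (hι.injective h2))
      simp only [x2, if_neg h1, if_neg h2, hx]
  have hU2 : ∀ d, U (r d) = U d + x2 d := by
    intro d
    by_cases h1 : d = e
    · subst h1
      rw [← hb, hu2, hxe', add_zero]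
      simp only [x2, true_or, if_true]
      show U (ι d) = U d + (U d + U (ι d))
      rw [← add_assoc, zadd_self, zero_add]
    · by_cases h2 : d = ι e
      · subst h2
        rw [← ha, hu2, hxe, add_zero]
        simp only [x2, or_true, if_true]
        show U e = U (ι e) + (U e + U (ι e))
        rw [add_comm (U e), ← add_assoc, zadd_self, zero_add]
      · have h3 : ¬ (d = e ∨ d = ι e) := by tauto
        rw [← ho d h1 h2, hu2]
        simp only [x2, if_neg h3]
  obtain ⟨y, hy1, hy2⟩ := h x2 U hx2 hU2
  have hye : y (ι e) = y e + t := by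
    have := hy2 e
    simp only [x2, true_or, if_true] at this
    exact this
  -- `y` along the glued rotation
  have hy3 : ∀ d, y ((r * swap e (ι e)) d) = y d + x d := by
    intro d
    by_cases h1 : d = e
    · rw [h1, ha, hy1, hxe, add_zero]
      simp only [x2, or_true, if_true]
      rw [hye, add_assoc, zadd_self, add_zero]
    · by_cases h2 : d = ι e
      · rw [h2, hb, hy1, hxe', add_zero]
        simp only [x2, true_or, if_true]
        rw [hye]
      · have h3 : ¬ (d = e ∨ d = ι e) := by tauto
        rw [ho d h1 h2, hy1]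
        simp only [x2, if_neg h3]
  have hy4 := detach_pot hxe hy3
  have hy5 := detach_pot hxe' hy4
  set R := PM.detach (PM.detach (r * swap e (ι e)) e) (ι e) with hR
  have hfix1 : R (ι e) = ι e := detach_self _ _
  have hfix2 : R e = e := by
    rw [hR]
    have h1 : PM.detach (r * swap e (ι e)) e e = e := detach_self _ _
    rw [detach_of_ne _ (Ne.symm hne) (by rw [h1]; exact Ne.symm hne), h1]
  refine ⟨fun d => if d = e ∨ d = ι e then 0 else y d, ?_, ?_⟩
  · intro d
    by_cases h1 : d = e
    · rw [h1, hfix2, hxe, add_zero]
    · by_cases h2 : d = ι e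
      · rw [h2, hfix1, hxe', add_zero]
      · have h3 : ¬ (d = e ∨ d = ι e) := by tauto
        have h4 : ¬ (R d = e ∨ R d = ι e) := by
          rintro (h4 | h4)
          · exact h1 (R.injective (h4.trans hfix2.symm))
          · exact h2 (R.injective (h4.trans hfix1.symm))
        simp only [if_neg h3, if_neg h4]
        exact hy5 d
  · intro d
    by_cases h1 : d = e ∨ d = ι e
    · have h2 : ι d = e ∨ ι d = ι e := by
        rcases h1 with h1 | h1
        · right; rw [h1]
        · left; rw [h1, hι]
      have h3 : x d = 0 := by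
        rcases h1 with h1 | h1
        · rw [h1, hxe]
        · rw [h1, hxe']
      simp only [if_pos h1, if_pos h2, h3, add_zero]
    · have h2 : ¬ (ι d = e ∨ ι d = ι e) := by
        rintro (h2 | h2)
        · exact h1 (Or.inr (by rw [← h2, hι]))
        · exact h1 (Or.inl (hι.injective h2))
      simp only [if_neg h1, if_neg h2]
      rw [hy2]
      simp only [x2, if_neg h1]

end Pool.Agent.Helper35.PM
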