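import Pool.Agent.Helper35.PM.Base

/-!
# Cycles of a permutation under `swap` and `detach`
-/

set_option autoImplicit false

namespace Pool.Agent.Helper35.PM

open Equiv Equiv.Perm

variable {D : Type}

theorem sameCycle_of_step {r r' : Perm D} (h : ∀ d, r'.SameCycle d (r d)) {d d' : D}
    (hdd : r.SameCycle d d') : r'.SameCycle d d' := by
  obtain ⟨k, hk⟩ := hdd
  rw [← hk]
  have hn : ∀ (n : ℕ) (d : D), r'.SameCycle d ((r ^ n) d) := by
    intro n
    induction n with
    | zero => intro d; rw [pow_zero]; exact SameCycle.refl _ _
    | succ n ih =>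
      intro d
      rw [pow_succ', Perm.mul_apply]
      exact (ih d).trans (h _)
  rcases Int.eq_nat_or_neg k with ⟨n, rfl | rfl⟩
  · rw [zpow_natCast]; exact hn n d
  · have := hn n ((r ^ (-(n : ℤ))) d)
    rw [← Perm.mul_apply, ← zpow_natCast, ← zpow_add] at this
    simp only [add_neg_cancel, zpow_zero, Perm.coe_one, id_eq] at this
    exact this.symm

theorem not_sameCycle_mul_swap [Finite D] [DecidableEq D] {r : Perm D} {a b : D} (hab : a ≠ b)
    (h : r.SameCycle a b) : ¬ (r * swap a b).SameCycle a b := by
  obtain ⟨y, hy, ha, hb⟩ := exists_sep r hab h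
  intro hs
  obtain ⟨k, hk⟩ := hs.exists_nat_pow_eq
  have : ∀ n : ℕ, y (((r * swap a b) ^ n) a) = y a := by
    intro n
    induction n with
    | zero => simp
    | succ n ih => rw [pow_succ', Perm.mul_apply, hy, ih]
  have h1 := this k
  rw [hk, ha, hb] at h1
  exact absurd h1 (by decide)

/-- merging two cycles -/
theorem sameCycle_mul_swap [Finite D] [DecidableEq D] {r : Perm D} {a b : D}
    (h : ¬ r.SameCycle a b) : (r * swap a b).SameCycle a b := by
  have hab : a ≠ b := fun h0 => h (h0 ▸ SameCycle.refl _ _)
  have ha : (r * swap a b) a = r b := by rw [Perm.mul_apply, swap_apply_left]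
  have ho : ∀ d, d ≠ a → d ≠ b → (r * swap a b) d = r d := fun d h1 h2 => by
    rw [Perm.mul_apply, swap_apply_of_ne_of_ne h1 h2]
  -- walk along the cycle of `b`
  have hwalk : ∀ n : ℕ, (∃ m, m ≤ n ∧ (r ^ (m + 1)) b = b) ∨
      (r * swap a b).SameCycle a ((r ^ (n + 1)) b) := by
    intro n
    induction n with
    | zero =>
      right
      rw [zero_add, pow_one, ← ha]
      exact (sameCycle_apply_right).2 (SameCycle.refl _ _)
    | succ n ih =>
      rcases ih with ⟨m, hm, hmb⟩ | ih
      · exact Or.inl ⟨m, by omega, hmb⟩
      · by_cases hb : (r ^ (n + 1)) b = b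
        · exact Or.inl ⟨n, by omega, hb⟩
        · right
          have hna : (r ^ (n + 1)) b ≠ a := by
            intro h0
            exact h (SameCycle.symm ⟨((n + 1 : ℕ) : ℤ), by rw [zpow_natCast]; exact h0⟩)
          rw [pow_succ', Perm.mul_apply, ← ho _ hna hb]
          exact (sameCycle_apply_right).2 ih
  -- the least return time
  have hex : ∃ m : ℕ, (r ^ (m + 1)) b = b := by
    have hfin : IsOfFinOrder r := isOfFinOrder_of_finite r
    refine ⟨orderOf r - 1, ?_⟩
    rw [Nat.sub_add_cancel hfin.orderOf_pos, pow_orderOf_eq_one]
    simp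
  classical
  let m := Nat.find hex
  have hm : (r ^ (m + 1)) b = b := Nat.find_spec hex
  rcases Nat.eq_zero_or_pos m with h0 | h0
  · rw [h0, zero_add, pow_one] at hm
    have : (r * swap a b) a = b := by rw [ha, hm]
    have h5 : (r * swap a b).SameCycle a ((r * swap a b) a) :=
      (sameCycle_apply_right).2 (SameCycle.refl _ _)
    rwa [this] at h5
  · rcases hwalk (m - 1) with ⟨j, hj, hjb⟩ | hw
    · exact absurd hjb (Nat.find_min hex (by omega))
    · rw [Nat.sub_add_cancel h0] at hw
      have hna : (r ^ m) b ≠ a := by
        intro h1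
        exact h (SameCycle.symm ⟨(m : ℤ), by rw [zpow_natCast]; exact h1⟩)
      have hnb : (r ^ m) b ≠ b := by
        intro h1
        exact Nat.find_min hex (m := m - 1) (by omega) (by rw [Nat.sub_add_cancel h0]; exact h1)
      have hlast : (r * swap a b) ((r ^ m) b) = b := by
        rw [ho _ hna hnb, ← Perm.mul_apply, ← pow_succ', hm]
      have h5 : (r * swap a b).SameCycle a ((r * swap a b) ((r ^ m) b)) :=
        (sameCycle_apply_right).2 hw
      rwa [hlast] at h5

/-- merging keeps the old cycles together -/
theorem SameCycle.mul_swap [Finite D] [DecidableEq D] {r : Perm D} {a b : D}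
    (h : ¬ r.SameCycle a b) {d d' : D} (hd : r.SameCycle d d') :
    (r * swap a b).SameCycle d d' := by
  have hab := sameCycle_mul_swap h
  refine sameCycle_of_step (fun d => ?_) hd
  by_cases hda : d = a
  · have hb : (r * swap a b) b = r a := by rw [Perm.mul_apply, swap_apply_right]
    rw [hda, ← hb]
    exact (sameCycle_apply_right).2 hab
  · by_cases hdb : d = b
    · have ha : (r * swap a b) a = r b := by rw [Perm.mul_apply, swap_apply_left]
      rw [hdb, ← ha]
      exact (sameCycle_apply_right).2 hab.symm
    · have : (r * swap a b) d = r d := by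
        rw [Perm.mul_apply, swap_apply_of_ne_of_ne hda hdb]
      rw [← this]
      exact (sameCycle_apply_right).2 (SameCycle.refl _ _)

/-- after splitting, every dart of the old cycle is in one of the two new cycles -/
theorem sameCycle_split [DecidableEq D] {r : Perm D} {a b d : D}
    (h : r.SameCycle a d) :
    (r * swap a b).SameCycle a d ∨ (r * swap a b).SameCycle b d := by
  have ha : (r * swap a b) a = r b := by rw [Perm.mul_apply, swap_apply_left]
  have hb : (r * swap a b) b = r a := by rw [Perm.mul_apply, swap_apply_right]
  have ho : ∀ d, d ≠ a → d ≠ b → (r * swap a b) d = r d := fun d h1 h2 => by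
    rw [Perm.mul_apply, swap_apply_of_ne_of_ne h1 h2]
  have step : ∀ d, ((r * swap a b).SameCycle a d ∨ (r * swap a b).SameCycle b d) ↔
      ((r * swap a b).SameCycle a (r d) ∨ (r * swap a b).SameCycle b (r d)) := by
    intro d
    by_cases hda : d = a
    · subst hda
      constructor
      · intro _
        right
        rw [← hb]
        exact (sameCycle_apply_right).2 (SameCycle.refl _ _)
      · intro _
        exact Or.inl (SameCycle.refl _ _)
    · by_cases hdb : d = b
      · subst hdb
        constructor
        · intro _
          left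
          rw [← ha]
          exact (sameCycle_apply_right).2 (SameCycle.refl _ _)
        · intro _
          exact Or.inr (SameCycle.refl _ _)
      · rw [← ho d hda hdb, sameCycle_apply_right, sameCycle_apply_right]
  have hn : ∀ (n : ℕ) (d : D), ((r * swap a b).SameCycle a d ∨ (r * swap a b).SameCycle b d) ↔
      ((r * swap a b).SameCycle a ((r ^ n) d) ∨ (r * swap a b).SameCycle b ((r ^ n) d)) := by
    intro n
    induction n with
    | zero => intro d; simp
    | succ n ih =>
      intro d
      rw [pow_succ', Perm.mul_apply, ← step, ← ih]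
  obtain ⟨k, hk⟩ := h
  rcases Int.eq_nat_or_neg k with ⟨n, rfl | rfl⟩
  · rw [← hk, zpow_natCast]
    exact (hn n a).1 (Or.inl (SameCycle.refl _ _))
  · refine (hn n d).2 ?_
    have : (r ^ n) d = a := by
      rw [← hk, ← Perm.mul_apply, ← zpow_natCast, ← zpow_add]
      simp
    rw [this]
    exact Or.inl (SameCycle.refl _ _)

/-! ### detaching -/

theorem detach_sameCycle [DecidableEq D] [Finite D] {r : Perm D} {e d d' : D} (hd : d ≠ e)
    (hd' : d' ≠ e) (h : r.SameCycle d d') : (detach r e).SameCycle d d' := by
  obtain ⟨k, hk⟩ := h.exists_nat_pow_eq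
  have key : ∀ n : ℕ, (r ^ n) d ≠ e → (detach r e).SameCycle d ((r ^ n) d) := by
    intro n
    induction n using Nat.strong_induction_on with
    | _ n ih =>
      intro hn
      rcases Nat.eq_zero_or_pos n with h0 | h0
      · subst h0; rw [pow_zero]; exact SameCycle.refl _ _
      · obtain ⟨m, rfl⟩ : ∃ m, n = m + 1 := ⟨n - 1, by omega⟩
        by_cases hm : (r ^ m) d = e
        · rcases Nat.eq_zero_or_pos m with h1 | h1
          · subst h1
            exact absurd (by simpa using hm) hd
          · obtain ⟨j, rfl⟩ : ∃ j, m = j + 1 := ⟨m - 1, by omega⟩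
            have hq : r ((r ^ j) d) = e := by
              rw [← Perm.mul_apply, ← pow_succ', hm]
            have hqe : (r ^ j) d ≠ e := by
              intro h2
              apply hn
              rw [pow_succ', Perm.mul_apply, hm, ← h2]
              rw [h2]
              rw [h2] at hq
              exact hq
            have h3 := ih j (by omega) hqe
            have h4 : detach r e ((r ^ j) d) = (r ^ (j + 1 + 1)) d := by
              rw [detach_of_eq r hq, pow_succ' r (j + 1), Perm.mul_apply, hm]
            rw [← h4]
            exact (sameCycle_apply_right).2 h3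
        · have h3 := ih m (by omega) hm
          have h4 : detach r e ((r ^ m) d) = (r ^ (m + 1)) d := by
            rw [detach_of_ne r hm, pow_succ', Perm.mul_apply]
            rw [pow_succ', Perm.mul_apply] at hn
            exact hn
          rw [← h4]
          exact (sameCycle_apply_right).2 h3
  rw [← hk]
  exact key k (by rw [hk]; exact hd')

/-- `detachL r l`: take all darts of the list `l` out of their cycles -/
def detachL [DecidableEq D] (r : Perm D) : List D → Perm D
  | [] => r
  | e :: l => detach (detachL r l) e

theorem detachL_fix [DecidableEq D] (r : Perm D) (l : List D) :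
    ∀ e ∈ l, detachL r l e = e := by
  induction l with
  | nil => intro e he; exact absurd he (List.not_mem_nil)
  | cons a l ih =>
    intro e he
    rcases List.mem_cons.1 he with rfl | he
    · exact detach_self _ _
    · by_cases hea : e = a
      · subst hea; exact detach_self _ _
      · have h1 := ih e he
        show detach (detachL r l) a e = e
        rw [detach_of_ne _ hea (by rw [h1]; exact hea), h1]

theorem detachL_notMem [DecidableEq D] (r : Perm D) (l : List D) {d : D} (hd : d ∉ l) :
    detachL r l d ∉ l := by
  intro h
  have h1 := detachL_fix r l _ h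
  exact hd ((detachL r l).injective h1 ▸ h)

theorem detachL_of_notMem [DecidableEq D] (r : Perm D) (l : List D) {d : D} (hd : d ∉ l)
    (hr : r d ∉ l) : detachL r l d = r d := by
  induction l with
  | nil => rfl
  | cons a l ih =>
    rw [List.mem_cons, not_or] at hd hr
    have h1 := ih hd.2 hr.2
    show detach (detachL r l) a d = r d
    rw [detach_of_ne _ hd.1 (by rw [h1]; exact hr.1), h1]

theorem detachL_sameCycle [DecidableEq D] [Finite D] {r : Perm D} (l : List D) {d d' : D}
    (hd : d ∉ l) (hd' : d' ∉ l) (h : r.SameCycle d d') : (detachL r l).SameCycle d d' := by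
  induction l with
  | nil => exact h
  | cons a l ih =>
    rw [List.mem_cons, not_or] at hd hd'
    exact detach_sameCycle hd.1 hd'.1 (ih hd.2 hd'.2)

theorem Pl.detachL [DecidableEq D] {r : Perm D} {ι : D → D} (h : Pl r ι) (l : List D) :
    Pl (PM.detachL r l) ι := by
  induction l with
  | nil => exact h
  | cons a l ih => exact ih.detach a

/-- an invariant of the rotation is an invariant of the detached rotation -/
theorem detachL_inv [DecidableEq D] {X : Type*} {r : Perm D} (t : D → X) (ht : ∀ d, t (r d) = t d)
    (l : List D) : ∀ d, t (PM.detachL r l d) = t d := by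
  induction l with
  | nil => exact ht
  | cons a l ih =>
    intro d
    show t (detach (PM.detachL r l) a d) = t d
    by_cases h1 : d = a
    · rw [h1, detach_self]
    · by_cases h2 : PM.detachL r l d = a
      · rw [detach_of_eq _ h2, ih, ← h2, ih]
      · rw [detach_of_ne _ h1 h2, ih]

/-- the detached rotation goes to the first dart of the cycle that is not removed -/
theorem detachL_spec [DecidableEq D] (r : Perm D) (l : List D) :
    ∀ d, d ∉ l → ∃ k : ℕ, PM.detachL r l d = (r ^ (k + 1)) d ∧ ∀ j < k, (r ^ (j + 1)) d ∈ l := by
  induction l with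
  | nil => intro d _; exact ⟨0, by simp [PM.detachL], by simp⟩
  | cons a l ih =>
    intro d hd
    rw [List.mem_cons, not_or] at hd
    obtain ⟨k, hk, hj⟩ := ih d hd.2
    by_cases h2 : PM.detachL r l d = a
    · have hal : a ∉ l := by
        intro hal
        exact detachL_notMem r l hd.2 (h2 ▸ hal)
      obtain ⟨k', hk', hj'⟩ := ih a hal
      refine ⟨k + 1 + k', ?_, ?_⟩
      · show detach (PM.detachL r l) a d = _
        rw [detach_of_eq _ h2, hk', ← h2, hk, ← Perm.mul_apply, ← pow_add]
        congr 2
        omega
      · intro j hjk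
        rcases lt_trichotomy j k with h3 | h3 | h3
        · exact List.mem_cons_of_mem _ (hj j h3)
        · rw [h3, ← hk, h2]
          exact List.mem_cons_self
        · obtain ⟨i, rfl⟩ : ∃ i, j = k + 1 + i := ⟨j - (k + 1), by omega⟩
          have h4 : (r ^ (k + 1 + i + 1)) d = (r ^ (i + 1)) a := by
            rw [← h2, hk, ← Perm.mul_apply, ← pow_add]
            congr 2
            omega
          rw [h4]
          exact List.mem_cons_of_mem _ (hj' i (by omega))
    · refine ⟨k, ?_, fun j hjk => List.mem_cons_of_mem _ (hj j hjk)⟩
      show detach (PM.detachL r l) a d = _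
      rw [detach_of_ne _ hd.1 h2, hk]

end Pool.Agent.Helper35.PM
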