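import Pool.Agent.Helper35.PM.St2
import Pool.Agent.Helper35.PM.M_CUT

/-!
# Module EULD: Euler's formula for a closed disc
-/

set_option autoImplicit false

namespace Pool.Agent.Helper35.PM.D_EULD

open Equiv Equiv.Perm

theorem card_quot {D X : Type} (s : Setoid D) (f : D → X) (hf : Function.Surjective f)
    (h : ∀ d d', f d = f d' ↔ s d d') : Nat.card (Quotient s) = Nat.card X := by
  apply Nat.card_congr
  refine Equiv.ofBijective (Quotient.lift f (fun a b hab => (h a b).2 hab)) ⟨?_, ?_⟩
  · rintro ⟨a⟩ ⟨b⟩ hab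
    exact Quotient.sound ((h a b).1 hab)
  · intro x
    obtain ⟨d, rfl⟩ := hf x
    exact ⟨Quotient.mk s d, rfl⟩

theorem offv {V : Type} [Finite V] {G : SimpleGraph V} {R : Rot G} {m : ℕ} {v : ZMod m → V}
    {y : G.Dart → ZMod 2} (hS : Side R m v y) {w : V} (hw : w ∉ Set.range v) {d d' : G.Dart}
    (h : d.fst = w) (h' : d'.fst = w) : y d = y d' := by
  classical
  have _ := Fintype.ofFinite V
  obtain ⟨k, hk⟩ := (R.trans d d' (h.trans h'.symm)).exists_nat_pow_eq
  have key : ∀ n : ℕ, ((R.r ^ n) d).fst = w ∧ y ((R.r ^ n) d) = y d := by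
    intro n
    induction n with
    | zero => exact ⟨h, rfl⟩
    | succ n ih =>
      rw [pow_succ', Perm.mul_apply]
      refine ⟨by rw [R.fst_r]; exact ih.1, ?_⟩
      rw [(hS.off _ ?_).2, ih.2]
      intro j
      constructor
      · intro h1
        exact hw ⟨j, by rw [← ih.1]; exact (congrArg Prod.fst h1).symm⟩
      · intro h1
        exact hw ⟨j + 1, by rw [← ih.1]; exact (congrArg Prod.fst h1).symm⟩
  rw [← hk, (key k).2]

/-- the graph of all edges of side `1` together with the cycle -/
def HG {V : Type} {G : SimpleGraph V} {R : Rot G} {m : ℕ} {v : ZMod m → V}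
    {y : G.Dart → ZMod 2} (hS : Side R m v y) : SimpleGraph V where
  Adj a b := ∃ h : G.Adj a b, (y ⟨(a, b), h⟩ = 1 ∨ ∃ j, (a = v j ∧ b = v (j + 1)))
  symm := ⟨by
    rintro a b ⟨h, h1⟩
    refine ⟨h.symm, ?_⟩
    by_cases h2 : ∃ j, (b = v j ∧ a = v (j + 1))
    · exact Or.inr h2
    · left
      rcases h1 with h1 | ⟨j, h3, h4⟩
      · by_cases h5 : ∃ j, (a = v j ∧ b = v (j + 1))
        · obtain ⟨j, h3, h4⟩ := h5
          exact hS.on1 ⟨(b, a), h.symm⟩ j (Prod.ext h4 h3)
        · rw [← h1]
          exact (hS.off ⟨(a, b), h⟩ (fun j => ⟨fun h6 => h5 ⟨j, congrArg Prod.fst h6,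
            congrArg Prod.snd h6⟩, fun h6 => h2 ⟨j, congrArg Prod.snd h6,
              congrArg Prod.fst h6⟩⟩)).1
      · exact hS.on1 ⟨(b, a), h.symm⟩ j (Prod.ext h4 h3)⟩
  loopless := ⟨fun a h => G.loopless.irrefl a h.1⟩

theorem main (hEul : StEul) : StEulD := by
  classical
  intro V _ G R m v y hconn hm hcyc hS
  have _ := Fintype.ofFinite V
  have _ : NeZero m := ⟨by omega⟩
  have hmo : (0 : ZMod m) ≠ 1 := by
    intro h
    have h1 : (1 : ZMod m) = ((1 : ℕ) : ZMod m) := by simp
    have h2 : (0 : ZMod m) = ((0 : ℕ) : ZMod m) := by simp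
    rw [h1, h2, ZMod.natCast_eq_natCast_iff] at h
    have h3 := h
    unfold Nat.ModEq at h3
    rw [Nat.mod_eq_of_lt (by omega), Nat.mod_eq_of_lt (by omega)] at h3
    omega
  let H := HG hS
  have hH : ∀ a b, H.Adj a b ↔ ∃ h : G.Adj a b, (y ⟨(a, b), h⟩ = 1 ∨
      ∃ j, (a = v j ∧ b = v (j + 1))) := fun a b => Iff.rfl
  obtain ⟨R1, hR1a, hR1b⟩ := M_CUT.main V G R m v hm hcyc.inj hcyc.adj y hS.face
    (fun d hd => hS.off d (fun j => ⟨fun h => (hd j).1 (SimpleGraph.Dart.ext _ _ h),
      fun h => (hd j).2 (SimpleGraph.Dart.ext _ _ h)⟩))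
    (fun j => ⟨hS.on0 _ j rfl, hS.on1 _ j rfl⟩) H hH
  -- the vertices
  let P : V → Prop := fun w => Int y w ∨ w ∈ Set.range v
  have hend : ∀ a b, H.Adj a b → P a := by
    intro a b hab
    by_cases ha : a ∈ Set.range v
    · exact Or.inr ha
    · left
      obtain ⟨h, h1 | ⟨j, h1, -⟩⟩ := (hH a b).1 hab
      · intro d hd
        rw [← h1]
        exact offv hS ha hd rfl
      · exact absurd ⟨j, h1.symm⟩ ha
  have hnI : ∀ j, ¬ Int y (v j) := by
    intro j h
    have h1 := h ⟨(v j, v (j + 1)), hcyc.adj j⟩ rfl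
    rw [hS.on0 _ j rfl] at h1
    exact absurd h1 (by decide)
  let U := {w // P w}
  let K : SimpleGraph U := H.comap Subtype.val
  obtain ⟨R2, hR2⟩ := R1.exists_sub (G' := K) Subtype.val Subtype.val_injective
    (fun a b h => h)
  let E : K.Dart → G.Dart := fun d => ⟨(d.fst.1, d.snd.1), d.adj.1⟩
  let E1 : K.Dart → H.Dart := fun d => ⟨(d.fst.1, d.snd.1), d.adj⟩
  have hEinj : Function.Injective E := by
    intro d d' h
    have h1 := congrArg SimpleGraph.Dart.toProd h
    have h2 := congrArg Prod.fst h1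
    have h3 := congrArg Prod.snd h1
    apply SimpleGraph.Dart.ext
    exact Prod.ext (Subtype.ext h2) (Subtype.ext h3)
  have hE1surj : ∀ e : H.Dart, ∃ d, (E1 d).toProd = e.toProd := by
    intro e
    exact ⟨⟨(⟨e.fst, hend _ _ e.adj⟩, ⟨e.snd, hend _ _ e.adj.symm⟩), e.adj⟩, rfl⟩
  have hφ2 : ∀ d : K.Dart, (E (R2.φ d)).toProd = (R1.φ (E1 d)).toProd := by
    intro d
    obtain ⟨d', hd'⟩ := hE1surj (R1.φ (E1 d))
    have h1 : R2.φ d = d' := hR2 d d' (E1 d) (R1.φ (E1 d)) rfl hd'.symm rfl
    rw [h1, ← hd']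
  have hA : ∀ d : K.Dart, y (E d) = 1 → E (R2.φ d) = R.φ (E d) := by
    intro d hd
    apply SimpleGraph.Dart.ext
    rw [hφ2]
    exact hR1b (E1 d) (E d) rfl hd
  have hB : ∀ (d : K.Dart) (j : ZMod m), (E d).toProd = (v j, v (j + 1)) →
      (E (R2.φ d)).toProd = (v (j + 1), v (j + 1 + 1)) := by
    intro d j hd
    rw [hφ2]
    exact hR1a j (E1 d) hd
  have hE1 : ∀ e : G.Dart, y e = 1 → ∃ d, E d = e := by
    intro e he
    have h : H.Adj e.fst e.snd := ⟨e.adj, Or.inl he⟩
    exact ⟨⟨(⟨e.fst, hend _ _ h⟩, ⟨e.snd, hend _ _ h.symm⟩), h⟩, rfl⟩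
  have hvH : ∀ j, H.Adj (v j) (v (j + 1)) := fun j => ⟨hcyc.adj j, Or.inr ⟨j, rfl, rfl⟩⟩
  let vU : ZMod m → U := fun j => ⟨v j, Or.inr ⟨j, rfl⟩⟩
  let kU : ZMod m → K.Dart := fun j => ⟨(vU j, vU (j + 1)), hvH j⟩
  have hkU : ∀ j, (E (kU j)).toProd = (v j, v (j + 1)) := fun j => rfl
  have hcase : ∀ d : K.Dart, y (E d) = 1 ∨ ∃ j, d = kU j := by
    intro d
    obtain ⟨h, h1 | ⟨j, h1, h2⟩⟩ := (hH _ _).1 (show H.Adj d.fst.1 d.snd.1 from d.adj)
    · exact Or.inl h1
    · right
      refine ⟨j, hEinj ?_⟩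
      apply SimpleGraph.Dart.ext
      rw [hkU]
      exact Prod.ext h1 h2
  have hkφ : ∀ j, R2.φ (kU j) = kU (j + 1) := by
    intro j
    apply hEinj
    apply SimpleGraph.Dart.ext
    rw [hkU]
    exact hB (kU j) j rfl
  have hk0 : ∀ j, y (E (kU j)) = 0 := fun j => hS.on0 _ j (hkU j)
  -- connectivity
  have hKc : K.Connected := by
    have h1 : ∀ n : ℕ, K.Reachable (vU 0) (vU (n : ZMod m)) := by
      intro n
      induction n with
      | zero => rw [Nat.cast_zero]
      | succ n ih =>
        rw [Nat.cast_succ]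
        exact ih.trans (SimpleGraph.Adj.reachable (hvH _))
    have h2 : ∀ j, K.Reachable (vU 0) (vU j) := by
      intro j
      have := h1 j.val
      rwa [ZMod.natCast_zmod_val] at this
    have h3 : ∀ (a b : V) (_ : G.Walk a b) (_ : b = v 0) (ha : P a),
        K.Reachable (vU 0) ⟨a, ha⟩ := by
      intro a b p
      induction p with
      | nil =>
        intro hb ha
        subst hb
        exact h2 0
      | @cons a c b h p ih =>
        intro hb ha
        rcases ha with ha | ⟨j, rfl⟩
        · have h4 : H.Adj a c := ⟨h, Or.inl (ha _ rfl)⟩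
          exact (ih hb (hend _ _ h4.symm)).trans (SimpleGraph.Adj.reachable (G := K) h4.symm)
        · exact h2 j
    have h4 : ∀ u : U, K.Reachable (vU 0) u := by
      rintro ⟨a, ha⟩
      obtain ⟨p⟩ := hconn.preconnected a (v 0)
      exact h3 a (v 0) p rfl ha
    have h5 : Nonempty U := ⟨vU 0⟩
    exact SimpleGraph.Connected.mk (fun a b => (h4 a).symm.trans (h4 b))
  have hU2 : 2 ≤ Fintype.card U := by
    have h1 : vU 0 ≠ vU 1 := by
      intro h
      exact hmo (hcyc.inj (congrArg Subtype.val h))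
    exact Fintype.one_lt_card_iff.2 ⟨_, _, h1⟩
  have heul := hEul U K R2 hKc hU2
  -- number of vertices
  have hcardU : Fintype.card U = Nat.card {w : V // Int y w} + m := by
    rw [← Nat.card_eq_fintype_card]
    have e1 : Nat.card U = Nat.card ({w : V // Int y w} ⊕ ZMod m) := by
      symm
      apply Nat.card_congr
      refine Equiv.ofBijective (Sum.elim (fun w => ⟨w.1, Or.inl w.2⟩) vU) ⟨?_, ?_⟩
      · rintro (a | a) (b | b) hab
        · have h1 : a.1 = b.1 := congrArg (fun u : U => u.1) hab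
          rw [Subtype.ext h1]
        · exfalso
          have h1 : a.1 = v b := congrArg (fun u : U => u.1) hab
          exact hnI b (h1 ▸ a.2)
        · exfalso
          have h1 : v a = b.1 := congrArg (fun u : U => u.1) hab
          exact hnI a (h1 ▸ b.2)
        · congr 1
          exact hcyc.inj (congrArg (fun u : U => u.1) hab)
      · rintro ⟨w, hw | ⟨j, rfl⟩⟩
        · exact ⟨Sum.inl ⟨w, hw⟩, rfl⟩
        · exact ⟨Sum.inr j, rfl⟩
    rw [e1, Nat.card_sum]
    congr 1
    rw [Nat.card_eq_fintype_card, ZMod.card]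
  -- number of edges
  have hcardE : 2 * K.edgeFinset.card = Nat.card {d : G.Dart // y d = 1} + m := by
    rw [← SimpleGraph.dart_card_eq_twice_card_edges, ← Nat.card_eq_fintype_card]
    have e1 : Nat.card K.Dart = Nat.card ({d : G.Dart // y d = 1} ⊕ ZMod m) := by
      symm
      apply Nat.card_congr
      refine Equiv.ofBijective (Sum.elim (fun e => (hE1 e.1 e.2).choose) kU) ⟨?_, ?_⟩
      · rintro (a | a) (b | b) hab
        · congr 1
          apply Subtype.ext
          have h1 := congrArg E hab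
          simp only [Sum.elim_inl] at h1
          rw [(hE1 a.1 a.2).choose_spec, (hE1 b.1 b.2).choose_spec] at h1
          exact h1
        · exfalso
          have h1 := congrArg E hab
          simp only [Sum.elim_inl, Sum.elim_inr] at h1
          rw [(hE1 a.1 a.2).choose_spec] at h1
          have h2 := a.2
          rw [h1, hk0] at h2
          exact absurd h2 (by decide)
        · exfalso
          have h1 := congrArg E hab
          simp only [Sum.elim_inl, Sum.elim_inr] at h1
          rw [(hE1 b.1 b.2).choose_spec] at h1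
          have h2 := b.2
          rw [← h1, hk0] at h2
          exact absurd h2 (by decide)
        · congr 1
          have h1 : v a = v b := congrArg (fun d => (E d).fst) hab
          exact hcyc.inj h1
      · intro d
        rcases hcase d with h | ⟨j, rfl⟩
        · refine ⟨Sum.inl ⟨E d, h⟩, hEinj ?_⟩
          exact (hE1 (E d) h).choose_spec
        · exact ⟨Sum.inr j, rfl⟩
    rw [e1, Nat.card_sum]
    congr 1
    rw [Nat.card_eq_fintype_card, ZMod.card]
  -- number of faces
  have hcardF : Nat.card (Quotient (SameCycle.setoid R2.φ)) =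
      Nat.card {c : Quotient (SameCycle.setoid R.φ) // ∃ d, y d = 1 ∧ Quotient.mk _ d = c} + 1 := by
    have e1 : Nat.card (Quotient (SameCycle.setoid R2.φ)) =
        Nat.card (Option {c : Quotient (SameCycle.setoid R.φ) //
          ∃ d, y d = 1 ∧ Quotient.mk _ d = c}) := by
      let f : K.Dart → Option {c : Quotient (SameCycle.setoid R.φ) //
          ∃ d, y d = 1 ∧ Quotient.mk _ d = c} := fun d =>
        if h : y (E d) = 1 then some ⟨Quotient.mk _ (E d), E d, h, rfl⟩ else none
      have hf1 : ∀ d (h : y (E d) = 1), f d = some ⟨Quotient.mk _ (E d), E d, h, rfl⟩ :=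
        fun d h => dif_pos h
      have hf0 : ∀ j, f (kU j) = none := by
        intro j
        refine dif_neg ?_
        rw [hk0]
        decide
      have hA1 : ∀ (d : K.Dart), y (E d) = 1 → ∀ n : ℕ, E ((R2.φ ^ n) d) = (R.φ ^ n) (E d) ∧
          y (E ((R2.φ ^ n) d)) = 1 := by
        intro d hd n
        induction n with
        | zero => exact ⟨rfl, hd⟩
        | succ n ih =>
          rw [pow_succ', pow_succ', Perm.mul_apply, Perm.mul_apply, hA _ ih.2, ih.1]
          refine ⟨rfl, ?_⟩
          rw [hS.face, ← ih.1]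
          exact ih.2
      have hB1 : ∀ (j : ZMod m) (n : ℕ), (R2.φ ^ n) (kU j) = kU (j + n) := by
        intro j n
        induction n with
        | zero => rw [pow_zero, Nat.cast_zero, add_zero]; rfl
        | succ n ih =>
          rw [pow_succ', Perm.mul_apply, ih, hkφ, Nat.cast_succ, add_assoc]
      apply card_quot _ f
      · rintro (_ | ⟨c, e, he, rfl⟩)
        · exact ⟨kU 0, hf0 0⟩
        · obtain ⟨d, rfl⟩ := hE1 e he
          exact ⟨d, hf1 d he⟩
      · intro d d'
        show f d = f d' ↔ R2.φ.SameCycle d d'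
        constructor
        · intro h
          rcases hcase d with h1 | ⟨j, rfl⟩
          · rcases hcase d' with h2 | ⟨j', rfl⟩
            · rw [hf1 d h1, hf1 d' h2, Option.some_inj, Subtype.mk.injEq] at h
              have h3 : R.φ.SameCycle (E d) (E d') := Quotient.exact h
              obtain ⟨k, hk⟩ := h3.exists_nat_pow_eq
              refine ⟨k, hEinj ?_⟩
              rw [zpow_natCast, (hA1 d h1 k).1, hk]
            · rw [hf1 d h1, hf0] at h
              exact absurd h (by simp)
          · rcases hcase d' with h2 | ⟨j', rfl⟩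
            · rw [hf1 d' h2, hf0] at h
              exact absurd h (by simp)
            · refine ⟨((j' - j).val : ℕ), ?_⟩
              rw [zpow_natCast, hB1, ZMod.natCast_zmod_val]
              congr 1
              ring
        · intro h
          obtain ⟨k, hk⟩ := h.exists_nat_pow_eq
          rw [← hk]
          rcases hcase d with h1 | ⟨j, rfl⟩
          · rw [hf1 d h1, hf1 _ (hA1 d h1 k).2, Option.some_inj, Subtype.mk.injEq]
            apply Quotient.sound
            show R.φ.SameCycle _ _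
            rw [(hA1 d h1 k).1]
            exact ⟨k, by rw [zpow_natCast]⟩
          · rw [hB1, hf0, hf0]
    rw [e1]
    exact Finite.card_option
  have h1 : (2 : ℤ) * (K.edgeFinset.card : ℤ) = (Nat.card {d : G.Dart // y d = 1} : ℤ) + m := by
    exact_mod_cast hcardE
  have h2 : (Fintype.card U : ℤ) = (Nat.card {w : V // Int y w} : ℤ) + m := by
    exact_mod_cast hcardU
  have h3 : (Nat.card (Quotient (SameCycle.setoid R2.φ)) : ℤ) =
      (Nat.card {c : Quotient (SameCycle.setoid R.φ) // ∃ d, y d = 1 ∧ Quotient.mk _ d = c} : ℤ)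
        + 1 := by
    exact_mod_cast hcardF
  rw [h2, h3] at heul
  have h4 : (Nat.card {d : G.Dart // y d = 1} : ℤ) + 2 = 2 * (Nat.card {w : V // Int y w} : ℤ) +
      2 * (Nat.card {c : Quotient (SameCycle.setoid R.φ) //
        ∃ d, y d = 1 ∧ Quotient.mk _ d = c} : ℤ) + m := by
    linarith
  exact_mod_cast h4

end Pool.Agent.Helper35.PM.D_EULD
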