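import Pool.Agent.Helper35.PM.St

/-!
# Plane maps, module JOR: the Jordan curve theorem
-/

set_option autoImplicit false

namespace Pool.Agent.Helper35.PM.M_JOR

open Equiv Equiv.Perm Pool.Agent.Helper35.PM

theorem const_of_succ {m : ℕ} [NeZero m] {f : ZMod m → ZMod 2} (h : ∀ j, f (j + 1) = f j)
    (j : ZMod m) : f j = f 0 := by
  have h1 : ∀ n : ℕ, f (n : ZMod m) = f 0 := by
    intro n
    induction n with
    | zero => simp
    | succ n ih => rw [Nat.cast_succ, h, ih]
  have h2 := h1 j.val
  rwa [ZMod.natCast_zmod_val] at h2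

/-- going round a vertex from `a` to `b` -/
theorem walk {D : Type} [Finite D] (r : Perm D) {x y : D → ZMod 2}
    (hy : ∀ d, y (r d) = y d + x d) {a b : D} (hab : a ≠ b) (hs : r.SameCycle a b)
    (hx : ∀ d, r.SameCycle a d → d ≠ a → d ≠ b → x d = 0) : y b = y (r a) := by
  classical
  have hex : ∃ n : ℕ, (r ^ (n + 1)) a = b := by
    obtain ⟨n, hn⟩ := hs.exists_nat_pow_eq
    rcases Nat.eq_zero_or_pos n with h0 | h0
    · subst h0
      exact absurd (by simpa using hn) hab
    · exact ⟨n - 1, by rw [Nat.sub_add_cancel h0]; exact hn⟩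
  let N := Nat.find hex
  have hN : (r ^ (N + 1)) a = b := Nat.find_spec hex
  have hmin : ∀ m, m < N → (r ^ (m + 1)) a ≠ b := fun m hm => Nat.find_min hex hm
  have hna : ∀ m, m < N → (r ^ (m + 1)) a ≠ a := by
    intro m hm h
    have h1 : N + 1 = (N - (m + 1) + 1) + (m + 1) := by omega
    have h2 : (r ^ (N - (m + 1) + 1)) a = b := by
      rw [h1, pow_add, Perm.mul_apply, h] at hN
      exact hN
    exact hmin (N - (m + 1)) (by omega) h2
  have key : ∀ m, m ≤ N → y ((r ^ (m + 1)) a) = y (r a) := by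
    intro m
    induction m with
    | zero => intro _; simp
    | succ m ih =>
      intro hm
      rw [pow_succ', Perm.mul_apply, hy, ih (by omega)]
      have h1 : x ((r ^ (m + 1)) a) = 0 :=
        hx _ ⟨((m + 1 : ℕ) : ℤ), by rw [zpow_natCast]⟩ (hna m (by omega)) (hmin m (by omega))
      rw [h1, add_zero]
  rw [← key N le_rfl, hN]

theorem main (hPot : StPot) : StJor := by
  classical
  intro V D _ M m _ k h1 h2 h3
  letI : Fintype D := Fintype.ofFinite D
  have hk : Function.Injective k := fun i j h => h2 (congrArg M.t h)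
  let x : D → ZMod 2 := fun d =>
    ∑ j : ZMod m, ((if d = k j then (1 : ZMod 2) else 0) + (if d = M.ι (k j) then 1 else 0))
  have hxι : ∀ d, x (M.ι d) = x d := by
    intro d
    refine Finset.sum_congr rfl fun j _ => ?_
    have e1 : (M.ι d = k j) ↔ (d = M.ι (k j)) :=
      ⟨fun h => by rw [← h, M.inv], fun h => by rw [h, M.inv]⟩
    have e2 : (M.ι d = M.ι (k j)) ↔ (d = k j) := M.inv.injective.eq_iff
    simp only [e1, e2]
    rw [add_comm]
  have hxk : ∀ i, x (k i) = 1 := by
    intro i
    have e : ∀ j, ((if k i = k j then (1 : ZMod 2) else 0) +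
        (if k i = M.ι (k j) then 1 else 0)) = if i = j then 1 else 0 := by
      intro j
      rw [if_neg (h3 i j), add_zero]
      simp only [hk.eq_iff]
    show (∑ j : ZMod m, ((if k i = k j then (1 : ZMod 2) else 0) +
        (if k i = M.ι (k j) then 1 else 0))) = 1
    rw [Finset.sum_congr rfl fun j _ => e j]
    simp
  have hxk' : ∀ i, x (M.ι (k i)) = 1 := fun i => by rw [hxι, hxk]
  have hx0 : ∀ d, (∀ j, d ≠ k j ∧ d ≠ M.ι (k j)) → x d = 0 := by
    intro d hd
    refine Finset.sum_eq_zero fun j _ => ?_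
    rw [if_neg (hd j).1, if_neg (hd j).2, add_zero]
  have hsum : ∀ v, ∑ d ∈ Finset.univ.filter (fun d => M.t d = v), x d = 0 := by
    intro v
    show (∑ d ∈ Finset.univ.filter (fun d => M.t d = v), ∑ j : ZMod m,
      ((if d = k j then (1 : ZMod 2) else 0) + (if d = M.ι (k j) then 1 else 0))) = 0
    rw [Finset.sum_comm]
    have e : ∀ j : ZMod m, (∑ d ∈ Finset.univ.filter (fun d => M.t d = v),
        ((if d = k j then (1 : ZMod 2) else 0) + (if d = M.ι (k j) then 1 else 0))) =
        (if M.t (k j) = v then 1 else 0) + (if M.t (k (j + 1)) = v then 1 else 0) := by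
      intro j
      rw [Finset.sum_add_distrib, Finset.sum_ite_eq', Finset.sum_ite_eq']
      simp only [Finset.mem_filter, Finset.mem_univ, true_and, h1]
    rw [Finset.sum_congr rfl fun j _ => e j, Finset.sum_add_distrib]
    have e2 : (∑ j : ZMod m, (if M.t (k (j + 1)) = v then (1 : ZMod 2) else 0)) =
        ∑ j : ZMod m, (if M.t (k j) = v then (1 : ZMod 2) else 0) :=
      Equiv.sum_comp (Equiv.addRight (1 : ZMod m))
        (fun j => if M.t (k j) = v then (1 : ZMod 2) else 0)
    rw [e2]
    exact zadd_self _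
  obtain ⟨u, hu⟩ := hPot V D M x hsum
  obtain ⟨y, hy1, hy2⟩ := M.pl x u hxι hu
  have hstep : ∀ j, y (k (j + 1)) = y (k j) := by
    intro j
    have hne : M.ι (k j) ≠ k (j + 1) := fun h => h3 (j + 1) j h.symm
    have hs : M.r.SameCycle (M.ι (k j)) (k (j + 1)) := M.trans _ _ (h1 j)
    have hw := walk M.r hy1 hne hs (by
      intro d hd hda hdb
      refine hx0 d fun i => ⟨?_, ?_⟩
      · rintro rfl
        have h4 : M.t (k (j + 1)) = M.t (k i) := by
          rw [← h1 j]
          exact M.t_eq_of_sameCycle hd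
        exact hdb (congrArg k (h2 h4)).symm
      · rintro rfl
        have h4 : M.t (k (j + 1)) = M.t (k (i + 1)) := by
          rw [← h1 j, ← h1 i]
          exact M.t_eq_of_sameCycle hd
        have h5 : j + 1 = i + 1 := h2 h4
        exact hda (by rw [add_right_cancel h5]))
    rw [hw, hy1, hy2, hxk', hxk]
    exact zadd_self' _ _
  have hc : ∀ j, y (k j) = y (k 0) := const_of_succ (f := fun j => y (k j)) hstep
  refine ⟨fun d => y d + y (k 0), ?_, ?_, ?_⟩
  · intro d
    show y (M.φ d) + y (k 0) = y d + y (k 0)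
    rw [M.φ_apply, hy1, hy2, hxι, zadd_self']
  · intro d hd
    have h4 := hx0 d hd
    constructor
    · show y (M.ι d) + y (k 0) = y d + y (k 0)
      rw [hy2, h4, add_zero]
    · show y (M.r d) + y (k 0) = y d + y (k 0)
      rw [hy1, h4, add_zero]
  · intro j
    refine ⟨?_, ?_, ?_, ?_⟩
    · show y (k j) + y (k 0) = 0
      rw [hc, zadd_self]
    · show y (M.ι (k j)) + y (k 0) = 1
      rw [hy2, hc, hxk]
      have := zadd_self (y (k 0))
      linear_combination this
    · show y (M.r (k j)) + y (k 0) = 1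
      rw [hy1, hc, hxk]
      have := zadd_self (y (k 0))
      linear_combination this
    · show y (M.r (M.ι (k j))) + y (k 0) = 0
      rw [hy1, hy2, hc, hxk, hxk', zadd_self', zadd_self]

end Pool.Agent.Helper35.PM.M_JOR
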