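import Pool.Agent.Helper35.PM.St2
import Pool.Agent.Helper35.PM.M_JOR
import Pool.Agent.Helper35.PM.M_POT

/-!
# Plane maps, module SIDE: every cycle has a side function
-/

set_option autoImplicit false

namespace Pool.Agent.Helper35.PM.D_SIDE

open Equiv Equiv.Perm Pool.Agent.Helper35.PM

theorem main : StSide := by
  intro V _ G R m v hm hv
  have hm0 : NeZero m := ⟨by omega⟩
  have hfin : Finite G.Dart := Finite.of_injective (fun d : G.Dart => d.toProd)
    (fun d d' h => SimpleGraph.Dart.ext d d' h)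
  let k : ZMod m → G.Dart := fun j => ⟨(v j, v (j + 1)), hv.adj j⟩
  have hk : ∀ i j, k i ≠ (k j).symm := by
    intro i j h
    have h1 : ((v i, v (i + 1)) : V × V) = (v (j + 1), v j) := congrArg SimpleGraph.Dart.toProd h
    have h2 : i = j + 1 := hv.inj (Prod.ext_iff.1 h1).1
    have h3 : i + 1 = j := hv.inj (Prod.ext_iff.1 h1).2
    have h4 : ((2 : ℕ) : ZMod m) = 0 := by
      push_cast
      rw [h2] at h3
      linear_combination h3
    have h5 := Nat.le_of_dvd (by norm_num) ((ZMod.natCast_eq_zero_iff 2 m).1 h4)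
    omega
  obtain ⟨y, h1, h2, h3⟩ := M_JOR.main M_POT.main V G.Dart R.map m k
    (fun j => rfl) hv.inj hk
  have hon : ∀ (d : G.Dart) (j : ZMod m), d.toProd = (v j, v (j + 1)) → d = k j :=
    fun d j h => SimpleGraph.Dart.ext _ _ h
  have hon' : ∀ (d : G.Dart) (j : ZMod m), d.toProd = (v (j + 1), v j) → d = (k j).symm :=
    fun d j h => SimpleGraph.Dart.ext _ _ h
  refine ⟨y, ⟨h1, fun d hd => h2 d fun j => ⟨?_, ?_⟩, fun d j hd => ?_, fun d j hd => ?_⟩⟩
  · rintro rfl
    exact (hd j).1 rfl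
  · rintro rfl
    exact (hd j).2 rfl
  · rw [hon d j hd]
    exact (h3 j).1
  · rw [hon' d j hd]
    exact (h3 j).2.1

end Pool.Agent.Helper35.PM.D_SIDE
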