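import Pool.Agent.Helper35.PM.All

/-!
# Plane maps: the frozen statement S09643 follows if there is no minimal counterexample
-/

set_option autoImplicit false

namespace Pool.Agent.Helper35.PM

theorem frozen_of_noMinC
    (h0 : ∀ (V : Type) [Fintype V] (G : SimpleGraph V), ¬ MinC G) :
    ∀ (V : Type) [Fintype V] (G : SimpleGraph V),
    G.CliqueFree 3 →
    (∃ (p : V → ℝ × ℝ) (γ : V → V → ℝ → ℝ × ℝ), Function.Injective p ∧
      (∀ u v, G.Adj u v →
        ContinuousOn (γ u v) (Set.Icc 0 1) ∧ Set.InjOn (γ u v) (Set.Icc 0 1) ∧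
        γ u v 0 = p u ∧ γ u v 1 = p v ∧
        ∀ t ∈ Set.Ioo (0:ℝ) 1, ∀ w, γ u v t ≠ p w) ∧
      (∀ u v x y, G.Adj u v → G.Adj x y → s(u, v) ≠ s(x, y) →
        ∀ a ∈ Set.Ioo (0:ℝ) 1, ∀ b ∈ Set.Ioo (0:ℝ) 1, γ u v a ≠ γ x y b)) →
    ∀ (L : V → Finset ℕ) (A : Finset ℕ),
      (∀ v, (L v ∩ A).card = 1 ∧ (L v \ A).card = 2) →
      ∃ c : V → ℕ, (∀ v, c v ∈ L v) ∧ ∀ u v, G.Adj u v → c u ≠ c v := by
  classical
  intro V _ G hcf harc L A hL
  have hgm : Pool.Agent.Helper16.OddPack.GridMinor G :=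
    Pool.Agent.Helper16.OddPack.gridMinor_of_topPlanar V G (stTop1 V G harc)
  have hp : Planar G := stTop2 V G hgm
  have htf : TF G := by
    intro a b c hab hbc hac
    apply hcf {a, b, c}
    rw [SimpleGraph.is3Clique_triple_iff]
    exact ⟨hab, hac, hbc⟩
  have hNB : NB G := by
    by_contra hn
    obtain ⟨W, hW, H, hH⟩ := exists_minC G hp htf hn
    exact h0 W H hH
  exact stFin V G hNB L A hL

end Pool.Agent.Helper35.PM
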