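import Pool.Agent.Helper35.PM.Rot

/-!
# Surgeries on a fixed type of darts

Deleted darts are kept as isolated edges (both darts fixed by the rotation); new edges are made from
such isolated edges. All operations are then multiplications of the rotation by swaps.
-/

set_option autoImplicit false
set_option linter.unusedSectionVars false

namespace Pool.Agent.Helper35.PM

open Equiv Equiv.Perm

variable {D : Type}

/-- inverse of a contraction (of an edge which is not a loop) -/
theorem Pl.uncontract [Finite D] [DecidableEq D] {r : Perm D} {ι : D → D}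
    (hι : Function.Involutive ι) (e : D) (_hne : ι e ≠ e) (hns : ¬ r.SameCycle e (ι e))
    (h : Pl (PM.detach (PM.detach (r * swap e (ι e)) e) (ι e)) ι) : Pl r ι := by
  classical
  intro x u hx hu
  let s : D → ZMod 2 := fun d => if r.SameCycle e d then 1 else 0
  have hsr : ∀ d, s (r d) = s d := by
    intro d; simp only [s, sameCycle_apply_right]
  have hse : s e = 1 := by simp only [s, if_pos (SameCycle.refl r e)]
  have hse' : s (ι e) = 0 := by simp only [s, if_neg hns]
  have hxe' : x (ι e) = x e := hx e
  let c : ZMod 2 := u e + u (ι e) + x e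
  let u1 : D → ZMod 2 := fun d => u d + c * s d
  let x' : D → ZMod 2 := fun d => if d = e ∨ d = ι e then 0 else x d
  have hx'e : x' e = 0 := by simp only [x', true_or, if_true]
  have hx'e' : x' (ι e) = 0 := by simp only [x', or_true, if_true]
  have hx'o : ∀ d, d ≠ e → d ≠ ι e → x' d = x d := fun d h1 h2 => by
    simp only [x']; rw [if_neg]; tauto
  have hx' : ∀ d, x' (ι d) = x' d := by
    intro d
    by_cases h1 : d = e
    · rw [h1, hx'e, hx'e']
    · by_cases h2 : d = ι e
      · rw [h2, hι, hx'e, hx'e']
      · have h3 : ι d ≠ e := fun h => h2 (by rw [← h, hι])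
        have h4 : ι d ≠ ι e := fun h => h1 (hι.injective h)
        rw [hx'o d h1 h2, hx'o _ h3 h4, hx]
  set r2 := r * swap e (ι e) with hr2
  have ha : r2 e = r (ι e) := by rw [hr2, Perm.mul_apply, swap_apply_left]
  have hb : r2 (ι e) = r e := by rw [hr2, Perm.mul_apply, swap_apply_right]
  have ho : ∀ d, d ≠ e → d ≠ ι e → r2 d = r d := fun d h1 h2 => by
    rw [hr2, Perm.mul_apply, swap_apply_of_ne_of_ne h1 h2]
  have hu1 : ∀ d, u1 (r2 d) = u1 d + x' d := by
    intro d
    by_cases h1 : d = e
    · rw [h1, ha, hx'e]
      show u (r (ι e)) + c * s (r (ι e)) = u e + c * s e + 0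
      rw [hsr, hse', hse, hu, hxe', mul_zero, mul_one]
      show u (ι e) + x e + 0 = u e + (u e + u (ι e) + x e) + 0
      generalize u e = p
      generalize u (ι e) = q
      generalize x e = w
      revert p q w
      decide
    · by_cases h2 : d = ι e
      · rw [h2, hb, hx'e']
        show u (r e) + c * s (r e) = u (ι e) + c * s (ι e) + 0
        rw [hsr, hse', hse, hu, mul_zero, mul_one]
        show u e + x e + (u e + u (ι e) + x e) = u (ι e) + 0 + 0
        generalize u e = p
        generalize u (ι e) = q
        generalize x e = w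
        revert p q w
        decide
      · rw [ho d h1 h2, hx'o d h1 h2]
        show u (r d) + c * s (r d) = u d + c * s d + x d
        rw [hsr, hu]
        ring
  obtain ⟨y, hy1, hy2⟩ := h x' u1 hx' (detach_pot hx'e' (detach_pot hx'e hu1))
  have hy3 := detach_pot' (detach_pot' hy1)
  -- values of the extension off the edge
  generalize hy : extPot r2 e (extPot (PM.detach r2 e) (ι e) y) = y2 at hy3
  have hyo : ∀ d, d ≠ e → d ≠ ι e → y2 d = y d := by
    intro d h1 h2
    rw [← hy]
    unfold extPot
    rw [if_neg h1, if_neg h2]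
  have hconst : ∀ d d', r2.SameCycle d d' → y2 d + u1 d = y2 d' + u1 d' := by
    intro d d' hdd
    obtain ⟨k, hk⟩ := hdd.exists_nat_pow_eq
    rw [← hk]
    clear hk
    induction k with
    | zero => simp
    | succ k ih =>
      rw [pow_succ', Perm.mul_apply, hy3, hu1, ih]
      have := zadd_self (x' ((r2 ^ k) d))
      linear_combination -this
  have hK : y2 e + y2 (ι e) = x e := by
    have h1 := hconst e (ι e) (sameCycle_mul_swap hns)
    change y2 e + (u e + c * s e) = y2 (ι e) + (u (ι e) + c * s (ι e)) at h1
    rw [hse, hse', mul_one, mul_zero] at h1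
    change y2 e + (u e + (u e + u (ι e) + x e)) = y2 (ι e) + (u (ι e) + 0) at h1
    revert h1
    generalize u e = p
    generalize u (ι e) = q
    generalize x e = w
    generalize y2 e = a
    generalize y2 (ι e) = b
    revert p q w a b
    decide
  have hK' : y2 (ι e) = y2 e + x e := by
    rw [← hK]
    generalize y2 e = a
    generalize y2 (ι e) = b
    revert a b
    decide
  have hK'' : y2 e = y2 (ι e) + x e := by
    rw [hK', add_assoc, zadd_self, add_zero]
  refine ⟨y2, ?_, ?_⟩
  · intro d
    by_cases h1 : d = e
    · rw [h1, ← hb, hy3, hx'e', add_zero, hK']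
    · by_cases h2 : d = ι e
      · rw [h2, ← ha, hy3, hx'e, add_zero, hxe', ← hK'']
      · rw [← ho d h1 h2, hy3, hx'o d h1 h2]
  · intro d
    by_cases h1 : d = e
    · rw [h1, hK']
    · by_cases h2 : d = ι e
      · rw [h2, hι, hxe', ← hK'']
      · have h3 : ι d ≠ e := fun h => h2 (by rw [← h, hι])
        have h4 : ι d ≠ ι e := fun h => h1 (hι.injective h)
        rw [hyo d h1 h2, hyo _ h3 h4, hy2, hx'o d h1 h2]

/-- the effect of inserting an isolated dart `n` after `a` -/
theorem ins_apply_a [DecidableEq D] (r : Perm D) {a n : D} (hn : r n = n) :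
    (r * swap a n) a = n := by
  rw [Perm.mul_apply, swap_apply_left, hn]

theorem ins_apply_n [DecidableEq D] (r : Perm D) (a n : D) : (r * swap a n) n = r a := by
  rw [Perm.mul_apply, swap_apply_right]

/-- attach the isolated edge `n`, `ι n` as a pendant edge at the corner after `a` -/
theorem Pl.pend [DecidableEq D] {r : Perm D} {ι : D → D} (h : Pl r ι)
    (hι : Function.Involutive ι) {a n : D} (han : a ≠ n) (han' : a ≠ ι n) (hne : ι n ≠ n)
    (hn : r n = n) (hn' : r (ι n) = ι n) : Pl (r * swap a n) ι := by
  have e1 : (r * swap a n) a = n := ins_apply_a r hn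
  have e2 : (r * swap a n) n = r a := ins_apply_n r a n
  have e3 : ∀ d, d ≠ a → d ≠ n → (r * swap a n) d = r d := fun d h1 h2 => by
    rw [Perm.mul_apply, swap_apply_of_ne_of_ne h1 h2]
  intro x u hx hu
  have hx1 : x (ι n) = 0 := by
    have h1 := hu (ι n)
    rw [e3 _ han'.symm hne, hn'] at h1
    exact eq_zero_of_eq_add h1
  have hx2 : x n = 0 := by rw [← hx]; exact hx1
  obtain ⟨y, hy1, hy2⟩ := h x (fun d => if d = n then 0 else u d) hx (by
    intro d
    by_cases h1 : d = n
    · simp only [h1, hn, if_true, hx2, add_zero]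
    · have h2 : r d ≠ n := fun h => h1 (r.injective (h.trans hn.symm))
      simp only [if_neg h1, if_neg h2]
      by_cases h3 : d = a
      · rw [h3, ← e2, hu, hx2, add_zero, ← hu a, e1]
      · rw [← e3 d h3 h1, hu])
  have hyι : y (ι n) = y n := by rw [hy2, hx2, add_zero]
  refine ⟨fun d => if d = n ∨ d = ι n then y a + x a else y d, ?_, ?_⟩
  · intro d
    by_cases h1 : d = n
    · have h2 : ¬ (r a = n ∨ r a = ι n) := by
        rintro (h | h)
        · exact han (r.injective (h.trans hn.symm))
        · exact han' (r.injective (h.trans hn'.symm))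
      simp only [h1, true_or, if_true, hx2, add_zero, e2, if_neg h2]
      exact hy1 a
    · by_cases h2 : d = ι n
      · have h3 : (r * swap a n) (ι n) = ι n := by rw [e3 _ han'.symm hne, hn']
        simp only [h2, h3, or_true, if_true, hx1, add_zero]
      · by_cases h3 : d = a
        · have h4 : ¬ (a = n ∨ a = ι n) := by tauto
          simp only [h3, e1, true_or, if_true, if_neg h4]
        · have h4 : ¬ (d = n ∨ d = ι n) := by tauto
          have h5 : ¬ (r d = n ∨ r d = ι n) := by
            rintro (h | h)
            · exact h1 (r.injective (h.trans hn.symm))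
            · exact h2 (r.injective (h.trans hn'.symm))
          simp only [e3 d h3 h1, if_neg h4, if_neg h5]
          exact hy1 d
  · intro d
    by_cases h1 : d = n
    · simp only [h1, true_or, or_true, if_true, hx2, add_zero]
    · by_cases h2 : d = ι n
      · simp only [h2, hι n, true_or, or_true, if_true, hx1, add_zero]
      · have h4 : ¬ (d = n ∨ d = ι n) := by tauto
        have h5 : ¬ (ι d = n ∨ ι d = ι n) := by
          rintro (h | h)
          · exact h2 (by rw [← h, hι])
          · exact h1 (hι.injective h)
        simp only [if_neg h4, if_neg h5]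
        exact hy2 d

/-- make the isolated edge `n`, `ι n` an edge between two vertices, at the corners after `a` and
after `b`, which lie in one face -/
theorem Pl.insEdge [Finite D] [DecidableEq D] {r : Perm D} {ι : D → D} (h : Pl r ι)
    (hι : Function.Involutive ι) {a b n : D} (hns : ¬ r.SameCycle a b)
    (hf : (r * hι.toPerm).SameCycle (ι a) (ι b)) (han : a ≠ n) (han' : a ≠ ι n) (hbn : b ≠ n)
    (hbn' : b ≠ ι n) (hne : ι n ≠ n) (hn : r n = n) (hn' : r (ι n) = ι n) :
    Pl (r * swap a n * swap b (ι n)) ι := by
  have hab : a ≠ b := fun h0 => hns (h0 ▸ SameCycle.refl _ _)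
  set r1 := r * swap a n * swap b (ι n) with hr1
  have e1 : r1 a = n := by
    rw [hr1, Perm.mul_apply, swap_apply_of_ne_of_ne hab han', ins_apply_a r hn]
  have e2 : r1 n = r a := by
    rw [hr1, Perm.mul_apply, swap_apply_of_ne_of_ne (Ne.symm hbn) (Ne.symm hne), ins_apply_n]
  have e3 : r1 b = ι n := by
    rw [hr1, Perm.mul_apply, swap_apply_left, Perm.mul_apply,
      swap_apply_of_ne_of_ne (Ne.symm han') hne, hn']
  have e4 : r1 (ι n) = r b := by
    rw [hr1, Perm.mul_apply, swap_apply_right, Perm.mul_apply,
      swap_apply_of_ne_of_ne (Ne.symm hab) hbn]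
  have e5 : ∀ d, d ≠ a → d ≠ b → d ≠ n → d ≠ ι n → r1 d = r d := by
    intro d h1 h2 h3 h4
    rw [hr1, Perm.mul_apply, swap_apply_of_ne_of_ne h2 h4, Perm.mul_apply,
      swap_apply_of_ne_of_ne h1 h3]
  have hra : ∀ d, d ≠ n → r d ≠ n := fun d h1 h2 => h1 (r.injective (h2.trans hn.symm))
  have hra' : ∀ d, d ≠ ι n → r d ≠ ι n := fun d h1 h2 => h1 (r.injective (h2.trans hn'.symm))
  -- the two ends are different vertices
  have hns' : ¬ r1.SameCycle n (ι n) := by
    classical
    intro hs
    let s : D → Prop := fun d => if d = n then r.SameCycle a a else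
      if d = ι n then r.SameCycle a b else r.SameCycle a d
    have hstep : ∀ d, s (r1 d) ↔ s d := by
      intro d
      by_cases h1 : d = n
      · simp only [s, h1, e2, if_true, if_neg (hra a han), if_neg (hra' a han'),
          sameCycle_apply_right]
      · by_cases h2 : d = ι n
        · simp only [s, h2, e4, if_neg hne, if_true, if_neg (hra b hbn), if_neg (hra' b hbn'),
            sameCycle_apply_right]
        · by_cases h3 : d = a
          · simp only [s, h3, e1, if_true, if_neg han, if_neg han']
          · by_cases h4 : d = b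
            · simp only [s, h4, e3, if_true, if_neg hne, if_neg hbn, if_neg hbn']
            · simp only [s, e5 d h3 h4 h1 h2, if_neg h1, if_neg h2, if_neg (hra d h1),
                if_neg (hra' d h2), sameCycle_apply_right]
    obtain ⟨k, hk⟩ := hs.exists_nat_pow_eq
    have hall : ∀ m : ℕ, s ((r1 ^ m) n) := by
      intro m
      induction m with
      | zero => simp only [s, pow_zero, Perm.coe_one, id_eq, if_true]; exact SameCycle.refl _ _
      | succ m ih => rw [pow_succ', Perm.mul_apply, hstep]; exact ih
    have h6 := hall k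
    rw [hk] at h6
    simp only [s, if_neg hne, if_true] at h6
    exact hns h6
  -- contraction gives the merged map
  have hcontr : PM.detach (PM.detach (r1 * swap n (ι n)) n) (ι n) = r * swap a b := by
    have f1 : (r1 * swap n (ι n)) n = r b := by rw [Perm.mul_apply, swap_apply_left, e4]
    have f2 : (r1 * swap n (ι n)) (ι n) = r a := by rw [Perm.mul_apply, swap_apply_right, e2]
    have f3 : ∀ d, d ≠ n → d ≠ ι n → (r1 * swap n (ι n)) d = r1 d := fun d h1 h2 => by
      rw [Perm.mul_apply, swap_apply_of_ne_of_ne h1 h2]
    have g1 : PM.detach (r1 * swap n (ι n)) n n = n := detach_self _ _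
    have g2 : PM.detach (r1 * swap n (ι n)) n a = r b := by
      rw [detach_of_eq, f1]
      rw [f3 a han han', e1]
    have g3 : PM.detach (r1 * swap n (ι n)) n (ι n) = r a := by
      rw [detach_of_ne _ hne, f2]
      rw [f2]; exact hra a han
    have g4 : PM.detach (r1 * swap n (ι n)) n b = ι n := by
      rw [detach_of_ne _ hbn, f3 b hbn hbn', e3]
      rw [f3 b hbn hbn', e3]; exact hne
    have g5 : ∀ d, d ≠ a → d ≠ b → d ≠ n → d ≠ ι n →
        PM.detach (r1 * swap n (ι n)) n d = r d := by
      intro d h1 h2 h3 h4
      rw [detach_of_ne _ h3, f3 d h3 h4, e5 d h1 h2 h3 h4]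
      rw [f3 d h3 h4, e5 d h1 h2 h3 h4]; exact hra d h3
    ext d
    by_cases h1 : d = n
    · rw [h1, Perm.mul_apply, swap_apply_of_ne_of_ne (Ne.symm han) (Ne.symm hbn), hn,
        detach_of_ne _ (Ne.symm hne) (by rw [g1]; exact Ne.symm hne), g1]
    · by_cases h2 : d = ι n
      · rw [h2, detach_self, Perm.mul_apply, swap_apply_of_ne_of_ne (Ne.symm han') (Ne.symm hbn'),
          hn']
      · by_cases h3 : d = a
        · rw [h3, detach_of_ne _ han' (by rw [g2]; exact hra' b hbn'), g2, Perm.mul_apply,
            swap_apply_left]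
        · by_cases h4 : d = b
          · rw [h4, detach_of_eq _ g4, g3, Perm.mul_apply, swap_apply_right]
          · rw [detach_of_ne _ h2 (by rw [g5 d h3 h4 h1 h2]; exact hra' d h2),
              g5 d h3 h4 h1 h2, Perm.mul_apply, swap_apply_of_ne_of_ne h3 h4]
  refine Pl.uncontract hι n hne hns' ?_
  rw [hcontr]
  exact h.merge hι hab hf

/-- extraction of a rotation system of a simple graph from a planar pair `(r, ι)`: `c` chooses the
darts, the vertices are recognised by the cycles of `r` -/
theorem Pl.exists_rot {W : Type} [Fintype D] [DecidableEq D] {r : Perm D} {ι : D → D}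
    (h : Pl r ι) (hι : Function.Involutive ι) (hne : ∀ d, ι d ≠ d) {G : SimpleGraph W}
    (c : G.Dart → D) (hc : Function.Injective c)
    (ht : ∀ d d', d.fst = d'.fst ↔ r.SameCycle (c d) (c d')) (hs : ∀ d, ι (c d) = c d.symm) :
    ∃ R : Rot G, (∀ d d', r (c d) = c d' → R.r d = d') ∧
      (∀ d d', r (ι (c d)) = c d' → R.φ d = d') ∧
      (∀ d, ∃ k : ℕ, c (R.r d) = (r ^ (k + 1)) (c d) ∧
        ∀ j < k, (r ^ (j + 1)) (c d) ∉ Set.range c) := by
  classical
  -- the map whose vertices are the cycles of `r`, together with the isolated vertices of `G`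
  let Q := Quotient (SameCycle.setoid r)
  let iso : W → Prop := fun w => ¬ ∃ d : G.Dart, d.fst = w
  let M : PMap (Q ⊕ W) D :=
    { r := r
      ι := ι
      inv := hι
      nofix := hne
      t := fun d => Sum.inl (Quotient.mk _ d)
      t_r := fun d => by
        congr 1
        exact Quotient.sound (sameCycle_apply_left.2 (SameCycle.refl _ _))
      trans := fun d d' h => Quotient.exact (Sum.inl_injective h)
      pl := h }
  let g : W → Q ⊕ W := fun w =>
    if hw : ∃ d : G.Dart, d.fst = w then Sum.inl (Quotient.mk _ (c hw.choose)) else Sum.inr w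
  have hgd : ∀ d : G.Dart, g d.fst = Sum.inl (Quotient.mk _ (c d)) := by
    intro d
    have hw : ∃ d' : G.Dart, d'.fst = d.fst := ⟨d, rfl⟩
    simp only [g, dif_pos hw]
    congr 1
    exact Quotient.sound ((ht _ _).1 hw.choose_spec)
  have hg : Function.Injective g := by
    intro w w' hww
    by_cases hw : ∃ d : G.Dart, d.fst = w
    · obtain ⟨d, rfl⟩ := hw
      by_cases hw' : ∃ d : G.Dart, d.fst = w'
      · obtain ⟨d', rfl⟩ := hw'
        rw [hgd, hgd] at hww
        exact (ht d d').2 (Quotient.exact (Sum.inl_injective hww))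
      · rw [hgd] at hww
        simp only [g, dif_neg hw'] at hww
        exact absurd hww (by simp)
    · by_cases hw' : ∃ d : G.Dart, d.fst = w'
      · obtain ⟨d', rfl⟩ := hw'
        rw [hgd] at hww
        simp only [g, dif_neg hw] at hww
        exact absurd hww (by simp)
      · simp only [g, dif_neg hw, dif_neg hw'] at hww
        exact Sum.inr_injective hww
  exact M.exists_rot g hg c hc (fun d => (hgd d).symm) hs

end Pool.Agent.Helper35.PM
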