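import Pool.Agent.Helper35.PM.Cyc

/-!
# Plane maps: the structure and the elementary operations
-/

set_option autoImplicit false
set_option linter.unusedSectionVars false

namespace Pool.Agent.Helper35.PM

open Equiv Equiv.Perm

/-- A combinatorial map of genus `0` (every component a sphere map) on the vertex type `V` (vertices
without darts are isolated) with darts `D`: `t d` is the vertex at which the dart `d` starts, `ι d` the
opposite dart, `r` the rotation around the vertices. -/
structure PMap (V D : Type) where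
  r : Perm D
  ι : D → D
  inv : Function.Involutive ι
  nofix : ∀ d, ι d ≠ d
  t : D → V
  t_r : ∀ d, t (r d) = t d
  trans : ∀ d d', t d = t d' → r.SameCycle d d'
  pl : Pl r ι

variable {V V' D D' : Type}

namespace PMap

/-- the face permutation: the faces are its cycles -/
def φ (M : PMap V D) : Perm D := M.r * M.inv.toPerm

theorem φ_apply (M : PMap V D) (d : D) : M.φ d = M.r (M.ι d) := rfl

/-- the simple graph of a map -/
def graph (M : PMap V D) : SimpleGraph V where
  Adj u v := u ≠ v ∧ ∃ d, M.t d = u ∧ M.t (M.ι d) = v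
  symm := ⟨by
    rintro u v ⟨h, d, h1, h2⟩
    exact ⟨h.symm, M.ι d, h2, by rw [M.inv, h1]⟩⟩
  loopless := ⟨fun u h => h.1 rfl⟩

theorem t_pow (M : PMap V D) (d : D) (n : ℕ) : M.t ((M.r ^ n) d) = M.t d := by
  induction n with
  | zero => simp
  | succ n ih => rw [pow_succ', Perm.mul_apply, M.t_r, ih]

theorem t_eq_of_sameCycle (M : PMap V D) [Finite D] {d d' : D} (h : M.r.SameCycle d d') :
    M.t d = M.t d' := by
  obtain ⟨k, hk⟩ := h.exists_nat_pow_eq
  rw [← hk, M.t_pow]

theorem sameCycle_iff (M : PMap V D) [Finite D] {d d' : D} :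
    M.r.SameCycle d d' ↔ M.t d = M.t d' :=
  ⟨M.t_eq_of_sameCycle, M.trans d d'⟩

end PMap

/-- restriction of planarity to an invariant set of darts -/
theorem Pl.subtype {r : Perm D} {ι : D → D} (h : Pl r ι) {p : D → Prop} [DecidablePred p]
    (hp : ∀ d, p (r d) ↔ p d) (hι : ∀ d, p (ι d) ↔ p d) :
    Pl (r.subtypePerm hp) (fun d : {d // p d} => (⟨ι d.1, (hι d.1).2 d.2⟩ : {d // p d})) := by
  intro x u hx hu
  let x' : D → ZMod 2 := fun d => if hd : p d then x ⟨d, hd⟩ else 0
  let u' : D → ZMod 2 := fun d => if hd : p d then u ⟨d, hd⟩ else 0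
  obtain ⟨y, hy1, hy2⟩ := h x' u'
    (by
      intro d
      by_cases hd : p d
      · have hd' := (hι d).2 hd
        simp only [x', dif_pos hd, dif_pos hd']
        exact hx ⟨d, hd⟩
      · have hd' : ¬ p (ι d) := fun h => hd ((hι d).1 h)
        simp only [x', dif_neg hd, dif_neg hd'])
    (by
      intro d
      by_cases hd : p d
      · have hd' := (hp d).2 hd
        simp only [x', u', dif_pos hd, dif_pos hd']
        exact hu ⟨d, hd⟩
      · have hd' : ¬ p (r d) := fun h => hd ((hp d).1 h)
        simp only [x', u', dif_neg hd, dif_neg hd', add_zero])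
  refine ⟨fun d => y d.1, ?_, ?_⟩
  · rintro ⟨d, hd⟩
    have := hy1 d
    simp only [x', dif_pos hd] at this
    exact this
  · rintro ⟨d, hd⟩
    have := hy2 d
    simp only [x', dif_pos hd] at this
    exact this

namespace PMap

/-! ### Deleting edges -/

section del

variable [Fintype D] [DecidableEq D] (M : PMap V D) (p : D → Prop) [DecidablePred p]

/-- the list of the removed darts -/
noncomputable def rem (p : D → Prop) [DecidablePred p] : List D :=
  (Finset.univ.filter (fun d : D => ¬ p d)).toList

theorem mem_rem {p : D → Prop} [DecidablePred p] {d : D} : d ∈ rem p ↔ ¬ p d := by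
  unfold rem
  rw [Finset.mem_toList, Finset.mem_filter]
  simp

theorem notMem_rem {p : D → Prop} [DecidablePred p] {d : D} : d ∉ rem p ↔ p d := by
  rw [mem_rem, not_not]

theorem detachL_rem_iff (r : Perm D) (d : D) : p (detachL r (rem p) d) ↔ p d := by
  constructor
  · intro h
    by_contra hd
    have h1 := detachL_fix r (rem p) d (mem_rem.2 hd)
    rw [h1] at h
    exact hd h
  · intro h
    exact notMem_rem.1 (detachL_notMem r (rem p) (notMem_rem.2 h))

/-- delete all the edges whose darts do not satisfy `p` -/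
noncomputable def del (hp : ∀ d, p (M.ι d) ↔ p d) : PMap V {d // p d} where
  r := (detachL M.r (rem p)).subtypePerm (detachL_rem_iff p M.r)
  ι := fun d => ⟨M.ι d.1, (hp d.1).2 d.2⟩
  inv := by
    rintro ⟨d, hd⟩
    exact Subtype.ext (M.inv d)
  nofix := by
    rintro ⟨d, hd⟩ h
    exact M.nofix d (congrArg Subtype.val h)
  t := fun d => M.t d.1
  t_r := by
    rintro ⟨d, hd⟩
    exact detachL_inv M.t M.t_r (rem p) d
  trans := by
    rintro ⟨d, hd⟩ ⟨d', hd'⟩ h
    rw [sameCycle_subtypePerm]
    exact detachL_sameCycle (rem p) (notMem_rem.2 hd) (notMem_rem.2 hd') (M.trans d d' h)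
  pl := (M.pl.detachL (rem p)).subtype (detachL_rem_iff p M.r) hp

theorem del_r (hp : ∀ d, p (M.ι d) ↔ p d) (d : {d // p d}) (h : p (M.r d.1)) :
    (M.del p hp).r d = ⟨M.r d.1, h⟩ := by
  apply Subtype.ext
  show detachL M.r (rem p) d.1 = M.r d.1
  exact detachL_of_notMem M.r (rem p) (notMem_rem.2 d.2) (notMem_rem.2 h)

theorem del_φ (hp : ∀ d, p (M.ι d) ↔ p d) (d : {d // p d}) (h : p (M.φ d.1)) :
    (M.del p hp).φ d = ⟨M.φ d.1, h⟩ :=
  M.del_r p hp ⟨M.ι d.1, (hp d.1).2 d.2⟩ h

/-- the rotation after deletion: go on until a remaining dart is met -/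
theorem del_r_spec (hp : ∀ d, p (M.ι d) ↔ p d) (d : {d // p d}) :
    ∃ k : ℕ, ((M.del p hp).r d).1 = (M.r ^ (k + 1)) d.1 ∧
      ∀ j < k, ¬ p ((M.r ^ (j + 1)) d.1) := by
  obtain ⟨k, h1, h2⟩ := detachL_spec M.r (rem p) d.1 (notMem_rem.2 d.2)
  exact ⟨k, h1, fun j hj => mem_rem.1 (h2 j hj)⟩

end del

/-! ### Contracting an edge -/

section contract

variable [Fintype D] [DecidableEq D] (M : PMap V D) (e : D) (he : M.t e ≠ M.t (M.ι e))
  (π : V → V') (hπ : ∀ a b, π a = π b ↔ a = b ∨
    ((a = M.t e ∨ a = M.t (M.ι e)) ∧ (b = M.t e ∨ b = M.t (M.ι e))))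

/-- the rotation after contraction, on the old darts -/
def cR : Perm D := detach (detach (M.r * swap e (M.ι e)) e) (M.ι e)

theorem cR_fix1 : M.cR e (M.ι e) = M.ι e := detach_self _ _

theorem cR_fix2 : M.cR e e = e := by
  have h1 : detach (M.r * swap e (M.ι e)) e e = e := detach_self _ _
  show detach (detach (M.r * swap e (M.ι e)) e) (M.ι e) e = e
  rw [detach_of_ne _ (Ne.symm (M.nofix e)) (by rw [h1]; exact Ne.symm (M.nofix e)), h1]

theorem cR_iff (d : D) : (M.cR e d ≠ e ∧ M.cR e d ≠ M.ι e) ↔ (d ≠ e ∧ d ≠ M.ι e) := by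
  constructor
  · rintro ⟨h1, h2⟩
    refine ⟨?_, ?_⟩
    · rintro rfl; exact h1 (M.cR_fix2 _)
    · rintro rfl; exact h2 (M.cR_fix1 _)
  · rintro ⟨h1, h2⟩
    refine ⟨fun h => h1 ?_, fun h => h2 ?_⟩
    · exact (M.cR e).injective (h.trans (M.cR_fix2 e).symm)
    · exact (M.cR e).injective (h.trans (M.cR_fix1 e).symm)

theorem ι_iff (d : D) : (M.ι d ≠ e ∧ M.ι d ≠ M.ι e) ↔ (d ≠ e ∧ d ≠ M.ι e) := by
  constructor
  · rintro ⟨h1, h2⟩
    refine ⟨fun h => h2 (by rw [h]), fun h => h1 (by rw [h, M.inv])⟩
  · rintro ⟨h1, h2⟩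
    refine ⟨fun h => h2 (by rw [← h, M.inv]), fun h => h1 (M.inv.injective h)⟩

include he in
theorem not_sameCycle_contract : ¬ M.r.SameCycle e (M.ι e) :=
  fun h => he (M.t_eq_of_sameCycle h)

include he in
theorem swap_sameCycle_contract : (M.r * swap e (M.ι e)).SameCycle e (M.ι e) :=
  sameCycle_mul_swap (M.not_sameCycle_contract e he)

/-- contract the edge `e` (not a loop); `π` identifies its two ends -/
def contract : PMap V' {d : D // d ≠ e ∧ d ≠ M.ι e} where
  r := (M.cR e).subtypePerm (M.cR_iff e)
  ι := fun d => ⟨M.ι d.1, (M.ι_iff e d.1).2 d.2⟩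
  inv := by
    rintro ⟨d, hd⟩
    exact Subtype.ext (M.inv d)
  nofix := by
    rintro ⟨d, hd⟩ h
    exact M.nofix d (congrArg Subtype.val h)
  t := fun d => π (M.t d.1)
  t_r := by
    rintro ⟨d, hd⟩
    have h0 : ∀ d, π (M.t ((M.r * swap e (M.ι e)) d)) = π (M.t d) := by
      intro d
      by_cases h1 : d = e
      · rw [h1, Perm.mul_apply, swap_apply_left, M.t_r, hπ]
        exact Or.inr ⟨Or.inr rfl, Or.inl rfl⟩
      · by_cases h2 : d = M.ι e
        · rw [h2, Perm.mul_apply, swap_apply_right, M.t_r, hπ]
          exact Or.inr ⟨Or.inl rfl, Or.inr rfl⟩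
        · rw [Perm.mul_apply, swap_apply_of_ne_of_ne h1 h2, M.t_r]
    exact detachL_inv (r := M.r * swap e (M.ι e)) (fun d => π (M.t d)) h0 [M.ι e, e] d
  trans := by
    rintro ⟨d, hd⟩ ⟨d', hd'⟩ h
    rw [sameCycle_subtypePerm]
    have h1 : (M.r * swap e (M.ι e)).SameCycle d d' := by
      rcases (hπ _ _).1 h with h | ⟨h2, h3⟩
      · exact SameCycle.mul_swap (M.not_sameCycle_contract e he) (M.trans _ _ h)
      · have key : ∀ d, (M.t d = M.t e ∨ M.t d = M.t (M.ι e)) →
            (M.r * swap e (M.ι e)).SameCycle e d := by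
          intro d h4
          rcases h4 with h4 | h4
          · exact SameCycle.mul_swap (M.not_sameCycle_contract e he) (M.trans _ _ h4.symm)
          · exact (M.swap_sameCycle_contract e he).trans
              (SameCycle.mul_swap (M.not_sameCycle_contract e he) (M.trans _ _ h4.symm))
        exact (key d h2).symm.trans (key d' h3)
    exact detachL_sameCycle (r := M.r * swap e (M.ι e)) [M.ι e, e]
      (by simp only [List.mem_cons, List.not_mem_nil, or_false, not_or]; exact ⟨hd.2, hd.1⟩)
      (by simp only [List.mem_cons, List.not_mem_nil, or_false, not_or]; exact ⟨hd'.2, hd'.1⟩) h1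
  pl := (M.pl.contract M.inv e (M.nofix e)).subtype (M.cR_iff e) (M.ι_iff e)

theorem contract_r (d : {d : D // d ≠ e ∧ d ≠ M.ι e}) (h : M.r d.1 ≠ e ∧ M.r d.1 ≠ M.ι e) :
    (M.contract e he π hπ).r d = ⟨M.r d.1, h⟩ := by
  apply Subtype.ext
  show detachL (M.r * swap e (M.ι e)) [M.ι e, e] d.1 = M.r d.1
  have h1 : (M.r * swap e (M.ι e)) d.1 = M.r d.1 := by
    rw [Perm.mul_apply, swap_apply_of_ne_of_ne d.2.1 d.2.2]
  rw [detachL_of_notMem, h1]
  · simp only [List.mem_cons, List.not_mem_nil, or_false, not_or]; exact ⟨d.2.2, d.2.1⟩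
  · rw [h1]
    simp only [List.mem_cons, List.not_mem_nil, or_false, not_or]; exact ⟨h.2, h.1⟩

theorem contract_φ (d : {d : D // d ≠ e ∧ d ≠ M.ι e}) (h : M.φ d.1 ≠ e ∧ M.φ d.1 ≠ M.ι e) :
    (M.contract e he π hπ).φ d = ⟨M.φ d.1, h⟩ :=
  M.contract_r e he π hπ ⟨M.ι d.1, (M.ι_iff e d.1).2 d.2⟩ h

end contract

/-! ### Identifying two vertices at corners of one face -/

section merge

variable [Finite D] [DecidableEq D] (M : PMap V D) (a b : D) (hab : M.t a ≠ M.t b)
  (hf : M.φ.SameCycle (M.ι a) (M.ι b))
  (π : V → V') (hπ : ∀ v w, π v = π w ↔ v = w ∨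
    ((v = M.t a ∨ v = M.t b) ∧ (w = M.t a ∨ w = M.t b)))

include hab in
theorem not_sameCycle_merge : ¬ M.r.SameCycle a b :=
  fun h => hab (M.t_eq_of_sameCycle h)

/-- identify the vertices `t a` and `t b` at the corners after `a` and after `b`, which lie in the
same face -/
def merge : PMap V' D where
  r := M.r * swap a b
  ι := M.ι
  inv := M.inv
  nofix := M.nofix
  t := fun d => π (M.t d)
  t_r := by
    intro d
    by_cases h1 : d = a
    · rw [h1, Perm.mul_apply, swap_apply_left, M.t_r, hπ]
      exact Or.inr ⟨Or.inr rfl, Or.inl rfl⟩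
    · by_cases h2 : d = b
      · rw [h2, Perm.mul_apply, swap_apply_right, M.t_r, hπ]
        exact Or.inr ⟨Or.inl rfl, Or.inr rfl⟩
      · rw [Perm.mul_apply, swap_apply_of_ne_of_ne h1 h2, M.t_r]
  trans := by
    intro d d' h
    have hns := M.not_sameCycle_merge a b hab
    rcases (hπ _ _).1 h with h | ⟨h2, h3⟩
    · exact SameCycle.mul_swap hns (M.trans _ _ h)
    · have key : ∀ d, (M.t d = M.t a ∨ M.t d = M.t b) → (M.r * swap a b).SameCycle a d := by
        intro d h4
        rcases h4 with h4 | h4
        · exact SameCycle.mul_swap hns (M.trans _ _ h4.symm)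
        · exact (sameCycle_mul_swap hns).trans (SameCycle.mul_swap hns (M.trans _ _ h4.symm))
      exact (key d h2).symm.trans (key d' h3)
  pl := M.pl.merge M.inv (fun h => hab (by rw [h])) hf

theorem merge_r (d : D) (h1 : d ≠ a) (h2 : d ≠ b) :
    (M.merge a b hab hf π hπ).r d = M.r d := by
  show (M.r * swap a b) d = M.r d
  rw [Perm.mul_apply, swap_apply_of_ne_of_ne h1 h2]

theorem merge_φ (d : D) (h1 : M.ι d ≠ a) (h2 : M.ι d ≠ b) :
    (M.merge a b hab hf π hπ).φ d = M.φ d :=
  M.merge_r a b hab hf π hπ (M.ι d) h1 h2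

end merge

/-! ### Splitting a vertex -/

section split

variable [Finite D] [DecidableEq D] (M : PMap V D) (a b : D) (hne : a ≠ b) (hab : M.t a = M.t b)
  (t' : D → V') (ht' : ∀ d d', t' d = t' d' ↔
    (M.t d = M.t d' ∧ (M.t d = M.t a →
      ((M.r * swap a b).SameCycle a d ↔ (M.r * swap a b).SameCycle a d'))))

/-- split the vertex `t a = t b` at the corners after `a` and after `b` -/
def split : PMap V' D where
  r := M.r * swap a b
  ι := M.ι
  inv := M.inv
  nofix := M.nofix
  t := t'
  t_r := by
    intro d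
    rw [ht']
    refine ⟨?_, ?_⟩
    · by_cases h1 : d = a
      · rw [h1, Perm.mul_apply, swap_apply_left, M.t_r, hab]
      · by_cases h2 : d = b
        · rw [h2, Perm.mul_apply, swap_apply_right, M.t_r, hab]
        · rw [Perm.mul_apply, swap_apply_of_ne_of_ne h1 h2, M.t_r]
    · intro _
      rw [sameCycle_apply_right]
  trans := by
    intro d d' h
    obtain ⟨h1, h2⟩ := (ht' d d').1 h
    by_cases h3 : M.t d = M.t a
    · have h4 := h2 h3
      have h5 : ∀ d, M.t d = M.t a → ((M.r * swap a b).SameCycle a d ∨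
          (M.r * swap a b).SameCycle b d) := fun d hd => sameCycle_split (M.trans _ _ hd.symm)
      by_cases h6 : (M.r * swap a b).SameCycle a d
      · exact h6.symm.trans (h4.1 h6)
      · have h7 : ¬ (M.r * swap a b).SameCycle a d' := fun h => h6 (h4.2 h)
        have h8 := (h5 d h3).resolve_left h6
        have h9 := (h5 d' (h1 ▸ h3)).resolve_left h7
        exact h8.symm.trans h9
    · -- another vertex: the rotation is unchanged there
      obtain ⟨k, hk⟩ := (M.trans d d' h1).exists_nat_pow_eq
      have : ∀ n : ℕ, ((M.r * swap a b) ^ n) d = (M.r ^ n) d := by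
        intro n
        induction n with
        | zero => rfl
        | succ n ih =>
          rw [pow_succ', Perm.mul_apply, ih, pow_succ', Perm.mul_apply, Perm.mul_apply]
          have h4 : M.t ((M.r ^ n) d) = M.t d := M.t_pow d n
          rw [swap_apply_of_ne_of_ne]
          · intro h5; apply h3; rw [← h4, h5]
          · intro h5; apply h3; rw [← h4, h5, hab]
      rw [← hk, ← this]
      exact ⟨(k : ℤ), by rw [zpow_natCast]⟩
  pl := M.pl.split hne (M.trans _ _ hab)

theorem split_r (d : D) (h1 : d ≠ a) (h2 : d ≠ b) :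
    (M.split a b hne hab t' ht').r d = M.r d := by
  show (M.r * swap a b) d = M.r d
  rw [Perm.mul_apply, swap_apply_of_ne_of_ne h1 h2]

theorem split_φ (d : D) (h1 : M.ι d ≠ a) (h2 : M.ι d ≠ b) :
    (M.split a b hne hab t' ht').φ d = M.φ d :=
  M.split_r a b hne hab t' ht' (M.ι d) h1 h2

end split

end PMap

/-! ### Adding an edge in a face -/

/-- insert a new edge: the dart `inr false` after `a`, the dart `inr true` after `b` -/
def insR [DecidableEq D] (r : Perm D) (a b : D) : Perm (D ⊕ Bool) :=
  (Equiv.sumCongr r (1 : Perm Bool)) * swap (Sum.inl a) (Sum.inr false) *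
    swap (Sum.inl b) (Sum.inr true)

/-- the edge involution with a new edge -/
def insι (ι : D → D) : D ⊕ Bool → D ⊕ Bool := Sum.map ι not

section ins

variable [DecidableEq D] (r : Perm D) {a b : D} (hab : a ≠ b)

include hab in
theorem insR_a : insR r a b (Sum.inl a) = Sum.inr false := by
  unfold insR
  rw [Perm.mul_apply, Perm.mul_apply, swap_apply_of_ne_of_ne (a := Sum.inl b), swap_apply_left]
  · rfl
  · intro h; exact hab (Sum.inl_injective h)
  · exact Sum.inl_ne_inr

include hab in
theorem insR_b : insR r a b (Sum.inl b) = Sum.inr true := by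
  unfold insR
  rw [Perm.mul_apply, Perm.mul_apply, swap_apply_left, swap_apply_of_ne_of_ne]
  · rfl
  · exact Sum.inr_ne_inl
  · intro h; exact absurd (Sum.inr_injective h) (by decide)

include hab in
theorem insR_f : insR r a b (Sum.inr false) = Sum.inl (r a) := by
  unfold insR
  rw [Perm.mul_apply, Perm.mul_apply, swap_apply_of_ne_of_ne (a := Sum.inl b), swap_apply_right]
  · rfl
  · exact Sum.inr_ne_inl
  · intro h; exact absurd (Sum.inr_injective h) (by decide)

include hab in
theorem insR_t : insR r a b (Sum.inr true) = Sum.inl (r b) := by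
  unfold insR
  rw [Perm.mul_apply, Perm.mul_apply, swap_apply_right, swap_apply_of_ne_of_ne]
  · rfl
  · intro h; exact hab (Sum.inl_injective h).symm
  · exact Sum.inl_ne_inr

theorem insR_o {d : D} (h1 : d ≠ a) (h2 : d ≠ b) : insR r a b (Sum.inl d) = Sum.inl (r d) := by
  unfold insR
  rw [Perm.mul_apply, Perm.mul_apply, swap_apply_of_ne_of_ne (a := Sum.inl b),
    swap_apply_of_ne_of_ne]
  · rfl
  · intro h; exact h1 (Sum.inl_injective h)
  · exact Sum.inl_ne_inr
  · intro h; exact h2 (Sum.inl_injective h)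
  · exact Sum.inl_ne_inr

end ins

theorem zz1 (p q s : ZMod 2) (h : p = q + s) : q = p + s := by
  revert h; revert p q s; decide

/-- adding an edge between two different vertices at corners of one face -/
theorem Pl.addEdge [Finite D] [DecidableEq D] {r : Perm D} {ι : D → D} (h : Pl r ι)
    (hι : Function.Involutive ι) {a b : D} (hns : ¬ r.SameCycle a b)
    (hf : (r * hι.toPerm).SameCycle (ι a) (ι b)) : Pl (insR r a b) (insι ι) := by
  classical
  have hab : a ≠ b := fun h0 => hns (h0 ▸ SameCycle.refl _ _)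
  intro x u hx hu
  -- indicator of the cycle of `a`
  let s : D → ZMod 2 := fun d => if r.SameCycle a d then 1 else 0
  have hsr : ∀ d, s (r d) = s d := by
    intro d
    simp only [s, sameCycle_apply_right]
  have hsa : s a = 1 := by simp only [s, if_pos (SameCycle.refl r a)]
  have hsb : s b = 0 := by simp only [s, if_neg hns]
  have ea : u (Sum.inr false) = u (Sum.inl a) + x (Sum.inl a) := by
    rw [← insR_a r hab, hu]
  have eb : u (Sum.inr true) = u (Sum.inl b) + x (Sum.inl b) := by
    rw [← insR_b r hab, hu]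
  have ef : u (Sum.inl (r a)) = u (Sum.inr false) + x (Sum.inr false) := by
    rw [← insR_f r hab, hu]
  have et : u (Sum.inl (r b)) = u (Sum.inr true) + x (Sum.inr true) := by
    rw [← insR_t r hab, hu]
  have exx : x (Sum.inr true) = x (Sum.inr false) := hx (Sum.inr false)
  let c : ZMod 2 := u (Sum.inl (r b)) + u (Sum.inl a) + x (Sum.inl a)
  let u2 : D → ZMod 2 := fun d => u (Sum.inl d) + c * s d
  let x2 : D → ZMod 2 := fun d => x (Sum.inl d)
  have hx2 : ∀ d, x2 (ι d) = x2 d := fun d => hx (Sum.inl d)
  have ha : (r * swap a b) a = r b := by rw [Perm.mul_apply, swap_apply_left]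
  have hb : (r * swap a b) b = r a := by rw [Perm.mul_apply, swap_apply_right]
  have ho : ∀ d, d ≠ a → d ≠ b → (r * swap a b) d = r d := fun d h1 h2 => by
    rw [Perm.mul_apply, swap_apply_of_ne_of_ne h1 h2]
  have hu2 : ∀ d, u2 ((r * swap a b) d) = u2 d + x2 d := by
    intro d
    by_cases h1 : d = a
    · rw [h1, ha]
      show u (Sum.inl (r b)) + c * s (r b) = u (Sum.inl a) + c * s a + x (Sum.inl a)
      rw [hsr, hsb, hsa, mul_zero, mul_one]
      show u (Sum.inl (r b)) + 0 = u (Sum.inl a) + (u (Sum.inl (r b)) + u (Sum.inl a) +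
        x (Sum.inl a)) + x (Sum.inl a)
      generalize u (Sum.inl (r b)) = p
      generalize u (Sum.inl a) = q
      generalize x (Sum.inl a) = w
      revert p q w
      decide
    · by_cases h2 : d = b
      · rw [h2, hb]
        show u (Sum.inl (r a)) + c * s (r a) = u (Sum.inl b) + c * s b + x (Sum.inl b)
        rw [hsr, hsb, hsa]
        show _ + (u (Sum.inl (r b)) + u (Sum.inl a) + x (Sum.inl a)) * 1 = u (Sum.inl b) +
          (u (Sum.inl (r b)) + u (Sum.inl a) + x (Sum.inl a)) * 0 + x (Sum.inl b)
        rw [ef, et, ea, eb, exx]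
        generalize u (Sum.inl b) = p
        generalize u (Sum.inl a) = q
        generalize x (Sum.inl a) = w
        generalize x (Sum.inl b) = w'
        generalize x (Sum.inr false) = X
        revert p q w w' X
        decide
      · rw [ho d h1 h2]
        show u (Sum.inl (r d)) + c * s (r d) = u (Sum.inl d) + c * s d + x (Sum.inl d)
        rw [hsr, ← insR_o r h1 h2, hu]
        ring
  obtain ⟨y, hy1, hy2⟩ := (h.merge hι hab hf) x2 u2 hx2 hu2
  have hconst : ∀ d d', (r * swap a b).SameCycle d d' → y d + u2 d = y d' + u2 d' := by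
    intro d d' hdd
    obtain ⟨k, hk⟩ := hdd.exists_nat_pow_eq
    rw [← hk]
    clear hk
    induction k with
    | zero => simp
    | succ k ih =>
      rw [pow_succ', Perm.mul_apply, hy1, hu2, ih]
      have := zadd_self (x2 (((r * swap a b) ^ k) d))
      linear_combination -this
  have hK : y a + x (Sum.inl a) + (y b + x (Sum.inl b)) = x (Sum.inr false) := by
    have h1 := hconst ((r * swap a b) a) ((r * swap a b) b) (by
      rw [sameCycle_apply_left, sameCycle_apply_right]; exact sameCycle_mul_swap hns)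
    rw [hy1, hy1, hu2, hu2] at h1
    change y a + x (Sum.inl a) + (u (Sum.inl a) + c * s a + x (Sum.inl a)) =
      y b + x (Sum.inl b) + (u (Sum.inl b) + c * s b + x (Sum.inl b)) at h1
    rw [hsa, hsb] at h1
    change y a + x (Sum.inl a) + (u (Sum.inl a) + (u (Sum.inl (r b)) + u (Sum.inl a) +
      x (Sum.inl a)) * 1 + x (Sum.inl a)) =
      y b + x (Sum.inl b) + (u (Sum.inl b) + (u (Sum.inl (r b)) + u (Sum.inl a) +
      x (Sum.inl a)) * 0 + x (Sum.inl b)) at h1
    rw [et, eb, exx] at h1
    revert h1
    generalize u (Sum.inl b) = p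
    generalize u (Sum.inl a) = q
    generalize x (Sum.inl a) = w
    generalize x (Sum.inl b) = w'
    generalize x (Sum.inr false) = X
    generalize y a = ya
    generalize y b = yb
    revert p q w w' X ya yb
    decide
  refine ⟨Sum.elim y (fun i => if i then y b + x (Sum.inl b) else y a + x (Sum.inl a)), ?_, ?_⟩
  · rintro (d | i)
    · by_cases h1 : d = a
      · rw [h1, insR_a r hab]
        simp
      · by_cases h2 : d = b
        · rw [h2, insR_b r hab]
          simp
        · rw [insR_o r h1 h2]
          show y (r d) = y d + x (Sum.inl d)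
          rw [← ho d h1 h2, hy1]
    · cases i
      · rw [insR_f r hab]
        show y (r a) = (if false = true then y b + x (Sum.inl b) else y a + x (Sum.inl a)) +
          x (Sum.inr false)
        rw [if_neg (by decide), ← hb, hy1, ← hK]
        show y b + x (Sum.inl b) = _
        generalize y b + x (Sum.inl b) = p
        generalize y a + x (Sum.inl a) = q
        revert p q
        decide
      · rw [insR_t r hab]
        show y (r b) = (if true = true then y b + x (Sum.inl b) else y a + x (Sum.inl a)) +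
          x (Sum.inr true)
        rw [if_pos rfl, ← ha, hy1, exx, ← hK]
        show y a + x (Sum.inl a) = _
        generalize y b + x (Sum.inl b) = p
        generalize y a + x (Sum.inl a) = q
        revert p q
        decide
  · rintro (d | i)
    · exact hy2 d
    · cases i
      · show (if true = true then y b + x (Sum.inl b) else y a + x (Sum.inl a)) =
          (if false = true then y b + x (Sum.inl b) else y a + x (Sum.inl a)) + x (Sum.inr false)
        rw [if_pos rfl, if_neg (by decide), ← hK]
        generalize y b + x (Sum.inl b) = p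
        generalize y a + x (Sum.inl a) = q
        revert p q
        decide
      · show (if false = true then y b + x (Sum.inl b) else y a + x (Sum.inl a)) =
          (if true = true then y b + x (Sum.inl b) else y a + x (Sum.inl a)) + x (Sum.inr true)
        rw [if_pos rfl, if_neg (by decide), exx, ← hK]
        generalize y b + x (Sum.inl b) = p
        generalize y a + x (Sum.inl a) = q
        revert p q
        decide

end Pool.Agent.Helper35.PM
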