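import Pool.Agent.Helper35.PM.Map

/-!
# Planar rotation systems of simple graphs
-/

set_option autoImplicit false
set_option linter.unusedSectionVars false

namespace Pool.Agent.Helper35.PM

open Equiv Equiv.Perm

variable {V W D : Type}

/-- a planar rotation system of the simple graph `G` -/
structure Rot (G : SimpleGraph V) where
  r : Perm G.Dart
  fst_r : ∀ d, (r d).fst = d.fst
  trans : ∀ d d' : G.Dart, d.fst = d'.fst → r.SameCycle d d'
  pl : Pl r SimpleGraph.Dart.symm

namespace Rot

variable {G : SimpleGraph V}

/-- the map of a rotation system -/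
def map (R : Rot G) : PMap V G.Dart where
  r := R.r
  ι := SimpleGraph.Dart.symm
  inv := SimpleGraph.Dart.symm_involutive
  nofix := fun d h => d.symm_ne h
  t := fun d => d.fst
  t_r := R.fst_r
  trans := R.trans
  pl := R.pl

@[simp] theorem map_r (R : Rot G) : R.map.r = R.r := rfl
@[simp] theorem map_t (R : Rot G) (d : G.Dart) : R.map.t d = d.fst := rfl
@[simp] theorem map_ι (R : Rot G) (d : G.Dart) : R.map.ι d = d.symm := rfl

/-- the face permutation: from the dart `(a, b)` go to the next dart at `b` after `(b, a)` -/
def φ (R : Rot G) : Perm G.Dart := R.map.φ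

theorem φ_apply (R : Rot G) (d : G.Dart) : R.φ d = R.r d.symm := rfl

theorem φ_fst (R : Rot G) (d : G.Dart) : (R.φ d).fst = d.snd := by
  rw [φ_apply, R.fst_r]; rfl

end Rot

/-- planarity of a simple graph: it has a planar rotation system -/
def Planar (G : SimpleGraph V) : Prop := Nonempty (Rot G)

/-- General extraction of a rotation system from a map: `c` chooses for every dart of `G` a dart of
the map (compatible with reversal), `g` is the embedding of the vertices; all other darts are
deleted. Faces all of whose darts are chosen stay. -/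
theorem PMap.exists_rot [Fintype D] (M : PMap V D) {G : SimpleGraph W} (g : W → V)
    (hg : Function.Injective g) (c : G.Dart → D) (hc : Function.Injective c)
    (ht : ∀ d, M.t (c d) = g d.fst) (hs : ∀ d, M.ι (c d) = c d.symm) :
    ∃ R : Rot G, (∀ d d', M.r (c d) = c d' → R.r d = d') ∧
      (∀ d d', M.φ (c d) = c d' → R.φ d = d') ∧
      (∀ d, ∃ k : ℕ, c (R.r d) = (M.r ^ (k + 1)) (c d) ∧
        ∀ j < k, (M.r ^ (j + 1)) (c d) ∉ Set.range c) := by
  classical
  let p : D → Prop := fun d => d ∈ Set.range c
  have hp : ∀ d, p (M.ι d) ↔ p d := by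
    intro d
    constructor
    · rintro ⟨e, he⟩
      exact ⟨e.symm, by rw [← hs, he, M.inv]⟩
    · rintro ⟨e, he⟩
      exact ⟨e.symm, by rw [← hs, he]⟩
  let N := M.del p hp
  let ε : G.Dart ≃ {d // p d} := Equiv.ofInjective c hc
  have hε : ∀ d, (ε d).1 = c d := fun d => rfl
  have hεs : ∀ d, N.ι (ε d) = ε d.symm := by
    intro d
    apply Subtype.ext
    show M.ι (c d) = c d.symm
    exact hs d
  let R : Rot G :=
    { r := (ε.permCongr).symm N.r
      fst_r := by
        intro d
        apply hg
        have h1 : N.t (ε ((ε.permCongr).symm N.r d)) = N.t (ε d) := by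
          have : ε ((ε.permCongr).symm N.r d) = N.r (ε d) := by simp
          rw [this, N.t_r]
        have h2 : ∀ d, N.t (ε d) = g d.fst := fun d => ht d
        rw [← h2, ← h2, h1]
      trans := by
        intro d d' h
        have h1 : N.r.SameCycle (ε d) (ε d') := by
          apply N.trans
          show M.t (c d) = M.t (c d')
          rw [ht, ht, h]
        obtain ⟨k, hk⟩ := h1
        refine ⟨k, ?_⟩
        apply ε.injective
        rw [← hk]
        have : ∀ (k : ℤ) (d : G.Dart), ε ((((ε.permCongr).symm N.r) ^ k) d) = (N.r ^ k) (ε d) := by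
          intro k d
          have h2 : ((ε.permCongr).symm N.r) ^ k = (ε.permCongr).symm (N.r ^ k) := by
            have := map_zpow (ε.permCongrHom.symm : Perm {d // p d} →* Perm G.Dart) N.r k
            exact this.symm
          rw [h2]
          simp
        exact this k d
      pl := by
        intro x u hx hu
        obtain ⟨y, hy1, hy2⟩ := N.pl (fun d => x (ε.symm d)) (fun d => u (ε.symm d))
          (by
            intro d
            obtain ⟨e, rfl⟩ := ε.surjective d
            show x (ε.symm (N.ι (ε e))) = x (ε.symm (ε e))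
            rw [hεs, ε.symm_apply_apply, ε.symm_apply_apply, hx])
          (by
            intro d
            obtain ⟨e, rfl⟩ := ε.surjective d
            show u (ε.symm (N.r (ε e))) = u (ε.symm (ε e)) + x (ε.symm (ε e))
            rw [ε.symm_apply_apply, ← hu]
            congr 1)
        refine ⟨fun d => y (ε d), ?_, ?_⟩
        · intro d
          have h1 := hy1 (ε d)
          simp only [ε.symm_apply_apply] at h1
          rw [← h1]
          congr 1
          simp
        · intro d
          have h1 := hy2 (ε d)
          simp only [ε.symm_apply_apply] at h1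
          rw [← h1]
          show y (ε d.symm) = y (N.ι (ε d))
          rw [hεs] }
  have hR : ∀ d, ε (R.r d) = N.r (ε d) := by
    intro d
    show ε ((ε.permCongr).symm N.r d) = N.r (ε d)
    simp
  have hRr : ∀ d d', M.r (c d) = c d' → R.r d = d' := by
    intro d d' h
    apply ε.injective
    rw [hR]
    have h1 : p (M.r (ε d).1) := ⟨d', h.symm⟩
    rw [show N.r (ε d) = ⟨M.r (ε d).1, h1⟩ from M.del_r p hp (ε d) h1]
    exact Subtype.ext h
  refine ⟨R, hRr, ?_, ?_⟩
  · intro d d' h
    show R.r d.symm = d'
    apply hRr
    rw [← hs]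
    exact h
  · intro d
    obtain ⟨k, h1, h2⟩ := M.del_r_spec p hp (ε d)
    refine ⟨k, ?_, h2⟩
    rw [← hε, hR]
    exact h1

/-- subgraphs: `g` embeds `G'` in `G` -/
theorem Rot.exists_sub {G : SimpleGraph V} {G' : SimpleGraph W} [Finite V] (R : Rot G)
    (g : W → V) (hg : Function.Injective g) (hadj : ∀ a b, G'.Adj a b → G.Adj (g a) (g b)) :
    ∃ R' : Rot G', ∀ (d d' : G'.Dart) (e e' : G.Dart), e.toProd = (g d.fst, g d.snd) →
      e'.toProd = (g d'.fst, g d'.snd) → R.φ e = e' → R'.φ d = d' := by
  classical
  have := Fintype.ofFinite V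
  let c : G'.Dart → G.Dart := fun d => ⟨(g d.fst, g d.snd), hadj _ _ d.adj⟩
  obtain ⟨R', -, h, -⟩ := R.map.exists_rot g hg c
    (by
      intro d d' h
      have h1 := congrArg SimpleGraph.Dart.toProd h
      simp only [c, Prod.mk.injEq] at h1
      apply SimpleGraph.Dart.ext
      exact Prod.ext (hg h1.1) (hg h1.2))
    (fun d => rfl) (fun d => rfl)
  refine ⟨R', ?_⟩
  intro d d' e e' he he' hee
  apply h
  have h1 : c d = e := SimpleGraph.Dart.ext _ _ he.symm
  have h2 : c d' = e' := SimpleGraph.Dart.ext _ _ he'.symm
  rw [h1, h2]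
  exact hee

theorem Planar.sub {G : SimpleGraph V} {G' : SimpleGraph W} [Finite V] (h : Planar G)
    (g : W → V) (hg : Function.Injective g) (hadj : ∀ a b, G'.Adj a b → G.Adj (g a) (g b)) :
    Planar G' := by
  obtain ⟨R⟩ := h
  obtain ⟨R', -⟩ := R.exists_sub g hg hadj
  exact ⟨R'⟩

theorem Planar.mono {G G' : SimpleGraph V} [Finite V] (h : Planar G) (hle : G' ≤ G) :
    Planar G' :=
  h.sub id Function.injective_id (fun _ _ hab => hle hab)

end Pool.Agent.Helper35.PM
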