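import Pool.Agent.Helper35.PM.St

/-!
# Plane maps: minimal triangle-free planar graphs which are not near-bipartite (statements)
-/

set_option autoImplicit false

namespace Pool.Agent.Helper35.PM

open Equiv Equiv.Perm

/-! ### Near-bipartite graphs -/

/-- triangle-free -/
def TF {V : Type} (G : SimpleGraph V) : Prop :=
  ∀ a b c, G.Adj a b → G.Adj b c → G.Adj a c → False

/-- `F` induces a forest: every nonempty subset contains a vertex with at most one neighbour in it -/
def Forest {V : Type} (G : SimpleGraph V) (F : Set V) : Prop :=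
  ∀ S ⊆ F, S.Nonempty → ∃ a ∈ S, ∀ b ∈ S, ∀ c ∈ S, G.Adj a b → G.Adj a c → b = c

/-- near-bipartite: an independent set whose complement induces a forest -/
def NB {V : Type} (G : SimpleGraph V) : Prop :=
  ∃ I : Set V, (∀ a ∈ I, ∀ b ∈ I, ¬ G.Adj a b) ∧ Forest G Iᶜ

/-- a counterexample with the smallest number of vertices to: every triangle-free planar graph is
near-bipartite -/
structure MinC {V : Type} [Fintype V] (G : SimpleGraph V) : Prop where
  planar : Planar G
  tf : TF G
  nnb : ¬ NB G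
  small : ∀ (W : Type) [Fintype W] (H : SimpleGraph W), Fintype.card W < Fintype.card V →
    Planar H → TF H → NB H

/-- module LEAF -/
def StLeaf : Prop :=
  ∀ (V : Type) [Finite V] (G : SimpleGraph V) (F : Set V), Forest G F ↔ (G.induce F).IsAcyclic

/-- module FIN: near-bipartite graphs are `{1,2}`-choosable -/
def StFin : Prop :=
  ∀ (V : Type) [Fintype V] (G : SimpleGraph V), NB G → ∀ (L : V → Finset ℕ) (A : Finset ℕ),
    (∀ v, (L v ∩ A).card = 1 ∧ (L v \ A).card = 2) →
    ∃ c : V → ℕ, (∀ v, c v ∈ L v) ∧ ∀ u v, G.Adj u v → c u ≠ c v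

/-- module QUO: lifting a partition through the identification of two vertices `p`, `q` with at most
one common neighbour -/
def StQuo : Prop :=
  ∀ (V W : Type) (G : SimpleGraph V) (H : SimpleGraph W) (π : V → W) (p q : V),
    (∀ a b, G.Adj a b → H.Adj (π a) (π b)) →
    (∀ a b, π a = π b → a = b ∨ (a = p ∧ b = q) ∨ (a = q ∧ b = p)) →
    (∀ c d, G.Adj p c → G.Adj q c → G.Adj p d → G.Adj q d → c = d) →
    NB H → NB G

/-- module IDENT: identifying two vertices of one face gives a planar graph -/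
def StIdent : Prop :=
  ∀ (V W : Type) [Finite V] (G : SimpleGraph V) (R : Rot G) (d d' : G.Dart) (π : V → W)
    (H : SimpleGraph W), d.fst ≠ d'.fst → R.φ.SameCycle d d' →
    (∀ a b, π a = π b ↔ a = b ∨ ((a = d.fst ∨ a = d'.fst) ∧ (b = d.fst ∨ b = d'.fst))) →
    (∀ x y, H.Adj x y → ∃ a b, π a = x ∧ π b = y ∧ G.Adj a b) → Planar H

/-! ### Structure of a minimal counterexample -/

/-- module CONN -/
def StConn : Prop := ∀ (V : Type) [Fintype V] (G : SimpleGraph V), MinC G → G.Connected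

/-- module DEG: every vertex has at least three neighbours -/
def StDeg : Prop :=
  ∀ (V : Type) [Fintype V] (G : SimpleGraph V), MinC G →
    ∀ v a b : V, ∃ c, G.Adj v c ∧ c ≠ a ∧ c ≠ b

/-- module NOCUT: there is no cut vertex -/
def StNoCut : Prop :=
  ∀ (V : Type) [Fintype V] (G : SimpleGraph V), MinC G → ∀ (v : V) (A : Set V), v ∉ A →
    (∀ a b, a ∈ A → b ∉ A → G.Adj a b → b = v) → A.Nonempty → ∀ b, b ≠ v → b ∈ A

/-- module FINJ: a face visits every vertex at most once -/
def StFaceInj : Prop :=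
  ∀ (V : Type) [Fintype V] (G : SimpleGraph V), MinC G → ∀ (R : Rot G) (d d' : G.Dart),
    R.φ.SameCycle d d' → d.fst = d'.fst → d = d'

/-- module FLEN: faces have length at least four -/
def StFaceLen : Prop :=
  ∀ (V : Type) [Fintype V] (G : SimpleGraph V), MinC G → ∀ (R : Rot G) (d : G.Dart),
    4 ≤ Function.minimalPeriod R.φ d

/-- module SHORT: there is a face of length at most five -/
def StShortFace : Prop :=
  ∀ (V : Type) [Fintype V] (G : SimpleGraph V), MinC G → ∀ (R : Rot G),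
    ∃ d : G.Dart, Function.minimalPeriod R.φ d ≤ 5

/-! ### Cycles and their sides -/

/-- `v 0, ..., v (m-1)` is a cycle of `G` -/
structure Cyc {V : Type} (G : SimpleGraph V) (m : ℕ) (v : ZMod m → V) : Prop where
  inj : Function.Injective v
  adj : ∀ j, G.Adj (v j) (v (j + 1))

/-- `y` is the side function of the cycle `v` (side `0` on the left, side `1` on the right) -/
structure Side {V : Type} {G : SimpleGraph V} (R : Rot G) (m : ℕ) (v : ZMod m → V)
    (y : G.Dart → ZMod 2) : Prop where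
  face : ∀ d, y (R.φ d) = y d
  off : ∀ d : G.Dart, (∀ j, d.toProd ≠ (v j, v (j + 1)) ∧ d.toProd ≠ (v (j + 1), v j)) →
    y d.symm = y d ∧ y (R.r d) = y d
  on0 : ∀ (d : G.Dart) (j : ZMod m), d.toProd = (v j, v (j + 1)) → y d = 0
  on1 : ∀ (d : G.Dart) (j : ZMod m), d.toProd = (v (j + 1), v j) → y d = 1

/-- `w` lies strictly inside (side `1`) -/
def Int {V : Type} {G : SimpleGraph V} (y : G.Dart → ZMod 2) (w : V) : Prop :=
  ∀ d : G.Dart, d.fst = w → y d = 1

/-- the cycle `v'` lies in the closed disc of side `1` -/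
def InDisc {V : Type} {G : SimpleGraph V} (y : G.Dart → ZMod 2) (m' : ℕ) (v' : ZMod m' → V) :
    Prop :=
  ∀ (d : G.Dart) (j : ZMod m'), d.toProd = (v' j, v' (j + 1)) → y d = 1 ∨ y d.symm = 1

/-- the cycle `v'` bounds a face of side `1` -/
def FacialIn {V : Type} {G : SimpleGraph V} (R : Rot G) (y : G.Dart → ZMod 2) (m' : ℕ)
    (v' : ZMod m' → V) : Prop :=
  (∀ (d : G.Dart) (j : ZMod m'), d.toProd = (v' j, v' (j + 1)) →
    y d = 1 ∧ (R.φ d).toProd = (v' (j + 1), v' (j + 1 + 1))) ∨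
  (∀ (d : G.Dart) (j : ZMod m'), d.toProd = (v' (j + 1), v' j) →
    y d = 1 ∧ (R.φ d).toProd = (v' j, v' (j - 1)))

/-- module SIDE: every cycle has a side function (from JOR) -/
def StSide : Prop :=
  ∀ (V : Type) [Finite V] (G : SimpleGraph V) (R : Rot G) (m : ℕ) (v : ZMod m → V), 3 ≤ m →
    Cyc G m v → ∃ y, Side R m v y

/-- module REV: reversing a cycle exchanges its sides -/
def StRev : Prop :=
  ∀ (V : Type) (G : SimpleGraph V) (R : Rot G) (m : ℕ) (v : ZMod m → V) (y : G.Dart → ZMod 2),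
    (Cyc G m v → Cyc G m (fun j => v (-j))) ∧
    (Side R m v y → Side R m (fun j => v (-j)) (fun d => y d + 1))

/-- module CHORD: short cycles have no chords -/
def StChord : Prop :=
  ∀ (V : Type) (G : SimpleGraph V) (m : ℕ) (v : ZMod m → V), TF G → (m = 4 ∨ m = 5) →
    Cyc G m v → ∀ i j, G.Adj (v i) (v j) → j = i + 1 ∨ i = j + 1

/-- module OFFV: a vertex off the cycle has only darts of one side -/
def StOffV : Prop :=
  ∀ (V : Type) [Finite V] (G : SimpleGraph V) (R : Rot G) (m : ℕ) (v : ZMod m → V)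
    (y : G.Dart → ZMod 2), Side R m v y → ∀ w, w ∉ Set.range v →
    ∀ d d' : G.Dart, d.fst = w → d'.fst = w → y d = y d'

/-- module NEST: a cycle in the closed disc has one side inside the disc -/
def StNest : Prop :=
  ∀ (V : Type) [Finite V] (G : SimpleGraph V) (R : Rot G) (m m' : ℕ) (v : ZMod m → V)
    (v' : ZMod m' → V) (y y' : G.Dart → ZMod 2), G.Connected → 3 ≤ m → 3 ≤ m' →
    Cyc G m v → Cyc G m' v' → Side R m v y → Side R m' v' y' → InDisc y m' v' →
    (∀ d, y' d = 1 → y d = 1) ∨ (∀ d, y' d = 0 → y d = 1)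

/-- module EMPTY: a side of a short cycle without vertices is a face -/
def StEmpty : Prop :=
  ∀ (V : Type) [Finite V] (G : SimpleGraph V) (R : Rot G) (m : ℕ) (v : ZMod m → V)
    (y : G.Dart → ZMod 2), TF G → (m = 4 ∨ m = 5) → Cyc G m v → Side R m v y →
    (∀ w, ¬ Int y w) →
    (∀ d, y d = 1 → ∃ j, d.toProd = (v (j + 1), v j)) ∧
    (∀ (d : G.Dart) (j : ZMod m), d.toProd = (v (j + 1), v j) →
      (R.φ d).toProd = (v j, v (j - 1)))

/-- the innermost short cycle -/
structure Disc0 {V : Type} {G : SimpleGraph V} (R : Rot G) (m : ℕ) (v : ZMod m → V)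
    (y : G.Dart → ZMod 2) : Prop where
  len : m = 4 ∨ m = 5
  cyc : Cyc G m v
  side : Side R m v y
  ex : ∃ w, Int y w
  short : ∀ (m' : ℕ) (v' : ZMod m' → V), (m' = 4 ∨ m' = 5) → Cyc G m' v' → InDisc y m' v' →
    Set.range v' = Set.range v ∨ FacialIn R y m' v'

/-- module FIRST: there is a short cycle with a vertex inside -/
def StFirst : Prop :=
  ∀ (V : Type) [Fintype V] (G : SimpleGraph V), MinC G → ∀ R : Rot G,
    ∃ (m : ℕ) (v : ZMod m → V) (y : G.Dart → ZMod 2), (m = 4 ∨ m = 5) ∧ Cyc G m v ∧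
      Side R m v y ∧ ∃ w, Int y w

/-- module INNER: there is an innermost short cycle -/
def StInner : Prop :=
  ∀ (V : Type) [Fintype V] (G : SimpleGraph V), MinC G → ∀ R : Rot G,
    ∃ (m : ℕ) (v : ZMod m → V) (y : G.Dart → ZMod 2), Disc0 R m v y

/-- `w` lies strictly outside -/
def Out {V : Type} {G : SimpleGraph V} (y : G.Dart → ZMod 2) (w : V) : Prop :=
  ∀ d : G.Dart, d.fst = w → y d = 0

/-- `a b c e` is a face of length four -/
def Face4 {V : Type} {G : SimpleGraph V} (R : Rot G) (a b c e : V) : Prop :=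
  ∃ d : G.Dart, d.toProd = (a, b) ∧ (R.φ d).toProd = (b, c) ∧ (R.φ (R.φ d)).toProd = (c, e) ∧
    (R.φ (R.φ (R.φ d))).toProd = (e, a) ∧ R.φ (R.φ (R.φ (R.φ d))) = d

/-- `a b c e f` is a face of length five -/
def Face5 {V : Type} {G : SimpleGraph V} (R : Rot G) (a b c e f : V) : Prop :=
  ∃ d : G.Dart, d.toProd = (a, b) ∧ (R.φ d).toProd = (b, c) ∧ (R.φ (R.φ d)).toProd = (c, e) ∧
    (R.φ (R.φ (R.φ d))).toProd = (e, f) ∧ (R.φ (R.φ (R.φ (R.φ d)))).toProd = (f, a) ∧
    R.φ (R.φ (R.φ (R.φ (R.φ d)))) = d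

/-- module ONE: a vertex inside has at most one neighbour on the innermost short cycle -/
def StOne : Prop :=
  ∀ (V : Type) [Fintype V] (G : SimpleGraph V), MinC G → ∀ (R : Rot G) (m : ℕ) (v : ZMod m → V)
    (y : G.Dart → ZMod 2), Disc0 R m v y → ∀ w, Int y w → ∀ a ∈ Set.range v, ∀ b ∈ Set.range v,
      G.Adj w a → G.Adj w b → a = b

/-- module COR4: a cycle of length four through a vertex `b` inside bounds a face -/
def StCor4 : Prop :=
  ∀ (V : Type) [Fintype V] (G : SimpleGraph V), MinC G → ∀ (R : Rot G) (m : ℕ) (v : ZMod m → V)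
    (y : G.Dart → ZMod 2), Disc0 R m v y → ∀ a b c e, Int y b → G.Adj a b → G.Adj b c →
      G.Adj c e → G.Adj e a → a ≠ c → b ≠ e → Face4 R a b c e ∨ Face4 R c b a e

/-- module COR5: a cycle of length five through a vertex `b` inside bounds a face, up to the
replacement of one vertex outside by a vertex of the innermost short cycle -/
def StCor5 : Prop :=
  ∀ (V : Type) [Fintype V] (G : SimpleGraph V), MinC G → ∀ (R : Rot G) (m : ℕ) (v : ZMod m → V)
    (y : G.Dart → ZMod 2), Disc0 R m v y → ∀ a b c e f, Int y b → G.Adj a b → G.Adj b c →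
      G.Adj c e → G.Adj e f → G.Adj f a → a ≠ c → ∃ e' f', (e' = e ∨ (Out y e ∧ e' ∈ Set.range v)) ∧
      (f' = f ∨ (Out y f ∧ f' ∈ Set.range v)) ∧ (e' = e ∨ f' = f) ∧
      (Face5 R a b c e' f' ∨ Face5 R c b a f' e')

/-- module LONG: the faces inside an innermost short cycle have length at most five -/
def StLong : Prop :=
  ∀ (V : Type) [Fintype V] (G : SimpleGraph V), MinC G → ∀ (R : Rot G) (m : ℕ) (v : ZMod m → V)
    (y : G.Dart → ZMod 2), Disc0 R m v y → ∀ d, y d = 1 → Function.minimalPeriod R.φ d ≤ 5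

/-- module EULD: Euler's formula for the closed disc of side `1` -/
def StEulD : Prop :=
  ∀ (V : Type) [Finite V] (G : SimpleGraph V) (R : Rot G) (m : ℕ) (v : ZMod m → V)
    (y : G.Dart → ZMod 2), G.Connected → 3 ≤ m → Cyc G m v → Side R m v y →
    Nat.card {d : G.Dart // y d = 1} + 2 = 2 * Nat.card {w : V // Int y w} +
      2 * Nat.card {c : Quotient (SameCycle.setoid R.φ) // ∃ d, y d = 1 ∧ ⟦d⟧ = c} + m

/-- the complete data of the disc -/
structure Disc {V : Type} {G : SimpleGraph V} (R : Rot G) (m : ℕ) (v : ZMod m → V)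
    (y : G.Dart → ZMod 2) : Prop extends Disc0 R m v y where
  tf : TF G
  conn : G.Connected
  deg : ∀ w a b : V, ∃ c, G.Adj w c ∧ c ≠ a ∧ c ≠ b
  finj : ∀ d d' : G.Dart, R.φ.SameCycle d d' → d.fst = d'.fst → d = d'
  flen : ∀ d : G.Dart, y d = 1 →
    Function.minimalPeriod R.φ d = 4 ∨ Function.minimalPeriod R.φ d = 5
  one : ∀ w, Int y w → ∀ a ∈ Set.range v, ∀ b ∈ Set.range v, G.Adj w a → G.Adj w b → a = b
  cor4 : ∀ a b c e, Int y b → G.Adj a b → G.Adj b c → G.Adj c e → G.Adj e a → a ≠ c → b ≠ e →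
    Face4 R a b c e ∨ Face4 R c b a e
  cor5 : ∀ a b c e f, Int y b → G.Adj a b → G.Adj b c → G.Adj c e → G.Adj e f → G.Adj f a →
    a ≠ c → ∃ e' f', (e' = e ∨ (Out y e ∧ e' ∈ Set.range v)) ∧
      (f' = f ∨ (Out y f ∧ f' ∈ Set.range v)) ∧ (e' = e ∨ f' = f) ∧
      (Face5 R a b c e' f' ∨ Face5 R c b a f' e')
  euler : Nat.card {d : G.Dart // y d = 1} + 2 = 2 * Nat.card {w : V // Int y w} +
      2 * Nat.card {c : Quotient (SameCycle.setoid R.φ) // ∃ d, y d = 1 ∧ ⟦d⟧ = c} + m

/-- the disc inside a minimal counterexample -/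
def StDisc : Prop :=
  ∀ (V : Type) [Fintype V] (G : SimpleGraph V), MinC G → ∀ R : Rot G,
    ∃ (m : ℕ) (v : ZMod m → V) (y : G.Dart → ZMod 2), Disc R m v y

end Pool.Agent.Helper35.PM
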